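import Pool.Agent.helper14.NS.Q150a.Pc
import Pool.Agent.helper14.NS.Q175a.Pc
import Pool.Agent.helper14.NS.Q150b.Pc
import Pool.Agent.helper14.NS.Q150c.Pc
import Pool.Agent.helper14.NS.Q150d.Pc
import Pool.Agent.helper14.NS.Q150e.Pc
import Pool.Agent.helper14.NS.Q150f.Pc
import Pool.Agent.helper14.NS.Q150g.Pc
import Pool.Agent.helper14.NS.Q150h.Pc

/-!
# The near field for `150 ≤ e ≤ 200`: the cover
-/

namespace Pool.Agent.helper14.NS

open Pool.Agent.helper31.EQ.R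
open Pool.Agent.helper12.RS
open Pool.Agent.helper63.NF hiding TD
open Pool.Agent.helper4.NS
open Pool.Agent.helper71.FG (Ag)

variable {e κ : ℝ}

theorem near_150 (h1 : (150 : ℝ) ≤ e) (h2 : e ≤ 200) (hκ : 0 < κ)
    (hd : 2 * (Real.cosh κ - 1) / Real.cosh (e * κ / 2) ^ (2 / e) < 4 ^ (1 / e) - 1)
    (c0 : e ≤ 175 → e * κ / 2 ≤ 1 / 4 → SF Q150a.tab 16 e κ (39 / 10) →
      Corner Q150a.tab 16 e κ (1 / 8) (1 / 20))
    (c1 : 175 ≤ e → e * κ / 2 ≤ 1 / 4 → SF Q175a.tab 16 e κ (39 / 10) →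
      Corner Q175a.tab 16 e κ (1 / 8) (1 / 20))
    (far : FarX e κ (e / (4 + e * Real.sinh κ))) : Nonempty (RDataF e κ) := by
  rcases le_total (e * κ / 2) (1 / 4) with b0 | b0
  · rcases le_total e 175 with a0 | a0
    · exact Q150a.piece h1 a0 hκ b0 (c0 a0 b0) far
    · exact Q175a.piece a0 h2 hκ b0 (c1 a0 b0) far
  rcases le_total (e * κ / 2) (1 / 2) with b1 | b1
  · exact Q150b.piece h1 h2 hκ b0 b1 far
  rcases le_total (e * κ / 2) (1) with b2 | b2
  · exact Q150c.piece h1 h2 hκ b1 b2 far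
  rcases le_total (e * κ / 2) (2) with b3 | b3
  · exact Q150d.piece h1 h2 hκ b2 b3 far
  rcases le_total (e * κ / 2) (4) with b4 | b4
  · exact Q150e.piece h1 h2 hκ b3 b4 far
  rcases le_total (e * κ / 2) (6) with b5 | b5
  · exact Q150f.piece h1 h2 hκ b4 b5 far
  rcases le_total (e * κ / 2) (59 / 8) with b6 | b6
  · exact Q150g.piece h1 h2 hκ b5 b6 far
  · exact Q150h.piece h1 h2 hκ b6 hd far

end Pool.Agent.helper14.NS
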