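import Pool.Agent.helper14.NS.BaseP
import Pool.Agent.helper71.FJ.FarQ

/-!
# The far field of the pieces, `100 ≤ e`
-/

namespace Pool.Agent.helper14.NS

open Pool.Agent.helper31.EQ.R
open Pool.Agent.helper12.RS
open Pool.Agent.helper63.NF hiding TD
open Pool.Agent.helper4.NS
open Pool.Agent.helper71.FJ

theorem farXQ {e κ : ℝ} (h100 : 100 ≤ e) (hκ : 0 < κ)
    (hd : 2 * (Real.cosh κ - 1) / Real.cosh (e * κ / 2) ^ (2 / e) < 4 ^ (1 / e) - 1) :
    FarX e κ (e / (4 + e * Real.sinh κ)) := fun _ hx =>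
  ⟨farQx h100 hκ hd hx, farQx_X h100 hκ hd hx, farQx_Ω h100 hκ hd hx⟩

end Pool.Agent.helper14.NS
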