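import Pool.Agent.helper14.NS.Cov20
import Pool.Agent.helper14.NS.Cov30
import Pool.Agent.helper14.NS.Cov45
import Pool.Agent.helper14.NS.Cov68
import Pool.Agent.helper14.NS.Cov100
import Pool.Agent.helper14.NS.Cov150
import Pool.Agent.helper12.K20.All
import Pool.Agent.helper12.K30.All
import Pool.Agent.helper12.K45.All
import Pool.Agent.helper12.K68.All
import Pool.Agent.helper12.K100.All
import Pool.Agent.helper12.K122.All
import Pool.Agent.helper12.K150.All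
import Pool.Agent.helper12.K175.All
import Pool.Agent.helper14.NS.FarS50
import Pool.Agent.helper14.NS.FarS100
import Pool.Agent.helper14.NS.FarSQ

/-!
# The record for `20 ≤ e ≤ 200`
-/

namespace Pool.Agent.helper14.NS

open Pool.Agent.helper31.EQ Pool.Agent.helper31.EQ.R
open Pool.Agent.helper12.RS
open Pool.Agent.helper63.NF hiding TD
open Pool.Agent.helper4.NS
open Pool.Agent.helper71.FG (Ag)

variable {e κ : ℝ}

theorem rd_20 (h1 : (20 : ℝ) ≤ e) (h2 : e ≤ 30) (hκ : 0 < κ)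
    (hd : 2 * (Real.cosh κ - 1) / Real.cosh (e * κ / 2) ^ (2 / e) < 4 ^ (1 / e) - 1) :
    Nonempty (RDataF e κ) :=
  near_20 h1 h2 hκ hd
    (fun hb hS => Pool.Agent.helper12.K20.corner h1 h2 hκ hb hS)
    (farX50 (by linarith) (by linarith) hκ hd)

theorem rd_30 (h1 : (30 : ℝ) ≤ e) (h2 : e ≤ 45) (hκ : 0 < κ)
    (hd : 2 * (Real.cosh κ - 1) / Real.cosh (e * κ / 2) ^ (2 / e) < 4 ^ (1 / e) - 1) :
    Nonempty (RDataF e κ) :=
  near_30 h1 h2 hκ hd
    (fun hb hS => Pool.Agent.helper12.K30.corner h1 h2 hκ hb hS)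
    (farX50 (by linarith) (by linarith) hκ hd)

theorem rd_45 (h1 : (45 : ℝ) ≤ e) (h2 : e ≤ 68) (hκ : 0 < κ)
    (hd : 2 * (Real.cosh κ - 1) / Real.cosh (e * κ / 2) ^ (2 / e) < 4 ^ (1 / e) - 1) :
    Nonempty (RDataF e κ) :=
  near_45 h1 h2 hκ hd
    (fun hb hS => Pool.Agent.helper12.K45.corner h1 h2 hκ hb hS)
    (by
      rcases le_total e 50 with h | h
      · exact farX50 (by linarith) h hκ hd
      · exact farX100 h (by linarith) hκ hd)

theorem rd_68 (h1 : (68 : ℝ) ≤ e) (h2 : e ≤ 100) (hκ : 0 < κ)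
    (hd : 2 * (Real.cosh κ - 1) / Real.cosh (e * κ / 2) ^ (2 / e) < 4 ^ (1 / e) - 1) :
    Nonempty (RDataF e κ) :=
  near_68 h1 h2 hκ hd
    (fun hb hS => Pool.Agent.helper12.K68.corner h1 h2 hκ hb hS)
    (farX100 (by linarith) (by linarith) hκ hd)

theorem rd_100 (h1 : (100 : ℝ) ≤ e) (h2 : e ≤ 150) (hκ : 0 < κ)
    (hd : 2 * (Real.cosh κ - 1) / Real.cosh (e * κ / 2) ^ (2 / e) < 4 ^ (1 / e) - 1) :
    Nonempty (RDataF e κ) :=
  near_100 h1 h2 hκ hd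
    (fun g2 hb hS => Pool.Agent.helper12.K100.corner h1 g2 hκ hb hS)
    (fun g1 hb hS => Pool.Agent.helper12.K122.corner g1 h2 hκ hb hS)
    (farXQ (by linarith) hκ hd)

theorem rd_150 (h1 : (150 : ℝ) ≤ e) (h2 : e ≤ 200) (hκ : 0 < κ)
    (hd : 2 * (Real.cosh κ - 1) / Real.cosh (e * κ / 2) ^ (2 / e) < 4 ^ (1 / e) - 1) :
    Nonempty (RDataF e κ) :=
  near_150 h1 h2 hκ hd
    (fun g2 hb hS => Pool.Agent.helper12.K150.corner h1 g2 hκ hb hS)
    (fun g1 hb hS => Pool.Agent.helper12.K175.corner g1 h2 hκ hb hS)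
    (farXQ (by linarith) hκ hd)

/-- **The record, `20 ≤ e ≤ 200`.** -/
theorem rdataS (h1 : 20 ≤ e) (h2 : e ≤ 200) (hκ : 0 < κ)
    (hd : 2 * (Real.cosh κ - 1) / Real.cosh (e * κ / 2) ^ (2 / e) < 4 ^ (1 / e) - 1) :
    Nonempty (RDataF e κ) := by
  rcases le_total e 30 with a0 | a0
  · exact rd_20 h1 a0 hκ hd
  rcases le_total e 45 with a1 | a1
  · exact rd_30 a0 a1 hκ hd
  rcases le_total e 68 with a2 | a2
  · exact rd_45 a1 a2 hκ hd
  rcases le_total e 100 with a3 | a3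
  · exact rd_68 a2 a3 hκ hd
  rcases le_total e 150 with a4 | a4
  · exact rd_100 a3 a4 hκ hd
  · exact rd_150 a4 h2 hκ hd

/-- **Traps, `20 ≤ e ≤ 200`.** -/
theorem trapS (h1 : 20 ≤ e) (h2 : e ≤ 200) (hκ : 0 < κ)
    (hd : 2 * (Real.cosh κ - 1) / Real.cosh (e * κ / 2) ^ (2 / e) < 4 ^ (1 / e) - 1) :
    Nonempty (SeqTrap e (Real.exp κ)) := by
  obtain ⟨W⟩ := rdataS h1 h2 hκ hd
  exact W.nonempty_seqTrap (by linarith) hκ

end Pool.Agent.helper14.NS
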