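import Mathlib
import Pool.Agent.helper67.ND.Defs
import Pool.Agent.helper14.ND_E1

/-! Roots of Bernstein polynomials from functionals. -/

namespace Pool.Agent.helper14.NS

open MvPolynomial
open Pool.Agent.helper67.ND Pool.Agent.helper14.CND

/-- The functional equation to all finite orders, as a formal identity over a ring. -/
def TruncB {k : Type} [CommRing k] {n : ℕ} (f : MvPolynomial (Fin n) k) (b : Polynomial k) :
    Prop :=
  ∃ (T : Finset (List (Fin n) × ℕ)) (L : ℕ), (∀ t ∈ T, t.1.length ≤ L) ∧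
    ∀ D : ℕ, ∃ A : List (Fin n) × ℕ → MvPolynomial (Fin n) k,
      ∀ m : Fin n →₀ ℕ, m.degree < D →
        coeff m (∑ t ∈ T, MvPolynomial.map Polynomial.C (A t) * C (Polynomial.X ^ t.2) *
          Nw (MvPolynomial.map Polynomial.C f) Polynomial.X t.1 *
          (MvPolynomial.map Polynomial.C f) ^ (L - t.1.length) -
          C b * (MvPolynomial.map Polynomial.C f) ^ L) = 0

lemma phi_Nw {H : Type} [CommRing H] {n : ℕ} (F : MvPolynomial (Fin n) H) (s : H)
    (Φ : ℕ → MvPolynomial (Fin n) H →ₗ[H] H)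
    (M0 : ∀ g, Φ 0 (F * g) = 0) (M1 : ∀ m g, Φ (m + 1) (F * g) = Φ m g)
    (M2 : ∀ m i g, Φ (m + 1) (F * pderiv i g + C (s - (m : H)) * (g * pderiv i F)) = 0)
    (w : List (Fin n)) : ∀ q, Φ w.length (q * Nw F s w) = 0 := by
  induction w with
  | nil => intro q; rw [Nw_nil, mul_comm]; exact M0 q
  | cons i w ih =>
    intro q
    have h1 := M2 w.length i (q * Nw F s w)
    have h2 := M1 w.length (pderiv i q * Nw F s w)
    rw [ih] at h2
    have h3 : q * Nw F s (i :: w) = (F * pderiv i (q * Nw F s w) +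
        C (s - (w.length : H)) * ((q * Nw F s w) * pderiv i F)) -
        F * (pderiv i q * Nw F s w) := by
      rw [Nw_cons, (pderiv i).leibniz]
      simp only [smul_eq_mul]
      ring
    rw [h3, List.length_cons, map_sub, h1, h2, sub_zero]

lemma phi_pow {H : Type} [CommRing H] {n : ℕ} (F : MvPolynomial (Fin n) H)
    (Φ : ℕ → MvPolynomial (Fin n) H →ₗ[H] H)
    (M1 : ∀ m g, Φ (m + 1) (F * g) = Φ m g) (r m : ℕ) (g : MvPolynomial (Fin n) H) :
    Φ (m + r) (g * F ^ r) = Φ m g := by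
  induction r with
  | zero => simp
  | succ r ih => rw [← add_assoc, pow_succ', ← mul_assoc, mul_comm g, mul_assoc, M1, ih]

lemma phi_low {H : Type} [CommRing H] {n : ℕ} (Φ : MvPolynomial (Fin n) H →ₗ[H] H) (D : ℕ)
    (hD : ∀ e : Fin n →₀ ℕ, D ≤ e.degree → Φ (monomial e 1) = 0) (P : MvPolynomial (Fin n) H)
    (hP : ∀ m : Fin n →₀ ℕ, m.degree < D → coeff m P = 0) : Φ P = 0 := by
  classical
  rw [P.as_sum, map_sum]
  refine Finset.sum_eq_zero fun m _ => ?_
  by_cases hm : m.degree < D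
  · rw [hP m hm]; simp
  · have h1 : monomial m (coeff m P) = (coeff m P) • monomial m (1 : H) := by
      rw [smul_monomial, smul_eq_mul, mul_one]
    rw [h1, map_smul, hD m (by omega), smul_zero]

theorem root_of_functional {k H : Type} [Field k] [CommRing H] (σ : k →+* H) {n : ℕ}
    (f : MvPolynomial (Fin n) k) (b : Polynomial k) (hb : TruncB f b) (a : k) (κ : H)
    (hκ : IsNilpotent κ) (Φ : ℕ → MvPolynomial (Fin n) H →ₗ[H] H)
    (M0 : ∀ g, Φ 0 (MvPolynomial.map σ f * g) = 0)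
    (M1 : ∀ m g, Φ (m + 1) (MvPolynomial.map σ f * g) = Φ m g)
    (M2 : ∀ m i g, Φ (m + 1) (MvPolynomial.map σ f * pderiv i g +
      C (-σ a - κ - (m : H)) * (g * pderiv i (MvPolynomial.map σ f))) = 0)
    (M3 : ∀ m, ∃ D, ∀ e : Fin n →₀ ℕ, D ≤ e.degree → Φ m (monomial e 1) = 0)
    (M4 : Φ 0 1 ≠ 0) : b.eval (-a) = 0 := by
  classical
  obtain ⟨T, L, hL, hT⟩ := hb
  obtain ⟨D, hD⟩ := M3 L
  obtain ⟨A, hA⟩ := hT D
  set F := MvPolynomial.map σ f with hF
  set s : H := -σ a - κ with hs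
  -- specialise
  set ev : Polynomial k →+* H := Polynomial.eval₂RingHom σ s with hev
  have hcomp : ∀ P : MvPolynomial (Fin n) k,
      MvPolynomial.map ev (MvPolynomial.map Polynomial.C P) = MvPolynomial.map σ P := by
    intro P
    have h0 : ev.comp Polynomial.C = σ := by
      ext x; simp [hev]
    rw [MvPolynomial.map_map, h0]
  have h1 : ∀ m : Fin n →₀ ℕ, m.degree < D → coeff m
      (∑ t ∈ T, MvPolynomial.map σ (A t) * C (s ^ t.2) * Nw F s t.1 * F ^ (L - t.1.length) -
        C (b.eval₂ σ s) * F ^ L) = 0 := by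
    intro m hm
    have h2 := congrArg ev (hA m hm)
    rw [← coeff_map] at h2
    simp only [map_sub, map_sum, map_mul, map_pow, map_Nw, hcomp, map_C, map_zero] at h2
    simpa [hev] using h2
  have h2 := phi_low (Φ L) D hD _ h1
  rw [map_sub, map_sum, Finset.sum_eq_zero, zero_sub, neg_eq_zero] at h2
  · have h3 : Φ L (C (b.eval₂ σ s) * F ^ L) = b.eval₂ σ s * Φ 0 1 := by
      have h4 : C (b.eval₂ σ s) * F ^ L = (b.eval₂ σ s) • (1 * F ^ L) := by
        rw [one_mul, smul_eq_C_mul]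
      rw [h4, map_smul, smul_eq_mul]
      have h5 := phi_pow F Φ M1 L 0 1
      rw [zero_add] at h5
      rw [h5]
    rw [h3] at h2
    by_contra hne
    -- `b (s)` is a unit
    have h6 : ∃ r : H, b.eval₂ σ s = σ (b.eval (-a)) + κ * r := by
      have h7 : s - σ (-a) ∣ (b.map σ).eval s - (b.map σ).eval (σ (-a)) :=
        Polynomial.sub_dvd_eval_sub _ _ _
      obtain ⟨r, hr⟩ := h7
      refine ⟨-r, ?_⟩
      rw [Polynomial.eval_map, Polynomial.eval_map, Polynomial.eval₂_at_apply] at hr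
      have h8 : s - σ (-a) = -κ := by rw [hs, map_neg]; ring
      rw [h8] at hr
      linear_combination hr
    obtain ⟨r, hr⟩ := h6
    have hu : IsUnit (b.eval₂ σ s) := by
      rw [hr]
      have hn : IsNilpotent (κ * r) := (Commute.all κ r).isNilpotent_mul_right hκ
      have hu' : IsUnit (σ (b.eval (-a))) := (IsUnit.mk0 _ hne).map σ
      exact hn.isUnit_add_left_of_commute hu' (Commute.all _ _)
    exact M4 ((hu.mul_right_eq_zero).1 h2)
  · intro t ht
    have h9 := phi_pow F Φ M1 (L - t.1.length) t.1.length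
      (MvPolynomial.map σ (A t) * C (s ^ t.2) * Nw F s t.1)
    rw [Nat.add_sub_cancel' (hL t ht)] at h9
    rw [h9]
    exact phi_Nw F s Φ M0 M1 M2 t.1 _

end Pool.Agent.helper14.NS
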