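import Mathlib
import Pool.Agent.helper67.ND.Defs
import Pool.Agent.helper14.ND_E1
import Pool.Agent.helper14.NS.Root

/-! From the holomorphic functional equation to the formal one. -/

namespace Pool.Agent.helper14.NS

open MvPolynomial Filter Topology Asymptotics
open Pool.Agent.helper67.ND Pool.Agent.helper14.CND

lemma poly_bigO (q : Polynomial ℂ) (D : ℕ)
    (h : (fun l : ℂ => q.eval l) =O[𝓝 0] fun l => l ^ D) : ∀ j < D, q.coeff j = 0 := by
  classical
  by_cases hq : q = 0
  · intro j _; simp [hq]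
  · set k := q.natTrailingDegree with hk
    have hD : D ≤ k := by
      by_contra hlt
      push Not at hlt
      -- q = X ^ k * q1
      obtain ⟨q1, hq1⟩ : Polynomial.X ^ k ∣ q := by
        rw [Polynomial.X_pow_dvd_iff]
        intro d hd
        exact Polynomial.coeff_eq_zero_of_lt_natTrailingDegree hd
      have h1 : q1.coeff 0 ≠ 0 := by
        have h2 : q.coeff k ≠ 0 := by
          exact Polynomial.trailingCoeff_nonzero_iff_nonzero.2 hq
        rw [hq1] at h2
        have h3 := Polynomial.coeff_X_pow_mul q1 k 0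
        rw [zero_add] at h3
        rwa [h3] at h2
      have h4 : (fun l : ℂ => q1.eval l) =O[𝓝[≠] 0] fun l => l ^ (D - k) := by
        obtain ⟨c, hc⟩ := h.bound
        refine IsBigO.of_bound c ?_
        have h5 : ∀ᶠ l in 𝓝[≠] (0 : ℂ), ‖q.eval l‖ ≤ c * ‖l ^ D‖ :=
          hc.filter_mono nhdsWithin_le_nhds
        filter_upwards [h5, self_mem_nhdsWithin] with l hl hl0
        have hl0' : l ≠ 0 := hl0
        rw [hq1] at hl
        simp only [Polynomial.eval_mul, Polynomial.eval_pow, Polynomial.eval_X, norm_mul,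
          norm_pow] at hl ⊢
        have hp : 0 < ‖l‖ ^ k := pow_pos (norm_pos_iff.2 hl0') k
        have h6 : ‖l‖ ^ D = ‖l‖ ^ k * ‖l‖ ^ (D - k) := by
          rw [← pow_add]; congr 1; omega
        rw [h6] at hl
        have h7 : ‖l‖ ^ k * ‖Polynomial.eval l q1‖ ≤ ‖l‖ ^ k * (c * ‖l‖ ^ (D - k)) := by
          linarith
        exact le_of_mul_le_mul_left h7 hp
      have h8 : Tendsto (fun l : ℂ => l ^ (D - k)) (𝓝[≠] 0) (𝓝 0) := by
        have : ContinuousAt (fun l : ℂ => l ^ (D - k)) 0 := by fun_prop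
        have h9 := this.tendsto
        simp only [zero_pow (by omega : D - k ≠ 0)] at h9
        exact h9.mono_left nhdsWithin_le_nhds
      have h10 := h4.trans_tendsto h8
      have h11 : Tendsto (fun l : ℂ => q1.eval l) (𝓝[≠] 0) (𝓝 (q1.eval 0)) := by
        have : ContinuousAt (fun l : ℂ => q1.eval l) 0 := q1.continuous.continuousAt
        exact this.tendsto.mono_left nhdsWithin_le_nhds
      have h12 := tendsto_nhds_unique h10 h11
      rw [← Polynomial.coeff_zero_eq_eval_zero] at h12
      exact h1 h12.symm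
    intro j hj
    exact Polynomial.coeff_eq_zero_of_lt_natTrailingDegree (by omega)

/-- a polynomial which is `O(|z|^D)` has no terms of degree `< D` -/
lemma mvpoly_bigO {n : ℕ} (P : MvPolynomial (Fin n) ℂ) (D : ℕ)
    (h : (fun z : Fin n → ℂ => eval z P) =O[𝓝 0] fun z => ‖z‖ ^ D) :
    ∀ m : Fin n →₀ ℕ, m.degree < D → coeff m P = 0 := by
  classical
  -- homogeneous components vanish
  have h1 : ∀ j < D, homogeneousComponent j P = 0 := by
    intro j hj
    refine MvPolynomial.funext fun z => ?_
    rw [map_zero]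
    set J := P.totalDegree + 1 with hJ
    set q : Polynomial ℂ := ∑ i ∈ Finset.range J,
      Polynomial.C (eval z (homogeneousComponent i P)) * Polynomial.X ^ i with hq
    have hqe : ∀ l : ℂ, q.eval l = eval (l • z) P := by
      intro l
      conv_rhs => rw [← sum_homogeneousComponent P]
      rw [hq, Polynomial.eval_finsetSum, map_sum]
      refine Finset.sum_congr rfl fun i _ => ?_
      rw [eval_smul_homog (homogeneousComponent_isHomogeneous i P), Polynomial.eval_mul,
        Polynomial.eval_C, Polynomial.eval_pow, Polynomial.eval_X, mul_comm]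
    have hline : Tendsto (fun l : ℂ => l • z) (𝓝 0) (𝓝 (0 : Fin n → ℂ)) := by
      have : ContinuousAt (fun l : ℂ => l • z) 0 := by fun_prop
      simpa [ContinuousAt] using this
    have h2 : (fun l : ℂ => q.eval l) =O[𝓝 0] fun l => l ^ D := by
      have h3 := h.comp_tendsto hline
      have h4 : (fun l : ℂ => q.eval l) =O[𝓝 0] fun l : ℂ => ‖l • z‖ ^ D := by
        refine h3.congr_left fun l => ?_
        simp [hqe]
      refine h4.trans ?_
      refine IsBigO.of_bound (‖z‖ ^ D) (Eventually.of_forall fun l => ?_)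
      rw [norm_smul, mul_pow]
      simp only [norm_mul, norm_pow, norm_norm]
      rw [mul_comm]
    have h5 := poly_bigO q D h2 j hj
    by_cases hjJ : j < J
    · rw [hq, Polynomial.finsetSum_coeff, Finset.sum_eq_single j] at h5
      · simpa using h5
      · intro i _ hij
        rw [Polynomial.coeff_C_mul_X_pow, if_neg (Ne.symm hij)]
      · intro hj'; exact absurd (Finset.mem_range.2 hjJ) hj'
    · rw [homogeneousComponent_eq_zero _ _ (by omega)]; simp
  intro m hm
  have h2 := congrArg (coeff m) (h1 m.degree hm)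
  rw [coeff_homogeneousComponent, if_pos rfl] at h2
  simpa using h2

lemma trunc_complex {n : ℕ} (f : MvPolynomial (Fin n) ℂ) (b : Polynomial ℂ)
    (h : IsBernstein (fun z => eval z f) b) :
    ∃ (T : Finset (List (Fin n) × ℕ)) (L : ℕ), (∀ t ∈ T, t.1.length ≤ L) ∧
    ∀ D : ℕ, ∃ A : List (Fin n) × ℕ → MvPolynomial (Fin n) ℂ,
      ∀ s : ℂ, ∀ m : Fin n →₀ ℕ, m.degree < D →
        coeff m (∑ t ∈ T, A t * C (s ^ t.2) * Nw f s t.1 * f ^ (L - t.1.length) -
          C (b.eval s) * f ^ L) = 0 := by
  classical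
  obtain ⟨T, a, ha, hev⟩ := h
  have ha' : ∀ t : List (Fin n) × ℕ, ∃ p : FormalMultilinearSeries ℂ (Fin n → ℂ) ℂ,
      t ∈ T → HasFPowerSeriesAt (a t) p 0 := by
    intro t
    by_cases ht : t ∈ T
    · obtain ⟨p, hp⟩ := ha t ht
      exact ⟨p, fun _ => hp⟩
    · exact ⟨0, fun h => absurd h ht⟩
  choose p hp using ha'
  set L : ℕ := T.sup (fun t => t.1.length) + 1 with hL
  have hlen : ∀ t ∈ T, t.1.length + 1 ≤ L := fun t ht =>
    Nat.succ_le_succ (Finset.le_sup (f := fun t : List (Fin n) × ℕ => t.1.length) ht)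
  refine ⟨T, L, fun t ht => (Nat.le_succ _).trans (hlen t ht), fun D => ?_⟩
  refine ⟨fun t => ∑ i ∈ Finset.range D, homPart (p t i), fun s => mvpoly_bigO _ D ?_⟩
  -- the functional equation near `0`
  have h1 : ∀ᶠ z in 𝓝 (0 : Fin n → ℂ),
      ∑ t ∈ T, a t z * (s ^ t.2 * eval z (Nw f s t.1) * eval z f ^ (L - t.1.length)) -
        b.eval s * eval z f ^ L = 0 := by
    filter_upwards [hev] with z hz
    by_cases hfz : eval z f = 0
    · rw [hfz, zero_pow (by omega), mul_zero, sub_zero]
      refine Finset.sum_eq_zero fun t ht => ?_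
      rw [zero_pow (by have := hlen t ht; omega)]; ring
    · rw [← hz hfz s, Finset.sum_mul, ← Finset.sum_sub_distrib]
      refine Finset.sum_eq_zero fun t ht => ?_
      rw [foldr_nabla_eq f s t.1 z hfz]
      have e1 : eval z f ^ L = eval z f ^ (L - t.1.length) * eval z f ^ t.1.length := by
        rw [← pow_add]; congr 1; have := hlen t ht; omega
      rw [e1]
      have hz' : eval z f ^ t.1.length ≠ 0 := pow_ne_zero _ hfz
      field_simp
      ring
  have h2 : ∀ t ∈ T, (fun z : Fin n → ℂ => a t z - eval z (∑ i ∈ Finset.range D,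
      homPart (p t i))) =O[𝓝 0] fun z => ‖z‖ ^ D := by
    intro t ht
    have h3 := (hp t ht).isBigO_sub_partialSum_pow D
    refine h3.congr_left fun z => ?_
    rw [zero_add, map_sum, FormalMultilinearSeries.partialSum]
    congr 1
    exact Finset.sum_congr rfl fun i _ => (eval_homPart _ _).symm
  have h3 : (fun z : Fin n → ℂ => ∑ t ∈ T, -((a t z - eval z (∑ i ∈ Finset.range D,
      homPart (p t i))) * (s ^ t.2 * eval z (Nw f s t.1) * eval z f ^ (L - t.1.length))))
      =O[𝓝 0] fun z => ‖z‖ ^ D := by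
    refine IsBigO.fun_sum fun t ht => ?_
    rw [isBigO_neg_left]
    have hc : (fun z : Fin n → ℂ => s ^ t.2 * eval z (Nw f s t.1) *
        eval z f ^ (L - t.1.length)) =O[𝓝 0] fun _ => (1 : ℝ) := by
      have hcont : ContinuousAt (fun z : Fin n → ℂ => s ^ t.2 * eval z (Nw f s t.1) *
        eval z f ^ (L - t.1.length)) 0 := by
        have c1 := (differentiableAt_eval (Nw f s t.1) 0).continuousAt
        have c2 := (differentiableAt_eval f 0).continuousAt
        exact (continuousAt_const.mul c1).mul (c2.pow _)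
      exact hcont.tendsto.isBigO_one ℝ
    have h4 := (h2 t ht).mul hc
    simpa using h4
  refine h3.congr' ?_ EventuallyEq.rfl
  filter_upwards [h1] with z hz
  rw [map_sub, map_sum, map_mul, map_pow, eval_C]
  have h5 : ∑ t ∈ T, eval z ((∑ i ∈ Finset.range D, homPart (p t i)) * C (s ^ t.2) *
      Nw f s t.1 * f ^ (L - t.1.length)) =
      ∑ t ∈ T, eval z (∑ i ∈ Finset.range D, homPart (p t i)) *
        (s ^ t.2 * eval z (Nw f s t.1) * eval z f ^ (L - t.1.length)) := by
    refine Finset.sum_congr rfl fun t _ => ?_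
    simp only [map_mul, map_pow, eval_C]
    ring
  rw [h5, ← sub_eq_zero]
  have h6 : ∑ t ∈ T, -((a t z - eval z (∑ i ∈ Finset.range D, homPart (p t i))) *
      (s ^ t.2 * eval z (Nw f s t.1) * eval z f ^ (L - t.1.length))) =
      ∑ t ∈ T, eval z (∑ i ∈ Finset.range D, homPart (p t i)) *
        (s ^ t.2 * eval z (Nw f s t.1) * eval z f ^ (L - t.1.length)) -
      ∑ t ∈ T, a t z * (s ^ t.2 * eval z (Nw f s t.1) * eval z f ^ (L - t.1.length)) := by
    rw [← Finset.sum_sub_distrib]
    exact Finset.sum_congr rfl fun t _ => by ring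
  rw [h6]
  linear_combination hz * (-1 : ℂ)

theorem truncB_of_isBernstein {n : ℕ} (f : MvPolynomial (Fin n) ℂ) (b : Polynomial ℂ)
    (h : IsBernstein (fun z => eval z f) b) : TruncB f b := by
  classical
  obtain ⟨T, L, h1, h2⟩ := trunc_complex f b h
  refine ⟨T, L, h1, fun D => ?_⟩
  obtain ⟨A, hA⟩ := h2 D
  refine ⟨A, fun m hm => ?_⟩
  refine Polynomial.funext fun s => ?_
  have h5 := hA s m hm
  have hcomp : ∀ P : MvPolynomial (Fin n) ℂ,
      MvPolynomial.map (Polynomial.evalRingHom s) (MvPolynomial.map Polynomial.C P) = P := by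
    intro P
    rw [MvPolynomial.map_map]
    have : (Polynomial.evalRingHom s).comp Polynomial.C = RingHom.id ℂ := by
      ext x; simp
    rw [this, MvPolynomial.map_id]
  have h6 : ∀ P : MvPolynomial (Fin n) (Polynomial ℂ), Polynomial.eval s (coeff m P) =
      coeff m (MvPolynomial.map (Polynomial.evalRingHom s) P) := by
    intro P; rw [coeff_map]; rfl
  rw [h6]
  simp only [map_sub, map_sum, map_mul, map_pow, map_Nw, hcomp, map_C,
    Polynomial.coe_evalRingHom, Polynomial.eval_X, Polynomial.eval_zero]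
  simpa only [map_pow] using h5

end Pool.Agent.helper14.NS
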