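import Mathlib
import Pool.Agent.helper14.NS.Root

/-! The functional attached to a solution of the difference equations. -/

namespace Pool.Agent.helper14.NS

open MvPolynomial
open Pool.Agent.helper67.ND

section

variable {R : Type} [CommRing R] {n : ℕ}

/-- the linear functional with prescribed values on monomials -/
noncomputable def fnl (v : R) (W : (Fin n → ℤ) → R) : MvPolynomial (Fin n) R →ₗ[R] R :=
  (basisMonomials (Fin n) R).constr R (fun e => v * W (fun j => (e j : ℤ)))

lemma fnl_monomial (v : R) (W : (Fin n → ℤ) → R) (e : Fin n →₀ ℕ) (r : R) :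
    fnl v W (monomial e r) = r * (v * W (fun j => (e j : ℤ))) := by
  have h1 : monomial e r = r • (basisMonomials (Fin n) R) e := by
    rw [coe_basisMonomials, smul_monomial, smul_eq_mul, mul_one]
  rw [h1, map_smul, fnl, Module.Basis.constr_basis, smul_eq_mul]

theorem root_of_W {k : Type} [Field k] [CharZero k] (σ : k →+* R)
    (f : MvPolynomial (Fin n) k) (b : Polynomial k) (hb : TruncB f b) (a : ℚ) (ha : 0 < a)
    (κ : R) (hκ : IsNilpotent κ) {ι : Type} [Fintype ι] (V : ι → Fin n →₀ ℕ) (c : ι → R)
    (hf : MvPolynomial.map σ f = ∑ i, monomial (V i) (c i))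
    (W : (Fin n → ℤ) → ℤ → R)
    (K1 : ∀ y m, ∑ i, c i * W (fun j => y j + (V i j : ℤ)) (m + 1) =
      (σ (a : k) + (m : R) + κ) * W y m)
    (K2 : ∀ y m j, ∑ i, (V i j : R) * c i * W (fun j => y j + (V i j : ℤ)) (m + 1) =
      (1 + (y j : R)) * W y m)
    (hV : ∀ e : Fin n →₀ ℕ, W (fun j => (e j : ℤ)) (-1) = 0)
    (hD : ∀ m : ℕ, ∃ D, ∀ e : Fin n →₀ ℕ, D ≤ e.degree → W (fun j => (e j : ℤ)) m = 0)
    (hN : W (fun _ => 0) 0 ≠ 0) : b.eval (-(a : k)) = 0 := by
  classical
  have hunit : ∀ m : ℕ, IsUnit (σ (a : k) + (m : R) + κ) := by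
    intro m
    have h1 : (a : k) + (m : k) ≠ 0 := by
      have h2 : (0 : ℚ) < a + m := by positivity
      have h3 : (((a + m : ℚ)) : k) ≠ 0 := by exact_mod_cast h2.ne'
      simpa using h3
    have h4 : IsUnit (σ ((a : k) + (m : k))) := (IsUnit.mk0 _ h1).map σ
    have h5 : σ (a : k) + (m : R) = σ ((a : k) + (m : k)) := by simp
    rw [h5]
    exact hκ.isUnit_add_left_of_commute h4 (Commute.all _ _)
  set v : ℕ → R := fun m => ∏ i ∈ Finset.range m, (((hunit i).unit⁻¹ : Rˣ) : R) with hv
  have hv1 : ∀ m, v (m + 1) * (σ (a : k) + (m : R) + κ) = v m := by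
    intro m
    simp only [hv, Finset.prod_range_succ, mul_assoc]
    rw [IsUnit.val_inv_mul (hunit m), mul_one]
  have hv0 : v 0 = 1 := by simp [hv]
  set F := MvPolynomial.map σ f with hF
  set Φ : ℕ → MvPolynomial (Fin n) R →ₗ[R] R := fun m => fnl (v m) (fun y => W y m) with hΦ
  have hΦm : ∀ m (e : Fin n →₀ ℕ) (r : R), Φ m (monomial e r) =
      r * (v m * W (fun j => (e j : ℤ)) m) := fun m e r => fnl_monomial _ _ _ _
  -- multiplication by `F`
  have hFm : ∀ (m : ℕ) (e : Fin n →₀ ℕ) (r : R), Φ m (F * monomial e r) =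
      r * (v m * ((σ (a : k) + ((m : R) - 1) + κ) * W (fun j => (e j : ℤ)) ((m : ℤ) - 1))) := by
    intro m e r
    rw [hf, Finset.sum_mul, map_sum]
    have h1 := K1 (fun j => (e j : ℤ)) ((m : ℤ) - 1)
    have h2 : (m : ℤ) - 1 + 1 = m := by ring
    rw [h2] at h1
    push_cast at h1
    rw [← h1, Finset.mul_sum, Finset.mul_sum]
    refine Finset.sum_congr rfl fun i _ => ?_
    rw [monomial_mul, hΦm]
    have h3 : (fun j => (((V i + e) j : ℕ) : ℤ)) = fun j => (e j : ℤ) + (V i j : ℤ) := by
      funext j; simp [add_comm]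
    rw [h3]; ring
  have M0 : ∀ g, Φ 0 (F * g) = 0 := by
    intro g
    induction g using MvPolynomial.induction_on' with
    | monomial e r =>
      rw [hFm]
      have := hV e
      simp only [Nat.cast_zero, zero_sub, this, mul_zero]
    | add p q hp hq => rw [mul_add, map_add, hp, hq, add_zero]
  have M1 : ∀ m g, Φ (m + 1) (F * g) = Φ m g := by
    intro m g
    induction g using MvPolynomial.induction_on' with
    | monomial e r =>
      rw [hFm, hΦm]
      have h1 : ((m + 1 : ℕ) : ℤ) - 1 = m := by push_cast; ring
      rw [h1, ← hv1 m]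
      push_cast
      ring
    | add p q hp hq => rw [mul_add, map_add, map_add, hp, hq]
  refine root_of_functional σ f b hb (a : k) κ hκ Φ M0 M1 ?_ ?_ ?_
  · -- Stokes
    intro m i g
    induction g using MvPolynomial.induction_on' with
    | add p q hp hq =>
      have : F * pderiv i (p + q) + C (-σ (a : k) - κ - (m : R)) * ((p + q) * pderiv i F) =
          (F * pderiv i p + C (-σ (a : k) - κ - (m : R)) * (p * pderiv i F)) +
          (F * pderiv i q + C (-σ (a : k) - κ - (m : R)) * (q * pderiv i F)) := by
        rw [map_add]; ring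
      rw [this, map_add, hp, hq, add_zero]
    | monomial e r =>
      set y : Fin n → ℤ := fun j => (e j : ℤ) - (if j = i then 1 else 0) with hy
      have hyi : (1 : R) + (y i : R) = (e i : R) := by simp [hy]
      -- first term
      have h1 : Φ (m + 1) (F * pderiv i (monomial e r)) =
          r * (v (m + 1) * ((e i : R) * ((σ (a : k) + (m : R) + κ) * W y m))) := by
        rw [pderiv_monomial, hFm]
        have hm : ((m + 1 : ℕ) : ℤ) - 1 = m := by push_cast; ring
        rw [hm]
        by_cases hei : e i = 0
        · simp [hei]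
        · have h2 : (fun j => (((e - Finsupp.single i 1 : Fin n →₀ ℕ) j : ℕ) : ℤ)) = y := by
            funext j
            simp only [hy, Finsupp.coe_tsub, Pi.sub_apply]
            by_cases hj : j = i
            · subst hj
              rw [Finsupp.single_eq_same, if_pos rfl]
              omega
            · rw [Finsupp.single_eq_of_ne (by tauto), if_neg hj]; simp
          rw [h2]
          push_cast
          ring
      have h2 : Φ (m + 1) (monomial e r * pderiv i F) =
          r * (v (m + 1) * ((e i : R) * W y m)) := by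
        have hK := K2 y m i
        rw [hyi] at hK
        rw [← hK, hf, map_sum, Finset.mul_sum, map_sum, Finset.mul_sum, Finset.mul_sum]
        refine Finset.sum_congr rfl fun l _ => ?_
        rw [pderiv_monomial, monomial_mul, hΦm]
        by_cases hli : V l i = 0
        · simp [hli]
        · have h3 : (fun j => (((e + (V l - Finsupp.single i 1) : Fin n →₀ ℕ) j : ℕ) : ℤ)) =
              fun j => y j + (V l j : ℤ) := by
            funext j
            simp only [hy, Finsupp.coe_add, Finsupp.coe_tsub, Pi.add_apply, Pi.sub_apply]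
            by_cases hj : j = i
            · subst hj
              rw [Finsupp.single_eq_same, if_pos rfl]
              omega
            · rw [Finsupp.single_eq_of_ne (by tauto), if_neg hj]; simp
          rw [h3]
          push_cast
          ring
      rw [map_add, h1, ← smul_eq_C_mul, map_smul, h2, smul_eq_mul]
      ring
  · intro m
    obtain ⟨D, hD⟩ := hD m
    refine ⟨D, fun e he => ?_⟩
    rw [hΦm, hD e he]; ring
  · have h1 : (1 : MvPolynomial (Fin n) R) = monomial 0 1 := rfl
    rw [h1, hΦm, hv0, one_mul, one_mul]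
    simpa using hN

end

end Pool.Agent.helper14.NS
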