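import Mathlib

/-! Formal Gamma factors with nilpotent parameters. -/

namespace Pool.Agent.helper14.NS

open Finset

variable {H : Type} [CommRing H]

/-- solutions of a first order recursion on the integers -/
lemma exists_rec (φ : ℤ → H) (hφ : ∀ p < 0, IsUnit (φ p)) :
    ∃ F : ℤ → H, (∀ p, F (p + 1) = φ p * F p) ∧ (∀ p ≤ 0, IsUnit (F p)) ∧
      (∀ k : ℕ, F k = ∏ j ∈ range k, φ j) := by
  classical
  have hu : ∀ j : ℕ, IsUnit (φ (-(j : ℤ) - 1)) := fun j => hφ _ (by omega)
  have hu2 : ∀ (j : ℕ) (p : ℤ), -(j : ℤ) - 1 = p →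
      φ p * (((hu j).unit⁻¹ : Hˣ) : H) = 1 := by
    intro j p hp
    subst hp
    exact (hu j).mul_val_inv
  refine ⟨fun p => if 0 ≤ p then ∏ j ∈ range p.toNat, φ j else
    ∏ j ∈ range (-p).toNat, ((hu j).unit⁻¹ : Hˣ), ?_, ?_, ?_⟩
  · intro p
    by_cases hp : 0 ≤ p
    · have h1 : 0 ≤ p + 1 := by omega
      have h2 : (p + 1).toNat = p.toNat + 1 := by omega
      simp only [hp, h1, if_true, h2, prod_range_succ]
      rw [Int.toNat_of_nonneg hp]; ring
    · by_cases h1 : 0 ≤ p + 1
      · have h2 : p = -1 := by omega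
        subst h2
        have h4 := hu2 0 (-1) (by norm_num)
        simp [h4]
      · have h2 : (-p).toNat = (-(p + 1)).toNat + 1 := by omega
        simp only [hp, h1, if_false, h2, prod_range_succ]
        have h4 := hu2 (-(p + 1)).toNat p (by omega)
        linear_combination (-∏ j ∈ range (-(p + 1)).toNat, (((hu j).unit⁻¹ : Hˣ) : H)) * h4
  · intro p hp
    rcases hp.lt_or_eq with h | h
    · have : ¬ (0 ≤ p) := by omega
      simp only [this, if_false]
      exact IsUnit.prod_iff.2 fun j _ => Units.isUnit _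
    · subst h; simp
  · intro k
    simp

lemma isUnit_add_nil [Algebra ℚ H] {r : ℚ} (hr : r ≠ 0) {z : H} (hz : IsNilpotent z) :
    IsUnit (algebraMap ℚ H r + z) :=
  hz.isUnit_add_left_of_commute ((IsUnit.mk0 r hr).map _) (Commute.all _ _)

/-- the Gamma factor attached to the exponent `β` and the nilpotent element `z` -/
lemma exists_gamma [Algebra ℚ H] (β : ℚ) (z : H) (hz : IsNilpotent z) :
    ∃ G : ℤ → H, (∀ p, G (p + 1) = (algebraMap ℚ H (β + p) + z) * G p) ∧
      (∀ p : ℤ, (¬ ∃ k : ℕ, β + p = k + 1) → IsUnit (G p)) ∧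
      (∀ p : ℤ, (∃ k : ℕ, β + p = k + 1) → ∃ u, IsUnit u ∧ G p = u * z) := by
  by_cases hβ : ∃ b : ℤ, β = b
  · obtain ⟨b, rfl⟩ := hβ
    obtain ⟨F, h1, h2, h3⟩ := exists_rec (fun p => algebraMap ℚ H (p : ℚ) + z) (by
      intro p hp
      exact isUnit_add_nil (by exact_mod_cast hp.ne) hz)
    refine ⟨fun p => F (b + p), ?_, ?_, ?_⟩
    · intro p
      have := h1 (b + p)
      simp only [← add_assoc, this]
      push_cast
      rfl
    · intro p hp
      refine h2 _ ?_
      by_contra hlt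
      push Not at hlt
      refine hp ⟨(b + p - 1).toNat, ?_⟩
      have h5 : (((b + p - 1).toNat : ℕ) : ℤ) = b + p - 1 := Int.toNat_of_nonneg (by omega)
      have h6 : (((b + p - 1).toNat : ℕ) : ℚ) = b + p - 1 := by exact_mod_cast h5
      rw [h6]; ring
    · rintro p ⟨k, hk⟩
      have h4 : b + p = ((k + 1 : ℕ) : ℤ) := by
        have : ((b + p : ℤ) : ℚ) = ((k + 1 : ℕ) : ℤ) := by push_cast; linarith
        exact_mod_cast this
      refine ⟨∏ j ∈ range k, (algebraMap ℚ H (((j + 1 : ℕ) : ℤ) : ℚ) + z), ?_, ?_⟩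
      · refine IsUnit.prod_iff.2 fun j _ => isUnit_add_nil ?_ hz
        push_cast
        positivity
      · simp only []
        rw [h4, h3, prod_range_succ']
        simp
  · obtain ⟨F, h1, h2, h3⟩ := exists_rec (fun p => algebraMap ℚ H (β + (p : ℚ)) + z) (by
      intro p hp
      refine isUnit_add_nil ?_ hz
      intro h0
      exact hβ ⟨-p, by push_cast; linarith⟩)
    have hu : ∀ p : ℤ, IsUnit (F p) := by
      intro p
      rcases le_or_gt p 0 with hp | hp
      · exact h2 p hp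
      · obtain ⟨k, rfl⟩ : ∃ k : ℕ, p = k := ⟨p.toNat, by omega⟩
        rw [h3]
        refine IsUnit.prod_iff.2 fun j _ => isUnit_add_nil ?_ hz
        intro h0
        exact hβ ⟨-j, by push_cast; push_cast at h0; linarith⟩
    refine ⟨F, h1, fun p _ => hu p, ?_⟩
    rintro p ⟨k, hk⟩
    exact absurd ⟨k + 1 - p, by push_cast; linarith⟩ hβ

end Pool.Agent.helper14.NS
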