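import Mathlib

/-! Finite sums over translates of a lattice. -/

namespace Pool.Agent.helper14.NS

open Finset

section

variable {H : Type} [CommRing H] {ι : Type} [Fintype ι] {Γ : Type}
  [AddCommGroup Γ]

open Classical in
/-- the sum of `w` over the fibre of `p ↦ ∑ p i • L i` -/
noncomputable def Wsum (L : ι → Γ) (w : (ι → ℤ) → H) (y : Γ) : H :=
  ∑ᶠ p : ι → ℤ, if ∑ i, p i • L i = y then w p else 0

lemma Wsum_eq_zero (L : ι → Γ) (w : (ι → ℤ) → H) (y : Γ)
    (h : ∀ p : ι → ℤ, ∑ i, p i • L i = y → w p = 0) : Wsum L w y = 0 := by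
  classical
  unfold Wsum
  refine finsum_eq_zero_of_forall_eq_zero fun p => ?_
  split_ifs with hp
  · exact h p hp
  · rfl

lemma Wsum_eq_single (L : ι → Γ) (w : (ι → ℤ) → H) (y : Γ) (p₀ : ι → ℤ)
    (hp₀ : ∑ i, p₀ i • L i = y)
    (h : ∀ p : ι → ℤ, ∑ i, p i • L i = y → p ≠ p₀ → w p = 0) : Wsum L w y = w p₀ := by
  classical
  unfold Wsum
  rw [finsum_eq_single _ p₀, if_pos hp₀]
  intro p hp
  split_ifs with h1
  · exact h p h1 hp
  · rfl

lemma Wsum_key [DecidableEq ι] (L : ι → Γ) (w : (ι → ℤ) → H) (y : Γ)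
    (hfin : ∀ y, {p : ι → ℤ | ∑ i, p i • L i = y ∧ w p ≠ 0}.Finite) (c : ι → H)
    (φ : ι → (ι → ℤ) → H) (hrec : ∀ p i, c i * w (p + Pi.single i 1) = φ i p * w p)
    (lam : ι → H) (r : H)
    (hr : ∀ p : ι → ℤ, ∑ i, p i • L i = y → ∑ i, lam i * φ i p = r) :
    ∑ i, lam i * c i * Wsum L w (y + L i) = r * Wsum L w y := by
  classical
  set S : Finset (ι → ℤ) := (hfin y).toFinset with hS
  have hmem : ∀ p, p ∈ S ↔ (∑ i, p i • L i = y ∧ w p ≠ 0) := by
    intro p; simp [hS]
  have h1 : Wsum L w y = ∑ p ∈ S, w p := by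
    unfold Wsum
    rw [finsum_eq_sum_of_support_subset (s := S)]
    · exact Finset.sum_congr rfl fun p hp => if_pos ((hmem p).1 hp).1
    · intro p hp
      rw [Function.mem_support] at hp
      refine Finset.mem_coe.2 ((hmem p).2 ?_)
      by_cases h : ∑ i, p i • L i = y
      · rw [if_pos h] at hp; exact ⟨h, hp⟩
      · rw [if_neg h] at hp; exact absurd rfl hp
  have h2 : ∀ i, c i * Wsum L w (y + L i) = ∑ p ∈ S, φ i p * w p := by
    intro i
    have h4 : ∀ p : ι → ℤ, ∑ j, (p + (Pi.single i 1 : ι → ℤ)) j • L j =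
        ∑ j, p j • L j + L i := by
      intro p
      simp only [Pi.add_apply, add_smul, Finset.sum_add_distrib]
      congr 1
      rw [Finset.sum_eq_single i]
      · simp
      · intro j _ hj; simp [Pi.single_eq_of_ne hj]
      · intro h; exact absurd (Finset.mem_univ _) h
    have h3 : Wsum L w (y + L i) = ∑ᶠ p : ι → ℤ, if ∑ j, p j • L j = y then
        w (p + Pi.single i 1) else 0 := by
      unfold Wsum
      rw [← finsum_comp_equiv (Equiv.addRight (Pi.single i (1 : ℤ)))]
      refine finsum_congr fun p => ?_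
      simp only [Equiv.coe_addRight, h4, add_left_inj]
    rw [h3]
    have hsup : (Function.support fun p : ι → ℤ => if ∑ j, p j • L j = y then
        w (p + Pi.single i 1) else 0).Finite := by
      have h5 := (hfin (y + L i)).preimage
        ((add_left_injective (Pi.single i (1 : ℤ) : ι → ℤ)).injOn)
      refine h5.subset fun p hp => ?_
      rw [Function.mem_support] at hp
      simp only [Set.mem_preimage, Set.mem_setOf_eq, h4, add_left_inj]
      by_cases h : ∑ i, p i • L i = y
      · rw [if_pos h] at hp; exact ⟨h, hp⟩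
      · rw [if_neg h] at hp; exact absurd rfl hp
    rw [mul_finsum' _ _ hsup, finsum_eq_sum_of_support_subset (s := S)]
    · refine Finset.sum_congr rfl fun p hp => ?_
      rw [if_pos ((hmem p).1 hp).1, hrec]
    · intro p hp
      rw [Function.mem_support] at hp
      refine Finset.mem_coe.2 ((hmem p).2 ?_)
      by_cases h : ∑ i, p i • L i = y
      · rw [if_pos h, hrec] at hp
        exact ⟨h, right_ne_zero_of_mul hp⟩
      · rw [if_neg h] at hp; simp at hp
  calc ∑ i, lam i * c i * Wsum L w (y + L i) = ∑ i, ∑ p ∈ S, lam i * (φ i p * w p) := by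
        refine Finset.sum_congr rfl fun i _ => ?_
        rw [mul_assoc, h2, Finset.mul_sum]
    _ = ∑ p ∈ S, (∑ i, lam i * φ i p) * w p := by
        rw [Finset.sum_comm]
        refine Finset.sum_congr rfl fun p _ => ?_
        rw [Finset.sum_mul]
        exact Finset.sum_congr rfl fun i _ => by ring
    _ = ∑ p ∈ S, r * w p := by
        refine Finset.sum_congr rfl fun p hp => ?_
        rw [hr p ((hmem p).1 hp).1]
    _ = r * Wsum L w y := by rw [h1, Finset.mul_sum]

end

end Pool.Agent.helper14.NS
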