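import Mathlib
import Pool.Agent.helper14.NS.Gam
import Pool.Agent.helper14.NS.Lattice
import Pool.Agent.helper14.NS.Functional

/-! Construction of the solution of the difference equations. -/

namespace Pool.Agent.helper14.NS

open MvPolynomial
open Pool.Agent.helper67.ND

/-- The combinatorial data: a family of simplices with supporting functionals. -/
structure Comb {n : ℕ} {ι : Type} [Fintype ι] [DecidableEq ι] (V : ι → Fin n →₀ ℕ) (om : ι → ℤ)
    (β : ι → ℚ) (ρ : Finset ι) (Vt : Finset (Finset ι)) (ε : ℚ)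
    (l l' : Finset ι → Fin n → ℚ) : Prop where
  eps_pos : 0 < ε
  beta_sum : ∀ j, ∑ i, β i * (V i j : ℚ) = 1
  beta_nat : ∀ i, i ∉ ρ → ∃ k : ℕ, β i = k
  a_pos : 0 < ∑ i, β i
  sub : ∀ Δ ∈ Vt, ρ ⊆ Δ
  li : ∀ Δ ∈ Vt, LinearIndependent ℚ (fun (i : {i // i ∈ Δ}) (j : Fin n) => (V i j : ℚ))
  l_eq : ∀ Δ ∈ Vt, ∀ i, i ∈ Δ → ∑ j, l Δ j * (V i j : ℚ) = 1 - ε * om i
  l_lt : ∀ Δ ∈ Vt, ∀ i, i ∉ Δ → 1 - ε * om i < ∑ j, l Δ j * (V i j : ℚ)
  l'_eq : ∀ Δ ∈ Vt, ∀ i, i ∈ Δ → ∑ j, l' Δ j * (V i j : ℚ) = 1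
  l'_le : ∀ Δ ∈ Vt, ∀ i, 1 ≤ ∑ j, l' Δ j * (V i j : ℚ)
  l'_pos : ∀ Δ ∈ Vt, ∀ j, 0 < l' Δ j

/-- The ring of the star of `ρ`. -/
structure CRing {n : ℕ} {ι : Type} [Fintype ι] [DecidableEq ι] (V : ι → Fin n →₀ ℕ)
    (β : ι → ℚ) (ρ : Finset ι) (Vt : Finset (Finset ι)) {H : Type} [CommRing H] (z : ι → H) :
    Prop where
  lin : ∀ j, ∑ i, (V i j : H) * z i = 0
  sr : ∀ S : Finset ι, Disjoint S ρ → (∀ Δ ∈ Vt, ¬ S ⊆ Δ) → ∏ i ∈ S, z i = 0
  nil : ∀ i, IsNilpotent (z i)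
  top : ∀ T : Finset ι, (∀ i, i ∈ T ↔ ∃ k : ℕ, β i = k + 1) → ∏ i ∈ T, z i ≠ 0

section

variable {n : ℕ} {ι : Type} [Fintype ι] [DecidableEq ι] {V : ι → Fin n →₀ ℕ} {om : ι → ℤ}
  {β : ι → ℚ} {ρ : Finset ι} {Vt : Finset (Finset ι)} {ε : ℚ} {l l' : Finset ι → Fin n → ℚ}

/-- pairing with a linear combination -/
lemma pair_eq (hC : Comb V om β ρ Vt ε l l') (k : Fin n → ℚ) (p : ι → ℤ) (u : Fin n → ℤ)
    (hu : ∀ j, ∑ i, p i * (V i j : ℤ) = u j) :
    ∑ i, (β i + p i) * (∑ j, k j * (V i j : ℚ)) = ∑ j, k j * (1 + u j) := by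
  have h1 : ∀ j, ∑ i, (β i + p i) * (V i j : ℚ) = 1 + u j := by
    intro j
    have h2 : ((∑ i, p i * (V i j : ℤ) : ℤ) : ℚ) = u j := by rw [hu]
    push_cast at h2
    rw [← h2, ← hC.beta_sum j, ← Finset.sum_add_distrib]
    exact Finset.sum_congr rfl fun i _ => by ring
  calc ∑ i, (β i + p i) * (∑ j, k j * (V i j : ℚ))
      = ∑ i, ∑ j, k j * ((β i + p i) * (V i j : ℚ)) := by
        refine Finset.sum_congr rfl fun i _ => ?_
        rw [Finset.mul_sum]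
        exact Finset.sum_congr rfl fun j _ => by ring
    _ = ∑ j, k j * (1 + u j) := by
        rw [Finset.sum_comm]
        refine Finset.sum_congr rfl fun j _ => ?_
        rw [← Finset.mul_sum, h1]

/-- the main estimate, with a defect which is a sum of nonnegative terms -/
lemma defect (hC : Comb V om β ρ Vt ε l l') (Δ : Finset ι) (p : ι → ℤ)
    (u : Fin n → ℤ) (m : ℤ) (k : ℤ)
    (hu : ∀ j, ∑ i, p i * (V i j : ℤ) = u j) (hm : ∑ i, p i = m) (hk : ∑ i, p i * om i = -k) :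
    ∑ i, -(β i + p i) * ((∑ j, l Δ j * (V i j : ℚ)) - (1 - ε * om i)) =
      (∑ i, β i) + m - ε * ((∑ i, β i * om i) - k) - ∑ j, l Δ j * (1 + u j) := by
  rw [← pair_eq hC (l Δ) p u hu]
  have h1 : (m : ℚ) = ∑ i, (p i : ℚ) := by rw [← hm]; push_cast; rfl
  have h2 : (-(k : ℚ)) = ∑ i, (p i : ℚ) * om i := by
    have := congrArg (fun x : ℤ => (x : ℚ)) hk
    push_cast at this
    rw [this]
  have h3 : ε * ((∑ i, β i * om i) - k) = ∑ i, ε * ((β i + p i) * om i) := by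
    rw [← Finset.mul_sum, sub_eq_add_neg, h2, ← Finset.sum_add_distrib]
    congr 1
    exact Finset.sum_congr rfl fun i _ => by ring
  rw [h3, h1, ← Finset.sum_add_distrib, ← Finset.sum_sub_distrib, ← Finset.sum_sub_distrib]
  exact Finset.sum_congr rfl fun i _ => by ring

/-- if `p` is nonpositive off `Δ` then the weight of `1 + u` is at most `a + m` -/
lemma weight_le (hC : Comb V om β ρ Vt ε l l') {Δ : Finset ι} (hΔ : Δ ∈ Vt) (p : ι → ℤ)
    (hp : ∀ i, i ∉ Δ → β i + p i ≤ 0) (u : Fin n → ℤ) (m : ℤ)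
    (hu : ∀ j, ∑ i, p i * (V i j : ℤ) = u j) (hm : ∑ i, p i = m) :
    ∑ j, l' Δ j * (1 + u j) ≤ (∑ i, β i) + m := by
  rw [← pair_eq hC (l' Δ) p u hu]
  have h1 : (m : ℚ) = ∑ i, (p i : ℚ) := by rw [← hm]; push_cast; rfl
  rw [h1, ← Finset.sum_add_distrib]
  refine Finset.sum_le_sum fun i _ => ?_
  by_cases hi : i ∈ Δ
  · rw [hC.l'_eq Δ hΔ i hi, mul_one]
  · have h2 := hC.l'_le Δ hΔ i
    have h3 := hp i hi
    nlinarith

lemma weight_one (hC : Comb V om β ρ Vt ε l l') (k : Fin n → ℚ) :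
    ∑ j, k j = ∑ i, β i * (∑ j, k j * (V i j : ℚ)) := by
  have h := pair_eq hC k 0 0 (by intro j; simp)
  simp only [Pi.zero_apply, Int.cast_zero, add_zero, mul_one] at h
  exact h.symm

lemma beta_nonneg (hC : Comb V om β ρ Vt ε l l') {i : ι} (hi : i ∉ ρ) : 0 ≤ β i := by
  obtain ⟨k, hk⟩ := hC.beta_nat i hi
  rw [hk]; positivity

/-- `a ≤ l'(1)` -/
lemma a_le (hC : Comb V om β ρ Vt ε l l') {Δ : Finset ι} (hΔ : Δ ∈ Vt) :
    ∑ i, β i ≤ ∑ j, l' Δ j := by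
  rw [weight_one hC]
  refine Finset.sum_le_sum fun i _ => ?_
  by_cases hi : i ∈ ρ
  · rw [hC.l'_eq Δ hΔ i (hC.sub Δ hΔ hi), mul_one]
  · have h1 := hC.l'_le Δ hΔ i
    have h2 := beta_nonneg hC hi
    nlinarith

/-- `∑ β h ≤ l(1)`, with equality only if `β` is supported on `Δ` -/
lemma h_le (hC : Comb V om β ρ Vt ε l l') {Δ : Finset ι} (hΔ : Δ ∈ Vt) :
    ∑ i, β i * (1 - ε * om i) ≤ ∑ j, l Δ j := by
  rw [weight_one hC]
  refine Finset.sum_le_sum fun i _ => ?_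
  by_cases hi : i ∈ Δ
  · rw [hC.l_eq Δ hΔ i hi]
  · have h1 := (hC.l_lt Δ hΔ i hi).le
    have h2 := beta_nonneg hC (fun h => hi (hC.sub Δ hΔ h))
    nlinarith

lemma h_lt (hC : Comb V om β ρ Vt ε l l') {Δ : Finset ι} (hΔ : Δ ∈ Vt)
    (hne : ∃ i, i ∉ Δ ∧ β i ≠ 0) :
    ∑ i, β i * (1 - ε * om i) < ∑ j, l Δ j := by
  rw [weight_one hC]
  obtain ⟨i₀, hi₀', hi₀⟩ := hne
  refine Finset.sum_lt_sum (fun i _ => ?_) ⟨i₀, Finset.mem_univ _, ?_⟩
  · by_cases hi : i ∈ Δ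
    · rw [hC.l_eq Δ hΔ i hi]
    · have h1 := (hC.l_lt Δ hΔ i hi).le
      have h2 := beta_nonneg hC (fun h => hi (hC.sub Δ hΔ h))
      nlinarith
  · have h1 := hC.l_lt Δ hΔ i₀ hi₀'
    have h2 : 0 < β i₀ := lt_of_le_of_ne (beta_nonneg hC (fun h => hi₀' (hC.sub Δ hΔ h)))
      (Ne.symm hi₀)
    nlinarith

/-- The group of exponents. -/
abbrev Gam (n : ℕ) : Type := (Fin n → ℤ) × ℤ × ℤ

/-- The vector `(V i, 1, - om i)`. -/
def Lv (V : ι → Fin n →₀ ℕ) (om : ι → ℤ) (i : ι) : Gam n := (fun j => (V i j : ℤ), 1, -om i)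

omit [DecidableEq ι] in
lemma Lv_sum (V : ι → Fin n →₀ ℕ) (om : ι → ℤ) (p : ι → ℤ) (u : Fin n → ℤ) (m k : ℤ) :
    ∑ i, p i • Lv V om i = ((u, m, k) : Gam n) ↔
      (∀ j, ∑ i, p i * (V i j : ℤ) = u j) ∧ ∑ i, p i = m ∧ ∑ i, p i * om i = -k := by
  have h1 : (∑ i, p i • Lv V om i).1 = fun j => ∑ i, p i * (V i j : ℤ) := by
    rw [Prod.fst_sum]
    funext j
    simp [Lv, Finset.sum_apply]
  have h2 : (∑ i, p i • Lv V om i).2.1 = ∑ i, p i := by
    rw [Prod.snd_sum, Prod.fst_sum]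
    simp [Lv]
  have h3 : (∑ i, p i • Lv V om i).2.2 = -∑ i, p i * om i := by
    rw [Prod.snd_sum, Prod.snd_sum]
    simp [Lv]
  constructor
  · intro h
    rw [h] at h1 h2 h3
    refine ⟨fun j => ?_, ?_, ?_⟩
    · exact (congrFun h1 j).symm
    · exact h2.symm
    · simp only at h3; linarith
  · rintro ⟨ha, hb, hc⟩
    refine Prod.ext ?_ (Prod.ext ?_ ?_)
    · rw [h1]; funext j; exact ha j
    · rw [h2]; exact hb
    · rw [h3]; simp only; linarith

/-- finiteness of the set of exponents which are nonpositive off a simplex -/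
lemma fin_one (hC : Comb V om β ρ Vt ε l l') {Δ : Finset ι} (hΔ : Δ ∈ Vt) (y : Gam n) :
    {p : ι → ℤ | ∑ i, p i • Lv V om i = y ∧ ∀ i, i ∉ Δ → β i + p i ≤ 0}.Finite := by
  classical
  obtain ⟨u, m, k⟩ := y
  set C : ℚ := (∑ i, β i) + m - ε * ((∑ i, β i * om i) - k) - ∑ j, l Δ j * (1 + u j) with hCdef
  -- the box
  set lo : {i // i ∉ Δ} → ℤ := fun i =>
    ⌊-(C / ((∑ j, l Δ j * (V i j : ℚ)) - (1 - ε * om i))) - β i⌋ with hlo
  set hi : {i // i ∉ Δ} → ℤ := fun i => ⌈-β i⌉ with hhi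
  have hbox : (Set.Icc lo hi).Finite := Set.finite_Icc lo hi
  refine Set.Finite.of_finite_image (f := fun (p : ι → ℤ) (i : {i // i ∉ Δ}) => p i)
    (hbox.subset ?_) ?_
  · rintro q ⟨p, ⟨hp1, hp2⟩, rfl⟩
    rw [Lv_sum] at hp1
    obtain ⟨hu, hm, hk⟩ := hp1
    have hdef := defect hC Δ p u m k hu hm hk
    rw [← hCdef] at hdef
    constructor
    · intro i
      have hpos : 0 < (∑ j, l Δ j * (V i j : ℚ)) - (1 - ε * om i) := by
        have := hC.l_lt Δ hΔ i i.2; linarith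
      have h1 : -(β i + p i) * ((∑ j, l Δ j * (V i j : ℚ)) - (1 - ε * om i)) ≤ C := by
        rw [← hdef]
        refine Finset.single_le_sum (f := fun i => -(β i + p i) *
          ((∑ j, l Δ j * (V i j : ℚ)) - (1 - ε * om i))) (fun i' _ => ?_)
          (Finset.mem_univ (i : ι))
        by_cases hi' : i' ∈ Δ
        · simp only [hC.l_eq Δ hΔ i' hi', sub_self, mul_zero, le_refl]
        · have h2 := hC.l_lt Δ hΔ i' hi'
          have h3 := hp2 i' hi'
          nlinarith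
      have h2 : -(β i + p i) ≤ C / ((∑ j, l Δ j * (V i j : ℚ)) - (1 - ε * om i)) := by
        rw [le_div_iff₀ hpos]; exact h1
      have h3 : -(C / ((∑ j, l Δ j * (V i j : ℚ)) - (1 - ε * om i))) - β i ≤ p i := by
        linarith
      have h4 : ((lo i : ℤ) : ℚ) ≤ p i := (Int.floor_le _).trans h3
      exact_mod_cast h4
    · intro i
      have h1 := hp2 i i.2
      have h2 : (p i : ℚ) ≤ ((hi i : ℤ) : ℚ) := by
        have := Int.le_ceil (-β i)
        have h3 : (p i : ℚ) ≤ -β i := by linarith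
        exact h3.trans this
      exact_mod_cast h2
  · rintro p ⟨hp1, -⟩ q ⟨hq1, -⟩ hpq
    rw [Lv_sum] at hp1 hq1
    have hoff : ∀ i, i ∉ Δ → p i = q i := fun i hi => congrFun hpq ⟨i, hi⟩
    have hli := Fintype.linearIndependent_iff.1 (hC.li Δ hΔ) (fun i => (p i : ℚ) - q i) (by
      funext j
      have h1 : ∑ i, ((p i : ℚ) - q i) * (V i j : ℚ) = 0 := by
        have h2 := (hp1.1 j).trans (hq1.1 j).symm
        have h3 : ((∑ i, p i * (V i j : ℤ) : ℤ) : ℚ) = ((∑ i, q i * (V i j : ℤ) : ℤ) : ℚ) := by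
          rw [h2]
        push_cast at h3
        simp only [sub_mul, Finset.sum_sub_distrib]
        rw [h3, sub_self]
      have h4 : ∑ i, ((p i : ℚ) - q i) * (V i j : ℚ) =
          ∑ i ∈ Δ, ((p i : ℚ) - q i) * (V i j : ℚ) := by
        symm
        refine Finset.sum_subset (Finset.subset_univ _) fun i _ hi => ?_
        rw [hoff i hi, sub_self, zero_mul]
      rw [h4] at h1
      rw [Finset.sum_apply]
      simp only [Pi.smul_apply, smul_eq_mul, Pi.zero_apply]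
      rw [← h1, Finset.sum_coe_sort Δ (fun i => ((p i : ℚ) - q i) * (V i j : ℚ))])
    funext i
    by_cases hi : i ∈ Δ
    · have := hli ⟨i, hi⟩
      have h2 : (p i : ℚ) = q i := by linarith
      exact_mod_cast h2
    · exact hoff i hi

/-- the family of coefficients -/
noncomputable def wt {K H : Type} [Field K] [CommRing H] [Algebra K H] (c : ι → K)
    (G : ι → ℤ → H) (p : ι → ℤ) : H := ∏ i, algebraMap K H (c i ^ (-p i)) * G i (p i)

/-- the properties of the Gamma factors -/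
structure IsGam {H : Type} [CommRing H] [Algebra ℚ H] (β : ι → ℚ) (z : ι → H)
    (G : ι → ℤ → H) : Prop where
  rec_eq : ∀ i p, G i (p + 1) = (algebraMap ℚ H (β i + p) + z i) * G i p
  unit : ∀ i (p : ℤ), (¬ ∃ k : ℕ, β i + p = k + 1) → IsUnit (G i p)
  mul : ∀ i (p : ℤ), (∃ k : ℕ, β i + p = k + 1) → ∃ u, IsUnit u ∧ G i p = u * z i

lemma wt_rec {K H : Type} [Field K] [CommRing H] [Algebra K H] [Algebra ℚ H] {c : ι → K}
    (hc : ∀ i, c i ≠ 0) {z : ι → H} {G : ι → ℤ → H} (hG : IsGam β z G) (p : ι → ℤ) (i : ι) :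
    algebraMap K H (c i) * wt c G (p + Pi.single i 1) =
      (algebraMap ℚ H (β i + p i) + z i) * wt c G p := by
  unfold wt
  rw [← Finset.mul_prod_erase _ _ (Finset.mem_univ i),
    ← Finset.mul_prod_erase _ (fun i => algebraMap K H (c i ^ (-p i)) * G i (p i))
      (Finset.mem_univ i)]
  have h1 : ∏ j ∈ Finset.univ.erase i, algebraMap K H (c j ^ (-(p + Pi.single i 1 : ι → ℤ) j)) *
      G j ((p + Pi.single i 1 : ι → ℤ) j) =
      ∏ j ∈ Finset.univ.erase i, algebraMap K H (c j ^ (-p j)) * G j (p j) := by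
    refine Finset.prod_congr rfl fun j hj => ?_
    have : (p + Pi.single i 1 : ι → ℤ) j = p j := by
      rw [Pi.add_apply, Pi.single_eq_of_ne (Finset.ne_of_mem_erase hj), add_zero]
    rw [this]
  rw [h1]
  have h2 : (p + Pi.single i 1 : ι → ℤ) i = p i + 1 := by simp
  rw [h2, hG.rec_eq]
  have h3 : algebraMap K H (c i) * algebraMap K H (c i ^ (-(p i + 1))) =
      algebraMap K H (c i ^ (-p i)) := by
    rw [← map_mul]
    congr 1
    rw [neg_add, zpow_add₀ (hc i), zpow_neg_one]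
    field_simp [hc i]
  linear_combination ((algebraMap ℚ H (β i + p i) + z i) * G i (p i) *
    ∏ j ∈ Finset.univ.erase i, algebraMap K H (c j ^ (-p j)) * G j (p j)) * h3

/-- nonzero coefficients are nonpositive off some simplex -/
lemma wt_ne {K H : Type} [Field K] [CommRing H] [Algebra K H] [Algebra ℚ H]
    (hC : Comb V om β ρ Vt ε l l') {c : ι → K} {z : ι → H} (hR : CRing V β ρ Vt z)
    {G : ι → ℤ → H} (hG : IsGam β z G) (p : ι → ℤ) (hp : wt c G p ≠ 0) :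
    ∃ Δ ∈ Vt, ∀ i, i ∉ Δ → β i + p i ≤ 0 := by
  classical
  set S : Finset ι := Finset.univ.filter (fun i => i ∉ ρ ∧ ∃ k : ℕ, β i + p i = k + 1) with hS
  have hmem : ∀ i, i ∈ S ↔ (i ∉ ρ ∧ ∃ k : ℕ, β i + p i = k + 1) := by intro i; simp [hS]
  have hex : ∃ Δ ∈ Vt, S ⊆ Δ := by
    by_contra hcon
    push Not at hcon
    have hdis : Disjoint S ρ := by
      rw [Finset.disjoint_left]
      intro i hi
      exact ((hmem i).1 hi).1
    have h0 := hR.sr S hdis hcon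
    refine hp ?_
    unfold wt
    have h1 : ∏ i ∈ S, z i ∣ ∏ i ∈ S, algebraMap K H (c i ^ (-p i)) * G i (p i) := by
      refine Finset.prod_dvd_prod_of_dvd _ _ fun i hi => ?_
      obtain ⟨u, -, hu⟩ := hG.mul i (p i) ((hmem i).1 hi).2
      exact ⟨algebraMap K H (c i ^ (-p i)) * u, by rw [hu]; ring⟩
    have h2 := h1.trans (Finset.prod_dvd_prod_of_subset S Finset.univ
      (fun i => algebraMap K H (c i ^ (-p i)) * G i (p i)) (Finset.subset_univ S))
    rw [h0] at h2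
    exact zero_dvd_iff.1 h2
  obtain ⟨Δ, hΔ, hSΔ⟩ := hex
  refine ⟨Δ, hΔ, fun i hi => ?_⟩
  have h1 : i ∉ ρ := fun h => hi (hC.sub Δ hΔ h)
  have h2 : i ∉ S := fun h => hi (hSΔ h)
  rw [hmem] at h2
  push Not at h2
  have h3 := h2 h1
  -- `β i` is a natural number
  obtain ⟨b, hb⟩ := hC.beta_nat i h1
  by_contra hlt
  push Not at hlt
  rw [hb] at hlt
  have h4 : (0 : ℤ) < b + p i := by exact_mod_cast hlt
  refine h3 (b + p i - 1).toNat ?_
  have h5 : (((b + p i - 1).toNat : ℕ) : ℤ) = b + p i - 1 := Int.toNat_of_nonneg (by omega)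
  have h6 : (((b + p i - 1).toNat : ℕ) : ℚ) = b + p i - 1 := by exact_mod_cast h5
  rw [h6, hb]; ring

lemma wt_zero {K H : Type} [Field K] [CommRing H] [Algebra K H] [Algebra ℚ H]
    {c : ι → K} {z : ι → H} (hR : CRing V β ρ Vt z)
    {G : ι → ℤ → H} (hG : IsGam β z G) : wt c G 0 ≠ 0 := by
  classical
  set T : Finset ι := Finset.univ.filter (fun i => ∃ k : ℕ, β i = k + 1) with hT
  have hmem : ∀ i, i ∈ T ↔ ∃ k : ℕ, β i = k + 1 := by intro i; simp [hT]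
  have htop := hR.top T hmem
  have h1 : ∀ i, ∃ u : H, IsUnit u ∧ G i 0 = u * (if i ∈ T then z i else 1) := by
    intro i
    by_cases hi : i ∈ T
    · obtain ⟨u, hu, hu2⟩ := hG.mul i 0 (by simpa using (hmem i).1 hi)
      exact ⟨u, hu, by rw [if_pos hi]; exact hu2⟩
    · refine ⟨G i 0, hG.unit i 0 ?_, by rw [if_neg hi, mul_one]⟩
      intro h
      exact hi ((hmem i).2 (by simpa using h))
  choose u hu1 hu2 using h1
  have h2 : wt c G 0 = (∏ i, u i) * ∏ i ∈ T, z i := by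
    unfold wt
    have h3 : ∏ i ∈ T, z i = ∏ i, (if i ∈ T then z i else 1) := by
      rw [Finset.prod_ite_mem, Finset.univ_inter]
    rw [h3, ← Finset.prod_mul_distrib]
    refine Finset.prod_congr rfl fun i _ => ?_
    simp [hu2]
  rw [h2]
  intro h3
  have h4 : IsUnit (∏ i, u i) := IsUnit.prod_iff.2 fun i _ => hu1 i
  exact htop ((h4.mul_right_eq_zero).1 h3)

end

end Pool.Agent.helper14.NS
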