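import Mathlib
import Pool.Agent.helper14.NS.Build

/-! The root produced by a family of simplices. -/

namespace Pool.Agent.helper14.NS

open MvPolynomial
open Pool.Agent.helper67.ND

section

variable {n : ℕ} {ι : Type} [Fintype ι] [DecidableEq ι] {V : ι → Fin n →₀ ℕ} {om : ι → ℤ}
  {β : ι → ℚ} {ρ : Finset ι} {Vt : Finset (Finset ι)} {ε : ℚ} {l l' : Finset ι → Fin n → ℚ}
  {K H : Type} [Field K] [CommRing H] [Algebra K H] [Algebra ℚ H] {c : ι → K} {z : ι → H}
  {G : ι → ℤ → H}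

lemma defect_nonneg (hC : Comb V om β ρ Vt ε l l') {Δ : Finset ι} (hΔ : Δ ∈ Vt) (p : ι → ℤ)
    (hp : ∀ i, i ∉ Δ → β i + p i ≤ 0) (i : ι) :
    0 ≤ -(β i + p i) * ((∑ j, l Δ j * (V i j : ℚ)) - (1 - ε * om i)) := by
  by_cases hi : i ∈ Δ
  · simp only [hC.l_eq Δ hΔ i hi, sub_self, mul_zero, le_refl]
  · have h2 := hC.l_lt Δ hΔ i hi
    have h3 := hp i hi
    nlinarith

lemma fin_all (hC : Comb V om β ρ Vt ε l l') (hR : CRing V β ρ Vt z) (hG : IsGam β z G)
    (y : Gam n) : {p : ι → ℤ | ∑ i, p i • Lv V om i = y ∧ wt c G p ≠ 0}.Finite := by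
  have h1 : (⋃ Δ ∈ Vt, {p : ι → ℤ | ∑ i, p i • Lv V om i = y ∧
      ∀ i, i ∉ Δ → β i + p i ≤ 0}).Finite :=
    Set.Finite.biUnion Vt.finite_toSet fun Δ hΔ => fin_one hC hΔ y
  refine h1.subset ?_
  rintro p ⟨hp1, hp2⟩
  obtain ⟨Δ, hΔ, h⟩ := wt_ne hC hR hG p hp2
  simp only [Set.mem_iUnion]
  exact ⟨Δ, hΔ, hp1, h⟩

lemma exists_of_Wsum_ne (hC : Comb V om β ρ Vt ε l l') (hR : CRing V β ρ Vt z)
    (hG : IsGam β z G) (u : Fin n → ℤ) (m k : ℤ)
    (h : Wsum (Lv V om) (wt c G) ((u, m, k) : Gam n) ≠ 0) :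
    ∃ p : ι → ℤ, ((∀ j, ∑ i, p i * (V i j : ℤ) = u j) ∧ ∑ i, p i = m ∧
      ∑ i, p i * om i = -k) ∧ ∃ Δ ∈ Vt, ∀ i, i ∉ Δ → β i + p i ≤ 0 := by
  by_contra hcon
  refine h (Wsum_eq_zero _ _ _ fun p hp => ?_)
  by_contra hw
  rw [Lv_sum] at hp
  exact hcon ⟨p, hp, wt_ne hC hR hG p hw⟩

lemma bddBelow_supp (hC : Comb V om β ρ Vt ε l l') (hR : CRing V β ρ Vt z)
    (hG : IsGam β z G) (u : Fin n → ℤ) (m : ℤ) :
    BddBelow (Function.support fun k : ℤ => Wsum (Lv V om) (wt c G) ((u, m, k) : Gam n)) := by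
  classical
  obtain ⟨B, hB⟩ := (Vt.image fun Δ => ⌊(ε * (∑ i, β i * om i) + (∑ j, l Δ j * (1 + u j)) -
    ((∑ i, β i) + m)) / ε⌋).bddBelow
  refine ⟨B, fun k hk => ?_⟩
  rw [Function.mem_support] at hk
  obtain ⟨p, ⟨hu, hm, hk'⟩, Δ, hΔ, hp⟩ := exists_of_Wsum_ne hC hR hG u m k hk
  have h1 := defect hC Δ p u m k hu hm hk'
  have h2 := Finset.sum_nonneg (fun i (_ : i ∈ Finset.univ) => defect_nonneg hC hΔ p hp i)
  rw [h1] at h2
  have h3 : (ε * (∑ i, β i * om i) + (∑ j, l Δ j * (1 + u j)) -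
    ((∑ i, β i) + m)) / ε ≤ k := by
    rw [div_le_iff₀ hC.eps_pos]
    linarith
  have h4 : B ≤ ⌊(ε * (∑ i, β i * om i) + (∑ j, l Δ j * (1 + u j)) -
    ((∑ i, β i) + m)) / ε⌋ := hB (Finset.mem_coe.2 (Finset.mem_image_of_mem _ hΔ))
  have h5 : ((⌊(ε * (∑ i, β i * om i) + (∑ j, l Δ j * (1 + u j)) -
    ((∑ i, β i) + m)) / ε⌋ : ℤ) : ℚ) ≤ k := (Int.floor_le _).trans h3
  have h6 : ⌊(ε * (∑ i, β i * om i) + (∑ j, l Δ j * (1 + u j)) -
    ((∑ i, β i) + m)) / ε⌋ ≤ k := by exact_mod_cast h5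
  exact h4.trans h6

theorem root_of_comb {k : Type} [Field k] [CharZero k] (hC : Comb V om β ρ Vt ε l l')
    (hR : CRing V β ρ Vt z) (hc : ∀ i, c i ≠ 0) (σ : k →+* HahnSeries ℤ H)
    (f : MvPolynomial (Fin n) k) (b : Polynomial k) (hb : TruncB f b)
    (hf : MvPolynomial.map σ f = ∑ i, monomial (V i)
      (HahnSeries.single (om i) (algebraMap K H (c i)))) :
    b.eval (-((∑ i, β i : ℚ) : k)) = 0 := by
  classical
  -- Gamma factors
  have hGex : ∀ i, ∃ G : ℤ → H, (∀ p, G (p + 1) = (algebraMap ℚ H (β i + p) + z i) * G p) ∧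
      (∀ p : ℤ, (¬ ∃ k : ℕ, β i + p = k + 1) → IsUnit (G p)) ∧
      (∀ p : ℤ, (∃ k : ℕ, β i + p = k + 1) → ∃ u, IsUnit u ∧ G p = u * z i) :=
    fun i => exists_gamma (β i) (z i) (hR.nil i)
  choose G hG1 hG2 hG3 using hGex
  have hG : IsGam β z G := ⟨hG1, hG2, hG3⟩
  set W : (Fin n → ℤ) → ℤ → HahnSeries ℤ H := fun u m =>
    HahnSeries.ofSuppBddBelow (fun k : ℤ => Wsum (Lv V om) (wt c G) ((u, m, k) : Gam n))
      (bddBelow_supp hC hR hG u m) with hW
  have hWc : ∀ u m k, (W u m).coeff k = Wsum (Lv V om) (wt c G) ((u, m, k) : Gam n) :=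
    fun u m k => rfl
  have hσ : ∀ r : ℚ, σ (r : k) = HahnSeries.C (algebraMap ℚ H r) := by
    intro r
    have h1 : σ.comp (algebraMap ℚ k) = (HahnSeries.C).comp (algebraMap ℚ H) :=
      Subsingleton.elim _ _
    have h2 := RingHom.congr_fun h1 r
    simpa using h2
  set κ₀ : H := ∑ i, z i with hκ₀
  have hκ₀n : IsNilpotent κ₀ := isNilpotent_sum fun i _ => hR.nil i
  have hkey : ∀ (lam : ι → ℕ) (r : H) (u : Fin n → ℤ) (m : ℤ),
      (∀ p : ι → ℤ, (∀ j, ∑ i, p i * (V i j : ℤ) = u j) → ∑ i, p i = m →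
        ∑ i, (lam i : H) * (algebraMap ℚ H (β i + p i) + z i) = r) →
      ∑ i, (lam i : HahnSeries ℤ H) * HahnSeries.single (om i) (algebraMap K H (c i)) *
        W (fun j => u j + (V i j : ℤ)) (m + 1) = HahnSeries.C r * W u m := by
    intro lam r u m hr
    ext k
    rw [HahnSeries.coeff_sum, HahnSeries.C_mul_eq_smul, HahnSeries.coeff_smul, hWc, smul_eq_mul]
    have h1 := Wsum_key (Lv V om) (wt c G) ((u, m, k) : Gam n) (fin_all hC hR hG)
      (fun i => algebraMap K H (c i)) (fun i p => algebraMap ℚ H (β i + p i) + z i)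
      (fun p i => wt_rec hc hG p i) (fun i => (lam i : H)) r (by
        intro p hp
        rw [Lv_sum] at hp
        exact hr p hp.1 hp.2.1)
    rw [← h1]
    refine Finset.sum_congr rfl fun i _ => ?_
    have h2 : (lam i : HahnSeries ℤ H) * HahnSeries.single (om i) (algebraMap K H (c i)) =
        HahnSeries.single (om i) ((lam i : H) * algebraMap K H (c i)) := by
      have h3 : (lam i : HahnSeries ℤ H) = HahnSeries.C (lam i : H) := (map_natCast _ _).symm
      rw [h3, HahnSeries.C_apply, HahnSeries.single_mul_single, zero_add]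
    rw [h2, HahnSeries.coeff_single_mul, hWc]
    rfl
  refine root_of_W σ f b hb (∑ i, β i) hC.a_pos (HahnSeries.C κ₀)
    (hκ₀n.map HahnSeries.C) V
    (fun i => HahnSeries.single (om i) (algebraMap K H (c i))) hf W ?_ ?_ ?_ ?_ ?_
  · -- K1
    intro u m
    have h1 := hkey (fun _ => 1) (algebraMap ℚ H ((∑ i, β i) + m) + κ₀) u m (by
      intro p _ hm
      simp only [Nat.cast_one, one_mul, Finset.sum_add_distrib, ← map_sum, ← hm]
      push_cast
      rw [hκ₀])
    simp only [Nat.cast_one, one_mul] at h1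
    rw [h1, hσ]
    have h2 : HahnSeries.C (algebraMap ℚ H ((∑ i, β i) + m) + κ₀) =
        HahnSeries.C (algebraMap ℚ H (∑ i, β i)) + (m : HahnSeries ℤ H) + HahnSeries.C κ₀ := by
      rw [map_add, map_add, map_add, map_intCast, map_intCast]
    rw [h2]
  · -- K2
    intro u m j
    have h1 := hkey (fun i => V i j) (1 + (u j : H)) u m (by
      intro p hu _
      simp only [mul_add, Finset.sum_add_distrib, hR.lin j, add_zero]
      have h2 : (algebraMap ℚ H) (∑ i, (β i + p i) * (V i j : ℚ)) = 1 + (u j : H) := by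
        have h3 : ((∑ i, p i * (V i j : ℤ) : ℤ) : ℚ) = u j := by rw [hu]
        push_cast at h3
        have h4 : ∑ i, (β i + p i) * (V i j : ℚ) = 1 + (u j : ℤ) := by
          rw [← h3, ← hC.beta_sum j, ← Finset.sum_add_distrib]
          exact Finset.sum_congr rfl fun i _ => by ring
        rw [h4, map_add, map_one, map_intCast]
      rw [← h2, map_sum]
      refine Finset.sum_congr rfl fun i _ => ?_
      rw [map_mul, map_natCast]; ring)
    rw [h1]
    have h2 : HahnSeries.C (1 + (u j : H)) = (1 + (u j : HahnSeries ℤ H)) := by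
      rw [map_add, map_one, map_intCast]
    rw [h2]
  · -- vanishing for `m = -1`
    intro e
    ext k
    rw [hWc, HahnSeries.coeff_zero]
    by_contra hne
    obtain ⟨p, ⟨hu, hm, -⟩, Δ, hΔ, hp⟩ := exists_of_Wsum_ne hC hR hG _ _ _ hne
    have h1 := weight_le hC hΔ p hp _ _ hu hm
    have h2 := a_le hC hΔ
    have h3 : ∑ j, l' Δ j ≤ ∑ j, l' Δ j * (1 + ((e j : ℤ) : ℚ)) := by
      refine Finset.sum_le_sum fun j _ => ?_
      have h4 := hC.l'_pos Δ hΔ j
      have h5 : (0 : ℚ) ≤ ((e j : ℤ) : ℚ) := by positivity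
      nlinarith
    push_cast at h1 h3
    linarith
  · -- vanishing in large degree
    intro m
    set S : Finset ℚ := insert 1 ((Vt ×ˢ Finset.univ).image fun x => l' x.1 x.2) with hS
    have hSne : S.Nonempty := ⟨1, Finset.mem_insert_self _ _⟩
    have hpos : 0 < S.min' hSne := by
      rw [Finset.lt_min'_iff]
      intro x hx
      rw [hS, Finset.mem_insert, Finset.mem_image] at hx
      rcases hx with rfl | ⟨⟨Δ, j⟩, hΔ, rfl⟩
      · exact one_pos
      · exact hC.l'_pos Δ (Finset.mem_product.1 hΔ).1 j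
    set δ := S.min' hSne with hδ
    refine ⟨⌈((∑ i, β i) + m) / δ⌉.toNat + 1, fun e he => ?_⟩
    ext k
    rw [hWc, HahnSeries.coeff_zero]
    by_contra hne
    obtain ⟨p, ⟨hu, hm, -⟩, Δ, hΔ, hp⟩ := exists_of_Wsum_ne hC hR hG _ _ _ hne
    have h1 := weight_le hC hΔ p hp _ _ hu hm
    have h2 : δ * e.degree ≤ ∑ j, l' Δ j * (1 + ((e j : ℤ) : ℚ)) := by
      rw [Finsupp.degree_eq_sum]
      push_cast
      rw [Finset.mul_sum]
      refine Finset.sum_le_sum fun j _ => ?_
      have h4 : δ ≤ l' Δ j := by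
        refine Finset.min'_le _ _ ?_
        rw [hS, Finset.mem_insert, Finset.mem_image]
        exact Or.inr ⟨(Δ, j), Finset.mem_product.2 ⟨hΔ, Finset.mem_univ _⟩, rfl⟩
      have h5 : (0 : ℚ) ≤ (e j : ℚ) := by positivity
      have h6 := hC.l'_pos Δ hΔ j
      nlinarith
    have h3 : ((∑ i, β i) + m) / δ < e.degree := by
      have h4 := Int.le_ceil (((∑ i, β i) + m) / δ)
      have h5 : ⌈((∑ i, β i) + m) / δ⌉ ≤ (⌈((∑ i, β i) + m) / δ⌉.toNat : ℤ) :=
        Int.self_le_toNat _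
      have h6 : ((⌈((∑ i, β i) + m) / δ⌉ : ℤ) : ℚ) ≤ ((⌈((∑ i, β i) + m) / δ⌉.toNat : ℕ) : ℚ) := by
        exact_mod_cast h5
      have h7 : ((⌈((∑ i, β i) + m) / δ⌉.toNat + 1 : ℕ) : ℚ) ≤ (e.degree : ℚ) := by
        exact_mod_cast he
      push_cast at h7
      linarith
    rw [div_lt_iff₀ hpos] at h3
    push_cast at h1
    push_cast at h2
    linarith
  · -- nonvanishing
    intro h0
    have h1 : (W (fun _ => 0) 0).coeff 0 = 0 := by rw [h0]; rfl
    rw [hWc] at h1
    have h2 : Wsum (Lv V om) (wt c G) (((fun _ => 0), 0, 0) : Gam n) = wt c G 0 := by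
      refine Wsum_eq_single _ _ _ 0 (by rw [Lv_sum]; simp) fun p hp hne => ?_
      by_contra hw
      obtain ⟨Δ, hΔ, hpΔ⟩ := wt_ne hC hR hG p hw
      rw [Lv_sum] at hp
      obtain ⟨hu, hm, hk⟩ := hp
      have h3 := defect hC Δ p _ _ _ hu hm hk
      have h4 : (∑ i, β i) + ((0 : ℤ) : ℚ) - ε * ((∑ i, β i * om i) - ((0 : ℤ) : ℚ)) -
          ∑ j, l Δ j * (1 + ((0 : ℤ) : ℚ)) =
          (∑ i, β i * (1 - ε * om i)) - ∑ j, l Δ j := by
        simp only [Int.cast_zero, add_zero, sub_zero, mul_one, mul_sub, Finset.sum_sub_distrib,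
          Finset.mul_sum]
        congr 2
        exact Finset.sum_congr rfl fun i _ => by ring
      rw [h4] at h3
      have h5 := Finset.sum_nonneg
        (fun i (_ : i ∈ Finset.univ) => defect_nonneg hC hΔ p hpΔ i)
      by_cases hΔ0 : ∃ i, i ∉ Δ ∧ β i ≠ 0
      swap
      · push Not at hΔ0
        -- all defects vanish
        have h6 : ∑ i, -(β i + p i) * ((∑ j, l Δ j * (V i j : ℚ)) - (1 - ε * om i)) = 0 := by
          refine le_antisymm ?_ h5
          rw [h3]
          have := h_le hC hΔ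
          linarith
        have h7 := (Finset.sum_eq_zero_iff_of_nonneg
          (fun i _ => defect_nonneg hC hΔ p hpΔ i)).1 h6
        have hoff : ∀ i, i ∉ Δ → p i = 0 := by
          intro i hi
          have h8 := h7 i (Finset.mem_univ _)
          have h9 := hC.l_lt Δ hΔ i hi
          have h10 : β i + p i = 0 := by
            rcases mul_eq_zero.1 h8 with h | h
            · linarith
            · linarith
          rw [hΔ0 i hi, zero_add] at h10
          exact_mod_cast h10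
        have hli := Fintype.linearIndependent_iff.1 (hC.li Δ hΔ) (fun i => (p i : ℚ)) (by
          funext j
          have h1 : ((∑ i, p i * (V i j : ℤ) : ℤ) : ℚ) = 0 := by rw [hu j]; simp
          push_cast at h1
          have h4 : ∑ i, (p i : ℚ) * (V i j : ℚ) = ∑ i ∈ Δ, (p i : ℚ) * (V i j : ℚ) := by
            symm
            refine Finset.sum_subset (Finset.subset_univ _) fun i _ hi => ?_
            rw [hoff i hi, Int.cast_zero, zero_mul]
          rw [h4] at h1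
          rw [Finset.sum_apply]
          simp only [Pi.smul_apply, smul_eq_mul, Pi.zero_apply]
          rw [← h1, Finset.sum_coe_sort Δ (fun i => (p i : ℚ) * (V i j : ℚ))])
        refine hne (funext fun i => ?_)
        by_cases hi : i ∈ Δ
        · have := hli ⟨i, hi⟩
          simpa using this
        · exact hoff i hi
      · have h6 := h_lt hC hΔ hΔ0
        rw [h3] at h5
        linarith
    rw [h2] at h1
    exact wt_zero hR hG h1

end

end Pool.Agent.helper14.NS
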