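import Mathlib
import Pool.Agent.helper14.NS.Root

/-! Descent of the functional equation to the field generated by generic coefficients. -/

namespace Pool.Agent.helper14.NS

open MvPolynomial
open Pool.Agent.helper67.ND Pool.Agent.helper14.CND

/-- The formal functional equation is preserved under linear projections of the coefficients. -/
theorem TruncB.descend {k F : Type} [Field k] [Field F] (j : k →+* F) {n : ℕ}
    (f : MvPolynomial (Fin n) k) (b : Polynomial F)
    (hb : TruncB (MvPolynomial.map j f) b) (x : k) (hx : b.eval (j x) ≠ 0) :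
    ∃ b' : Polynomial k, TruncB f b' ∧ b'.eval x ≠ 0 := by
  classical
  let _ : Algebra k F := j.toAlgebra
  have hj : ∀ r : k, ∀ y : F, r • y = j r * y := fun r y => by
    rw [Algebra.smul_def]; rfl
  -- the projection
  obtain ⟨π, hπ⟩ : ∃ π : F →ₗ[k] k, π (b.eval (j x)) = 1 := by
    have hinj : Function.Injective (LinearMap.toSpanSingleton k F (b.eval (j x))) := by
      rw [← LinearMap.ker_eq_bot]
      exact LinearMap.ker_toSpanSingleton k hx
    obtain ⟨π, hπ⟩ := (LinearMap.toSpanSingleton k F (b.eval (j x))).exists_leftInverse_of_injective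
      (LinearMap.ker_eq_bot.2 hinj)
    refine ⟨π, ?_⟩
    have := LinearMap.congr_fun hπ 1
    simpa using this
  have hπj : ∀ (y : F) (r : k), π (y * j r) = π y * r := by
    intro y r
    have h1 : y * j r = r • y := by rw [hj, mul_comm]
    rw [h1, map_smul, smul_eq_mul, mul_comm]
  set b' : Polynomial k := ∑ i ∈ b.support, Polynomial.monomial i (π (b.coeff i)) with hb'
  have hb'c : ∀ i, b'.coeff i = π (b.coeff i) := by
    intro i
    rw [hb', Polynomial.finsetSum_coeff]
    simp only [Polynomial.coeff_monomial]
    rw [Finset.sum_ite_eq']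
    split_ifs with h
    · rfl
    · rw [Polynomial.notMem_support_iff.1 h, map_zero]
  refine ⟨b', ?_, ?_⟩
  · obtain ⟨T, L, hL, hT⟩ := hb
    refine ⟨T, L, hL, fun D => ?_⟩
    obtain ⟨A, hA⟩ := hT D
    set A' : List (Fin n) × ℕ → MvPolynomial (Fin n) k := fun t =>
      ∑ m ∈ (A t).support, monomial m (π (coeff m (A t))) with hA'
    have hA'c : ∀ t m, coeff m (A' t) = π (coeff m (A t)) := by
      intro t m
      rw [hA']
      simp only [coeff_sum, coeff_monomial]
      rw [Finset.sum_ite_eq']
      split_ifs with h
      · rfl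
      · rw [notMem_support_iff.1 h, map_zero]
    refine ⟨A', fun m hm => ?_⟩
    have h1 := hA m hm
    set jj : Polynomial k →+* Polynomial F := Polynomial.mapRingHom j with hjj
    have hmap : ∀ P : MvPolynomial (Fin n) k, MvPolynomial.map Polynomial.C
        (MvPolynomial.map j P) = MvPolynomial.map jj (MvPolynomial.map Polynomial.C P) := by
      intro P
      have h0 : (Polynomial.C : F →+* Polynomial F).comp j = jj.comp Polynomial.C :=
        RingHom.ext fun r => by simp [hjj]
      rw [MvPolynomial.map_map, MvPolynomial.map_map, h0]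
    have hX : (Polynomial.X : Polynomial F) = jj Polynomial.X := by simp [hjj]
    -- the other factors come from `k`
    set Gt : List (Fin n) × ℕ → MvPolynomial (Fin n) (Polynomial k) := fun t =>
      C (Polynomial.X ^ t.2) * Nw (MvPolynomial.map Polynomial.C f) Polynomial.X t.1 *
      (MvPolynomial.map Polynomial.C f) ^ (L - t.1.length) with hGt
    have h2 : ∀ t, MvPolynomial.map Polynomial.C (A t) * C (Polynomial.X ^ t.2) *
        Nw (MvPolynomial.map Polynomial.C (MvPolynomial.map j f)) Polynomial.X t.1 *
        (MvPolynomial.map Polynomial.C (MvPolynomial.map j f)) ^ (L - t.1.length) =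
        MvPolynomial.map Polynomial.C (A t) * MvPolynomial.map jj (Gt t) := by
      intro t
      rw [hmap, hX, ← map_Nw]
      simp only [hGt, map_mul, map_pow, map_C]
      ring
    have h3 : C b * (MvPolynomial.map Polynomial.C (MvPolynomial.map j f)) ^ L =
        C b * MvPolynomial.map jj ((MvPolynomial.map Polynomial.C f) ^ L) := by
      rw [hmap, map_pow]
    simp only [h2] at h1
    rw [h3] at h1
    -- coefficient comparison
    have key : ∀ (P : MvPolynomial (Fin n) F) (P' : MvPolynomial (Fin n) k),
        (∀ m, coeff m P' = π (coeff m P)) → ∀ (G : MvPolynomial (Fin n) (Polynomial k))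
        (m : Fin n →₀ ℕ) (i : ℕ),
        (coeff m (MvPolynomial.map Polynomial.C P' * G)).coeff i =
          π ((coeff m (MvPolynomial.map Polynomial.C P * MvPolynomial.map jj G)).coeff i) := by
      intro P P' hP G m i
      rw [coeff_mul, coeff_mul, Polynomial.finsetSum_coeff, Polynomial.finsetSum_coeff, map_sum]
      refine Finset.sum_congr rfl fun x _ => ?_
      rw [coeff_map, coeff_map, coeff_map, Polynomial.coeff_C_mul, Polynomial.coeff_C_mul, hP,
        hjj, Polynomial.coe_mapRingHom, Polynomial.coeff_map, hπj]
    have key2 : ∀ (G : MvPolynomial (Fin n) (Polynomial k)) (m : Fin n →₀ ℕ) (i : ℕ),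
        (coeff m (C b' * G)).coeff i = π ((coeff m (C b * MvPolynomial.map jj G)).coeff i) := by
      intro G m i
      rw [coeff_C_mul, coeff_C_mul, Polynomial.coeff_mul, Polynomial.coeff_mul, map_sum]
      refine Finset.sum_congr rfl fun x _ => ?_
      rw [coeff_map, hb'c, hjj, Polynomial.coe_mapRingHom, Polynomial.coeff_map, hπj]
    have h2' : ∀ t, MvPolynomial.map Polynomial.C (A' t) * C (Polynomial.X ^ t.2) *
        Nw (MvPolynomial.map Polynomial.C f) Polynomial.X t.1 *
        (MvPolynomial.map Polynomial.C f) ^ (L - t.1.length) =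
        MvPolynomial.map Polynomial.C (A' t) * Gt t := by
      intro t
      simp only [hGt, mul_assoc]
    simp only [h2']
    refine Polynomial.ext fun i => ?_
    have h4 := congrArg (fun q : Polynomial F => π (q.coeff i)) h1
    simp only [coeff_sub, coeff_sum, Polynomial.coeff_sub, Polynomial.finsetSum_coeff, map_sub,
      map_sum, Polynomial.coeff_zero, map_zero] at h4
    rw [coeff_sub, coeff_sum, Polynomial.coeff_sub, Polynomial.finsetSum_coeff,
      Polynomial.coeff_zero, key2, ← h4]
    congr 1
    exact Finset.sum_congr rfl fun t _ => key (A t) (A' t) (hA'c t) (Gt t) m i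
  · have h5 : b'.eval x = π (b.eval (j x)) := by
      rw [Polynomial.eval_eq_sum_range, Polynomial.eval_eq_sum_range' (n := b'.natDegree +
        b.natDegree + 1) (by omega), map_sum]
      rw [← Polynomial.eval_eq_sum_range, Polynomial.eval_eq_sum_range' (n := b'.natDegree +
        b.natDegree + 1) (by omega)]
      refine Finset.sum_congr rfl fun i _ => ?_
      rw [← map_pow, hπj, hb'c]
    rw [h5, hπ]
    exact one_ne_zero

end Pool.Agent.helper14.NS
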