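import Mathlib

/-! The embedding of the field of generic coefficients in Laurent series. -/

namespace Pool.Agent.helper14.NS

open MvPolynomial

/-- coefficientwise ring homomorphism on Hahn series -/
noncomputable def mapHom {R S : Type} [CommRing R] [CommRing S] (g : R →+* S) :
    HahnSeries ℤ R →+* HahnSeries ℤ S where
  toFun x := x.map g
  map_one' := by
    ext k
    rw [HahnSeries.map_coeff, HahnSeries.coeff_one, HahnSeries.coeff_one]
    split_ifs <;> simp
  map_zero' := by ext k; simp
  map_add' x y := by ext k; simp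
  map_mul' x y := HahnSeries.map_mul (g : R →ₙ+* S)

lemma mapHom_single {R S : Type} [CommRing R] [CommRing S] (g : R →+* S) (i : ℤ) (r : R) :
    mapHom g (HahnSeries.single i r) = HahnSeries.single i (g r) := by
  change (HahnSeries.single i r).map g = _
  ext k
  rw [HahnSeries.map_coeff]
  by_cases h : k = i
  · subst h; simp
  · rw [HahnSeries.coeff_single_of_ne h, HahnSeries.coeff_single_of_ne h, map_zero]

section

variable {ι : Type} (c : ι → ℂ) (om : ι → ℤ)

/-- the weight homomorphism -/
noncomputable def tw : MvPolynomial ι ℚ →ₐ[ℚ] HahnSeries ℤ ℂ :=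
  aeval (fun i => HahnSeries.single (om i) (c i))

lemma tw_monomial (m : ι →₀ ℕ) (r : ℚ) : tw c om (monomial m r) =
    HahnSeries.single (m.sum fun i e => (e : ℤ) * om i) (aeval c (monomial m r)) := by
  classical
  unfold tw
  rw [aeval_monomial, aeval_monomial]
  have h1 : (m.prod fun i k => (HahnSeries.single (om i) (c i) : HahnSeries ℤ ℂ) ^ k) =
      HahnSeries.single (m.sum fun i e => (e : ℤ) * om i) (m.prod fun i k => c i ^ k) := by
    rw [Finsupp.prod, Finsupp.prod, Finsupp.sum]
    induction m.support using Finset.induction_on with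
    | empty => simp
    | insert i s hi ih =>
      rw [Finset.prod_insert hi, Finset.prod_insert hi, Finset.sum_insert hi, ih,
        HahnSeries.single_pow, HahnSeries.single_mul_single]
      simp
  rw [h1]
  have h2 : (algebraMap ℚ (HahnSeries ℤ ℂ)) r = HahnSeries.single 0 ((algebraMap ℚ ℂ) r) := by
    have h3 : (algebraMap ℚ (HahnSeries ℤ ℂ)) =
        (HahnSeries.C : ℂ →+* HahnSeries ℤ ℂ).comp (algebraMap ℚ ℂ) := Subsingleton.elim _ _
    rw [h3]
    rfl
  rw [h2, HahnSeries.single_mul_single, zero_add]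

lemma tw_coeff (P : MvPolynomial ι ℚ) (k : ℤ) : (tw c om P).coeff k =
    aeval c (∑ m ∈ P.support.filter (fun m => (m.sum fun i e => (e : ℤ) * om i) = k),
      monomial m (coeff m P)) := by
  classical
  conv_lhs => rw [P.as_sum]
  rw [map_sum, HahnSeries.coeff_sum, map_sum, Finset.sum_filter]
  refine Finset.sum_congr rfl fun m _ => ?_
  rw [tw_monomial]
  split_ifs with h
  · rw [h, HahnSeries.coeff_single_same]
  · rw [HahnSeries.coeff_single_of_ne (Ne.symm h)]

lemma tw_injective (hc : AlgebraicIndependent ℚ c) : Function.Injective (tw c om) := by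
  classical
  rw [injective_iff_map_eq_zero]
  intro P hP
  by_contra hne
  obtain ⟨m, hm⟩ : P.support.Nonempty := support_nonempty.2 hne
  have h1 := tw_coeff c om P (m.sum fun i e => (e : ℤ) * om i)
  rw [hP, HahnSeries.coeff_zero] at h1
  have h2 := (injective_iff_map_eq_zero _).1 hc _ h1.symm
  have h3 := congrArg (coeff m) h2
  rw [coeff_sum, coeff_zero] at h3
  simp only [coeff_monomial] at h3
  rw [Finset.sum_ite_eq'] at h3
  have h4 : m ∈ P.support.filter (fun m' => (m'.sum fun i e => (e : ℤ) * om i) =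
      m.sum fun i e => (e : ℤ) * om i) := Finset.mem_filter.2 ⟨hm, rfl⟩
  rw [if_pos h4] at h3
  exact mem_support_iff.1 hm h3

theorem exists_embed (hc : AlgebraicIndependent ℚ c) :
    ∃ (k : Type) (_ : Field k) (_ : CharZero k) (j : k →+* ℂ) (σ : k →+* HahnSeries ℤ ℂ)
      (x : ι → k), (∀ i, j (x i) = c i) ∧ ∀ i, σ (x i) = HahnSeries.single (om i) (c i) := by
  have hj : Function.Injective ((aeval c : MvPolynomial ι ℚ →ₐ[ℚ] ℂ) : MvPolynomial ι ℚ →+* ℂ) :=
    hc
  have hσ : Function.Injective ((tw c om : MvPolynomial ι ℚ →ₐ[ℚ] HahnSeries ℤ ℂ) :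
      MvPolynomial ι ℚ →+* HahnSeries ℤ ℂ) := tw_injective c om hc
  refine ⟨FractionRing (MvPolynomial ι ℚ), inferInstance, ?_, IsFractionRing.lift hj,
    IsFractionRing.lift hσ,
    fun i => algebraMap (MvPolynomial ι ℚ) (FractionRing (MvPolynomial ι ℚ)) (X i),
    fun i => ?_, fun i => ?_⟩
  · exact charZero_of_injective_algebraMap
      (algebraMap ℚ (FractionRing (MvPolynomial ι ℚ))).injective
  · rw [IsFractionRing.lift_algebraMap]
    simp
  · rw [IsFractionRing.lift_algebraMap]
    simp [tw]

end

end Pool.Agent.helper14.NS
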