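import Mathlib
import Pool.Agent.helper14.NS.Core
import Pool.Agent.helper14.NS.Bridge
import Pool.Agent.helper14.NS.Descent
import Pool.Agent.helper14.NS.Embed

/-! The root criterion for both classes of polynomials. -/

namespace Pool.Agent.helper14.NS

open MvPolynomial
open Pool.Agent.helper67.ND

/-- Root criterion: either the heights are trivial, or the coefficients are generic. -/
theorem root_main {n : ℕ} {ι : Type} [Fintype ι] [DecidableEq ι] {V : ι → Fin n →₀ ℕ}
    {om : ι → ℤ} {β : ι → ℚ} {ρ : Finset ι} {Vt : Finset (Finset ι)} {ε : ℚ}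
    {l l' : Finset ι → Fin n → ℚ} {H : Type} [CommRing H] [Algebra ℂ H] {z : ι → H} {c : ι → ℂ}
    (hc : ∀ i, c i ≠ 0) (hyp : (∀ i, om i = 0) ∨ AlgebraicIndependent ℚ c)
    (b : Polynomial ℂ) (hb : TruncB (∑ i, monomial (V i) (c i)) b)
    (hC : Comb V om β ρ Vt ε l l') (hR : CRing V β ρ Vt z) :
    b.eval (-((∑ i, β i : ℚ) : ℂ)) = 0 := by
  classical
  let _ : Algebra ℚ H := Algebra.compHom H (algebraMap ℚ ℂ)
  rcases hyp with hom | hind
  · refine root_of_comb (c := c) hC hR hc
      ((HahnSeries.C : H →+* HahnSeries ℤ H).comp (algebraMap ℂ H)) _ b hb ?_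
    rw [map_sum]
    refine Finset.sum_congr rfl fun i _ => ?_
    rw [map_monomial, hom]
    rfl
  · by_contra hne
    obtain ⟨k, ik, ck, j, σ, x, hj, hσ⟩ := exists_embed c om hind
    have h1 : MvPolynomial.map j (∑ i, monomial (V i) (x i)) = ∑ i, monomial (V i) (c i) := by
      rw [map_sum]
      exact Finset.sum_congr rfl fun i _ => by rw [map_monomial, hj]
    have h2 : b.eval (j (-((∑ i, β i : ℚ) : k))) ≠ 0 := by
      rw [map_neg, map_ratCast]
      exact hne
    obtain ⟨b', hb', hne'⟩ := TruncB.descend j (∑ i, monomial (V i) (x i)) b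
      (by rw [h1]; exact hb) (-((∑ i, β i : ℚ) : k)) h2
    refine hne' (root_of_comb (c := c) hC hR hc ((mapHom (algebraMap ℂ H)).comp σ) _ b' hb' ?_)
    rw [map_sum]
    refine Finset.sum_congr rfl fun i _ => ?_
    rw [map_monomial]
    congr 1
    rw [RingHom.comp_apply, hσ, mapHom_single]

end Pool.Agent.helper14.NS
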