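import Mathlib
import Pool.Agent.helper14.NS.Build
import Pool.Agent.helper11.NS.Ring
import Pool.Agent.helper11.NS.Fan

/-! The star of a face in a regular triangulation of the Newton boundary. -/

namespace Pool.Agent.helper14.NS

open MvPolynomial
open Pool.Agent.helper11.NSR (dt)

section

variable {n : ℕ} {ι : Type} [Fintype ι] [DecidableEq ι]

/-- rational exponent vector -/
def qv (V : ι → Fin n →₀ ℕ) (i : ι) : Fin n → ℚ := fun j => (V i j : ℚ)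

lemma dt_qv (V : ι → Fin n →₀ ℕ) (k : Fin n → ℚ) (i : ι) :
    dt k (qv V i) = ∑ j, k j * (V i j : ℚ) := rfl

/-- The star of a face `ρ` of a simplex `Δ₀`. -/
theorem exists_star (V : ι → Fin n →₀ ℕ) (om : ι → ℤ) (ε : ℚ) (hε : 0 < ε)
    (conv : ∀ j : Fin n, ∃ i, 0 < V i j ∧ ∀ j', j' ≠ j → V i j' = 0)
    (simple : ∀ k : Fin n → ℚ, (∀ i, 1 - ε * om i ≤ dt k (qv V i)) →
      LinearIndependent ℚ (fun i : {i // dt k (qv V i) = 1 - ε * om i} => qv V i))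
    (compat : ∀ (k : Fin n → ℚ) (Δ : Finset ι), Δ.card = n →
      (∀ i, 1 - ε * om i ≤ dt k (qv V i)) → (∀ i, i ∈ Δ ↔ dt k (qv V i) = 1 - ε * om i) →
      ∃ k' : Fin n → ℚ, (∀ i, 1 ≤ dt k' (qv V i)) ∧ ∀ i ∈ Δ, dt k' (qv V i) = 1)
    (Δ₀ : Finset ι) (hcard : Δ₀.card = n) (k₀ : Fin n → ℚ)
    (hk₀ : ∀ i, 1 - ε * om i ≤ dt k₀ (qv V i))
    (hΔ₀ : ∀ i, i ∈ Δ₀ ↔ dt k₀ (qv V i) = 1 - ε * om i)
    (β : ι → ℚ) (hβ : ∀ j, ∑ i, β i * (V i j : ℚ) = 1) (hβ0 : ∀ i, i ∉ Δ₀ → β i = 0)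
    (ha : 0 < ∑ i, β i) (ρ : Finset ι) (hρ : ρ ⊆ Δ₀)
    (hβρ : ∀ i, i ∈ Δ₀ → i ∉ ρ → ∃ k : ℕ, β i = k + 1)
    (hβρ' : ∀ i, i ∈ ρ → ¬ ∃ k : ℕ, β i = k + 1)
    (cover : ∀ j : Fin n, ∃ i ∈ ρ, V i j ≠ 0) (K : Type) [Field K] [CharZero K] :
    ∃ (Vt : Finset (Finset ι)) (l l' : Finset ι → Fin n → ℚ) (H : Type) (_ : CommRing H)
      (_ : Algebra K H) (z : ι → H), Comb V om β ρ Vt ε l l' ∧ CRing V β ρ Vt z := by
  classical
  have hpos : ∀ k : Fin n → ℚ, (∀ i, 1 ≤ dt k (qv V i)) → ∀ j, 0 < k j := by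
    intro k hk j
    obtain ⟨i, hi, hi'⟩ := conv j
    have h1 := hk i
    rw [dt_qv, Finset.sum_eq_single j] at h1
    · have h2 : (0 : ℚ) < V i j := by exact_mod_cast hi
      by_contra hcon
      push Not at hcon
      nlinarith
    · intro j' _ hj'; rw [hi' j' hj']; simp
    · intro h; exact absurd (Finset.mem_univ _) h
  -- the simplices of the star
  set Vt : Finset (Finset ι) := (Finset.univ : Finset (Finset ι)).filter (fun Δ => ρ ⊆ Δ ∧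
    Δ.card = n ∧ ∃ k : Fin n → ℚ, (∀ i, 1 - ε * om i ≤ dt k (qv V i)) ∧
      ∀ i, i ∈ Δ ↔ dt k (qv V i) = 1 - ε * om i) with hVt
  have hmem : ∀ Δ, Δ ∈ Vt ↔ (ρ ⊆ Δ ∧ Δ.card = n ∧ ∃ k : Fin n → ℚ,
      (∀ i, 1 - ε * om i ≤ dt k (qv V i)) ∧ ∀ i, i ∈ Δ ↔ dt k (qv V i) = 1 - ε * om i) := by
    intro Δ; simp [hVt]
  have hl : ∀ Δ : Finset ι, ∃ k : Fin n → ℚ, Δ ∈ Vt → (∀ i, 1 - ε * om i ≤ dt k (qv V i)) ∧
      ∀ i, i ∈ Δ ↔ dt k (qv V i) = 1 - ε * om i := by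
    intro Δ
    by_cases h : Δ ∈ Vt
    · obtain ⟨k, hk⟩ := ((hmem Δ).1 h).2.2
      exact ⟨k, fun _ => hk⟩
    · exact ⟨0, fun h' => absurd h' h⟩
  choose l hl using hl
  have hl' : ∀ Δ : Finset ι, ∃ k : Fin n → ℚ, Δ ∈ Vt → (∀ i, 1 ≤ dt k (qv V i)) ∧
      ∀ i ∈ Δ, dt k (qv V i) = 1 := by
    intro Δ
    by_cases h : Δ ∈ Vt
    · obtain ⟨k, hk⟩ := compat (l Δ) Δ ((hmem Δ).1 h).2.1 (hl Δ h).1 (hl Δ h).2
      exact ⟨k, fun _ => hk⟩
    · exact ⟨0, fun h' => absurd h' h⟩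
  choose l' hl' using hl'
  have hli : ∀ Δ ∈ Vt, LinearIndependent ℚ (fun i : {i // i ∈ Δ} => qv V i) := by
    intro Δ hΔ
    obtain ⟨h1, h2⟩ := hl Δ hΔ
    exact (simple (l Δ) h1).comp (fun i : {i // i ∈ Δ} =>
      (⟨i.1, (h2 i.1).1 i.2⟩ : {i // dt (l Δ) (qv V i) = 1 - ε * om i}))
      (fun a b hab => Subtype.ext (Subtype.mk.inj hab))
  have hmem0 : Δ₀ ∈ Vt := (hmem Δ₀).2 ⟨hρ, hcard, k₀, hk₀, hΔ₀⟩
  have bdd : ∀ d : Fin n → ℚ, (∀ i, 0 ≤ dt d (qv V i)) → (∀ i ∈ ρ, dt d (qv V i) = 0) →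
      d = 0 := by
    intro d hd hd'
    have hd0 : ∀ j, 0 ≤ d j := by
      intro j
      obtain ⟨i, hi, hi'⟩ := conv j
      have h1 := hd i
      rw [dt_qv, Finset.sum_eq_single j] at h1
      · have h2 : (0 : ℚ) < V i j := by exact_mod_cast hi
        by_contra hcon
        push Not at hcon
        nlinarith
      · intro j' _ hj'; rw [hi' j' hj']; simp
      · intro h; exact absurd (Finset.mem_univ _) h
    funext j
    obtain ⟨i, hi, hij⟩ := cover j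
    have h1 := hd' i hi
    rw [dt_qv, Finset.sum_eq_zero_iff_of_nonneg (fun j' _ =>
      mul_nonneg (hd0 j') (by positivity))] at h1
    have h2 := h1 j (Finset.mem_univ _)
    rcases mul_eq_zero.1 h2 with h | h
    · exact h
    · exact absurd (by exact_mod_cast h) hij
  obtain ⟨H, iH, aH, z, hz1, hz2, hz3, hz4⟩ := Pool.Agent.helper11.NSR.exists_ring (qv V) ρ Vt
    (fun Δ hΔ => ((hmem Δ).1 hΔ).1) (fun Δ hΔ => ((hmem Δ).1 hΔ).2.1) hli (by
      intro Δ hΔ j hj hjρ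
      obtain ⟨h1, h2, -⟩ := (hmem Δ).1 hΔ
      obtain ⟨j', k', d, hj', hk', hk'', hd1, hd2, hd3, huniq⟩ := Pool.Agent.helper11.NSR.fan
        (qv V) (fun i => 1 - ε * om i) simple ρ bdd Δ h1 h2 (l Δ) (hl Δ hΔ).1 (hl Δ hΔ).2 j hj
        hjρ
      refine ⟨j', hj', ?_, ?_, d, hd1, hd2, hd3⟩
      · rw [hmem]
        refine ⟨?_, ?_, k', hk', hk''⟩
        · intro i hi
          refine Finset.mem_insert_of_mem (Finset.mem_erase.2 ⟨?_, h1 hi⟩)
          rintro rfl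
          exact hjρ hi
        · rw [Finset.card_insert_of_notMem (fun h => hj' (Finset.mem_of_mem_erase h)),
            Finset.card_erase_of_mem hj, h2]
          have : 0 < Δ.card := Finset.card_pos.2 ⟨j, hj⟩
          omega
      · intro Δ'' hΔ'' hsub
        obtain ⟨-, h4, k'', h5, h6⟩ := (hmem Δ'').1 hΔ''
        exact huniq Δ'' k'' h4 hsub h5 h6) Δ₀ hmem0 K
  refine ⟨Vt, l, l', H, iH, aH, z, ?_, ?_⟩
  · exact {
      eps_pos := hε
      beta_sum := hβ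
      beta_nat := fun i hi => by
        by_cases h : i ∈ Δ₀
        · obtain ⟨k, hk⟩ := hβρ i h hi
          exact ⟨k + 1, by rw [hk]; push_cast; ring⟩
        · exact ⟨0, by rw [hβ0 i h]; simp⟩
      a_pos := ha
      sub := fun Δ hΔ => ((hmem Δ).1 hΔ).1
      li := fun Δ hΔ => hli Δ hΔ
      l_eq := fun Δ hΔ i hi => ((hl Δ hΔ).2 i).1 hi
      l_lt := fun Δ hΔ i hi => lt_of_le_of_ne ((hl Δ hΔ).1 i)
        (fun h => hi (((hl Δ hΔ).2 i).2 h.symm))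
      l'_eq := fun Δ hΔ i hi => (hl' Δ hΔ).2 i hi
      l'_le := fun Δ hΔ i => (hl' Δ hΔ).1 i
      l'_pos := fun Δ hΔ => hpos _ (hl' Δ hΔ).1 }
  · exact {
      lin := by
        intro j
        have h1 := hz1 j
        rw [← h1]
        refine Finset.sum_congr rfl fun i _ => ?_
        simp [qv]
      sr := hz2
      nil := hz3
      top := by
        intro T hT
        have h1 : T = Δ₀ \ ρ := by
          ext i
          rw [hT, Finset.mem_sdiff]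
          constructor
          · rintro ⟨k, hk⟩
            have h2 : i ∈ Δ₀ := by
              by_contra h3
              rw [hβ0 i h3] at hk
              have : (0 : ℚ) < k + 1 := by positivity
              linarith
            exact ⟨h2, fun h3 => hβρ' i h3 ⟨k, hk⟩⟩
          · rintro ⟨h2, h3⟩
            exact hβρ i h2 h3
        rw [h1]
        exact hz4 }

end

end Pool.Agent.helper14.NS
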