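import Mathlib
import Pool.Agent.helper14.NS.Main
import Pool.Agent.helper14.NS.Star
import Pool.Agent.helper11.NS.Heights

/-! Simplices which are not `B1` give roots. -/

namespace Pool.Agent.helper14.NS

open MvPolynomial
open Pool.Agent.helper67.ND
open Pool.Agent.helper11.NSR (dt)

/-- A regular triangulation of the Newton boundary, given by heights `1 - ε * om i`. -/
structure Tri {n : ℕ} {ι : Type} [Fintype ι] [DecidableEq ι] (V : ι → Fin n →₀ ℕ) (om : ι → ℤ)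
    (ε : ℚ) : Prop where
  eps_pos : 0 < ε
  conv : ∀ j : Fin n, ∃ i, 0 < V i j ∧ ∀ j', j' ≠ j → V i j' = 0
  simple : ∀ k : Fin n → ℚ, (∀ i, 1 - ε * om i ≤ dt k (qv V i)) →
      LinearIndependent ℚ (fun i : {i // dt k (qv V i) = 1 - ε * om i} => qv V i)
  compat : ∀ (k : Fin n → ℚ) (Δ : Finset ι), Δ.card = n →
      (∀ i, 1 - ε * om i ≤ dt k (qv V i)) → (∀ i, i ∈ Δ ↔ dt k (qv V i) = 1 - ε * om i) →
      ∃ k' : Fin n → ℚ, (∀ i, 1 ≤ dt k' (qv V i)) ∧ ∀ i ∈ Δ, dt k' (qv V i) = 1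

theorem root_nonB1 {n : ℕ} (hn : 0 < n) {ι : Type} [Fintype ι] [DecidableEq ι]
    {V : ι → Fin n →₀ ℕ} {om : ι → ℤ} {ε : ℚ} (hT : Tri V om ε) {c : ι → ℂ}
    (hc : ∀ i, c i ≠ 0) (hyp : (∀ i, om i = 0) ∨ AlgebraicIndependent ℚ c)
    (b : Polynomial ℂ) (hb : TruncB (∑ i, monomial (V i) (c i)) b)
    (Δ₀ : Finset ι) (hcardΔ : Δ₀.card = n) (k₀ : Fin n → ℚ)
    (hk₀ : ∀ i, 1 - ε * om i ≤ dt k₀ (qv V i))
    (hΔ₀ : ∀ i, i ∈ Δ₀ ↔ dt k₀ (qv V i) = 1 - ε * om i)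
    (k₁ : Fin n → ℚ) (hk₁ : ∀ i, 1 ≤ dt k₁ (qv V i)) (hk₁' : ∀ i ∈ Δ₀, dt k₁ (qv V i) = 1)
    (hB : ¬ ∃ j : Fin n, ∃ i ∈ Δ₀, V i j = 1 ∧ ∀ i' ∈ Δ₀, i' ≠ i → V i' j = 0) :
    b.eval (-((∑ j, k₁ j : ℚ) : ℂ)) = 0 := by
  classical
  have hpos : ∀ k : Fin n → ℚ, (∀ i, 1 ≤ dt k (qv V i)) → ∀ j, 0 < k j := by
    intro k hk j
    obtain ⟨i, hi, hi'⟩ := hT.conv j
    have h1 := hk i
    rw [dt_qv, Finset.sum_eq_single j] at h1
    · have h2 : (0 : ℚ) < V i j := by exact_mod_cast hi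
      by_contra hcon
      push Not at hcon
      nlinarith
    · intro j' _ hj'; rw [hi' j' hj']; simp
    · intro h; exact absurd (Finset.mem_univ _) h
  have hliΔ : LinearIndependent ℚ (fun i : {i // i ∈ Δ₀} => qv V i) :=
    (hT.simple k₀ hk₀).comp (fun i : {i // i ∈ Δ₀} =>
      (⟨i.1, (hΔ₀ i.1).1 i.2⟩ : {i // dt k₀ (qv V i) = 1 - ε * om i}))
      (fun a b hab => Subtype.ext (Subtype.mk.inj hab))
  -- coordinates of `(1, ..., 1)`
  obtain ⟨cf, hcf1, -, hcf3⟩ := Pool.Agent.helper11.NSR.exists_coord (qv V) Δ₀ hcardΔ hliΔ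
  set β : ι → ℚ := fun i => cf i (fun _ => 1) with hβdef
  have hβ : ∀ j, ∑ i, β i * (V i j : ℚ) = 1 := by
    intro j
    have h1 := congrFun (hcf3 (fun _ => 1)) j
    rw [Finset.sum_apply] at h1
    rw [h1]
    exact Finset.sum_congr rfl fun i _ => rfl
  have hβ0 : ∀ i, i ∉ Δ₀ → β i = 0 := by
    intro i hi
    simp only [hβdef, hcf1 i hi]
    rfl
  have hsum : ∑ i, β i = ∑ j, k₁ j := by
    have h1 : ∑ i, β i = ∑ i, β i * dt k₁ (qv V i) := by
      refine Finset.sum_congr rfl fun i _ => ?_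
      by_cases hi : i ∈ Δ₀
      · rw [hk₁' i hi, mul_one]
      · rw [hβ0 i hi, zero_mul]
    rw [h1]
    calc ∑ i, β i * dt k₁ (qv V i) = ∑ i, ∑ j, k₁ j * (β i * (V i j : ℚ)) := by
          refine Finset.sum_congr rfl fun i _ => ?_
          rw [dt_qv, Finset.mul_sum]
          exact Finset.sum_congr rfl fun j _ => by ring
      _ = ∑ j, k₁ j := by
          rw [Finset.sum_comm]
          refine Finset.sum_congr rfl fun j _ => ?_
          rw [← Finset.mul_sum, hβ, mul_one]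
  have ha : 0 < ∑ i, β i := by
    rw [hsum]
    have : Nonempty (Fin n) := ⟨⟨0, hn⟩⟩
    exact Finset.sum_pos (fun j _ => hpos k₁ hk₁ j) Finset.univ_nonempty
  set ρ : Finset ι := Δ₀.filter (fun i => ¬ ∃ k : ℕ, β i = k + 1) with hρ
  have hmρ : ∀ i, i ∈ ρ ↔ i ∈ Δ₀ ∧ ¬ ∃ k : ℕ, β i = k + 1 := by
    intro i; rw [hρ, Finset.mem_filter]
  -- `ρ` covers all coordinates
  have cover : ∀ j : Fin n, ∃ i ∈ ρ, V i j ≠ 0 := by
    intro j
    by_contra hcon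
    push Not at hcon
    -- the terms of `∑ β i V i j = 1`
    have hterm : ∀ i, 0 ≤ β i * (V i j : ℚ) ∧ (V i j ≠ 0 → β i ≠ 0 → (V i j : ℚ) ≤ β i * V i j)
        := by
      intro i
      by_cases hi : i ∈ Δ₀
      · by_cases hk : ∃ k : ℕ, β i = k + 1
        · obtain ⟨k, hk⟩ := hk
          refine ⟨by rw [hk]; positivity, fun _ _ => ?_⟩
          rw [hk]
          have : (0 : ℚ) ≤ (V i j : ℚ) := by positivity
          have h2 : (0 : ℚ) ≤ k := by positivity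
          nlinarith
        · have h1 := hcon i ((hmρ i).2 ⟨hi, hk⟩)
          rw [h1]; simp
      · rw [hβ0 i hi]; simp
    obtain ⟨i₀, hi₀⟩ : ∃ i, β i * (V i j : ℚ) ≠ 0 := by
      by_contra hall
      push Not at hall
      have h1 := hβ j
      rw [Finset.sum_eq_zero fun i _ => hall i] at h1
      exact zero_ne_one h1
    have hV0 : V i₀ j ≠ 0 := by
      intro h; rw [h] at hi₀; simp at hi₀
    have hβ00 : β i₀ ≠ 0 := by intro h; rw [h] at hi₀; simp at hi₀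
    have hi₀Δ : i₀ ∈ Δ₀ := by
      by_contra h
      exact hβ00 (hβ0 _ h)
    have hge : (1 : ℚ) ≤ V i₀ j := by exact_mod_cast Nat.one_le_iff_ne_zero.2 hV0
    have h1 := (hterm i₀).2 hV0 hβ00
    have hsplit : β i₀ * (V i₀ j : ℚ) + ∑ i ∈ Finset.univ.erase i₀, β i * (V i j : ℚ) = 1 := by
      rw [Finset.add_sum_erase Finset.univ (fun i => β i * (V i j : ℚ)) (Finset.mem_univ i₀)]
      exact hβ j
    have hrest : 0 ≤ ∑ i ∈ Finset.univ.erase i₀, β i * (V i j : ℚ) :=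
      Finset.sum_nonneg fun i _ => (hterm i).1
    have hrest0 : ∑ i ∈ Finset.univ.erase i₀, β i * (V i j : ℚ) = 0 := by linarith
    have hone : (V i₀ j : ℚ) = 1 := by linarith
    refine hB ⟨j, i₀, hi₀Δ, by exact_mod_cast hone, ?_⟩
    intro i' hi'Δ hi'ne
    have hz := (Finset.sum_eq_zero_iff_of_nonneg (fun i _ => (hterm i).1)).1 hrest0 i'
      (Finset.mem_erase.2 ⟨hi'ne, Finset.mem_univ _⟩)
    by_contra hu0
    by_cases hk : ∃ k : ℕ, β i' = k + 1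
    · obtain ⟨k, hk⟩ := hk
      rw [hk] at hz
      have h3 : (V i' j : ℚ) ≠ 0 := by exact_mod_cast hu0
      have h4 : ((k : ℚ) + 1) ≠ 0 := by positivity
      exact (mul_ne_zero h4 h3) hz
    · exact hu0 (hcon i' ((hmρ i').2 ⟨hi'Δ, hk⟩))
  -- the star
  obtain ⟨Vt, l, l', H, iH, aH, z, hC, hR⟩ := exists_star V om ε hT.eps_pos hT.conv hT.simple
    hT.compat Δ₀ hcardΔ k₀ hk₀ hΔ₀ β hβ hβ0 ha ρ
    (Finset.filter_subset _ _) (by
      intro i hi hiρ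
      by_contra h
      exact hiρ ((hmρ i).2 ⟨hi, h⟩)) (fun i hi => ((hmρ i).1 hi).2) cover ℂ
  rw [← hsum]
  exact root_main hc hyp b hb hC hR

/-- Theorem B: generic coefficients, arbitrary convenient Newton polyhedron. -/
theorem root_generic {n : ℕ} (hn : 0 < n) (f : MvPolynomial (Fin n) ℂ)
    (hconv : ∀ i : Fin n, ∃ m : ℕ, Finsupp.single i m ∈ f.support) (h0 : coeff 0 f = 0)
    (hind : AlgebraicIndependent ℚ (fun v : f.support => coeff (v : Fin n →₀ ℕ) f))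
    (w : Fin n → ℕ) (N : ℕ) (hN : ∀ v ∈ f.support, N ≤ ∑ i, w i * v i)
    (F : Finset (Fin n →₀ ℕ)) (hF : ∀ v ∈ F, v ∈ f.support ∧ ∑ i, w i * v i = N)
    (hcard : F.card = n)
    (hli : LinearIndependent ℚ (fun (v : F) (i : Fin n) => (((v : Fin n →₀ ℕ) i : ℕ) : ℚ)))
    (hB : ¬ ∃ i : Fin n, ∃ v ∈ F, v i = 1 ∧ ∀ u ∈ F, u ≠ v → u i = 0)
    (hN0 : 0 < N) (b : Polynomial ℂ) (hb : IsBernstein (fun z => eval z f) b) :
    b.eval (-((∑ i, w i : ℕ) / (N : ℂ))) = 0 := by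
  classical
  have h0' : (0 : Fin n →₀ ℕ) ∉ f.support := by
    rw [notMem_support_iff]; exact h0
  set ι := {v : Fin n →₀ ℕ // v ∈ f.support} with hι
  set V : ι → Fin n →₀ ℕ := fun v => v.1 with hV
  have hVinj : Function.Injective V := Subtype.val_injective
  have conv : ∀ j : Fin n, ∃ i : ι, 0 < V i j ∧ ∀ j', j' ≠ j → V i j' = 0 := by
    intro j
    obtain ⟨m, hm⟩ := hconv j
    refine ⟨⟨_, hm⟩, ?_, fun j' hj' => ?_⟩
    · simp only [hV, Finsupp.single_eq_same]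
      rcases Nat.eq_zero_or_pos m with rfl | h
      · rw [Finsupp.single_zero] at hm; exact absurd hm h0'
      · exact h
    · simp only [hV]
      exact Finsupp.single_eq_of_ne (by tauto)
  have hNq : (0 : ℚ) < N := by exact_mod_cast hN0
  set k₁ : Fin n → ℚ := fun j => (w j : ℚ) / N with hk₁def
  have hk₁dt : ∀ i : ι, dt k₁ (qv V i) = ((∑ j, w j * V i j : ℕ) : ℚ) / N := by
    intro i
    rw [dt_qv]
    push_cast
    rw [Finset.sum_div]
    exact Finset.sum_congr rfl fun j _ => by rw [hk₁def]; ring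
  have hk₁ : ∀ i, 1 ≤ dt k₁ (qv V i) := by
    intro i
    rw [hk₁dt, le_div_iff₀ hNq, one_mul]
    exact_mod_cast hN _ i.2
  set Δ₀ : Finset ι := Finset.univ.filter (fun i => V i ∈ F) with hΔ₀def
  have hmemΔ : ∀ i, i ∈ Δ₀ ↔ V i ∈ F := by intro i; simp [hΔ₀def]
  have hk₁' : ∀ i ∈ Δ₀, dt k₁ (qv V i) = 1 := by
    intro i hi
    rw [hk₁dt, (hF _ ((hmemΔ i).1 hi)).2, div_self hNq.ne']
  have hcardΔ : Δ₀.card = n := by
    rw [← hcard]
    refine Finset.card_bij (fun i _ => V i) (fun i hi => (hmemΔ i).1 hi)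
      (fun i _ j _ h => hVinj h) ?_
    intro v hv
    exact ⟨⟨v, (hF v hv).1⟩, (hmemΔ _).2 hv, rfl⟩
  have hliΔ : LinearIndependent ℚ (fun i : {i // i ∈ Δ₀} => qv V i) :=
    hli.comp (fun i : {i // i ∈ Δ₀} => (⟨V i.1, (hmemΔ i.1).1 i.2⟩ : F))
      (fun a b hab => Subtype.ext (hVinj (Subtype.mk.inj hab)))
  obtain ⟨om, ε, hε, simple, compat, k₀, hk₀, hΔ₀⟩ :=
    Pool.Agent.helper11.NSR.generic_heights (qv V) Δ₀ hcardΔ hliΔ k₁ hk₁ hk₁'
  have hf : f = ∑ i : ι, monomial (V i) (coeff (V i) f) := by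
    conv_lhs => rw [f.as_sum]
    rw [← Finset.sum_coe_sort f.support]
  have hfin := root_nonB1 hn (V := V) (om := om) (ε := ε) ⟨hε, conv, simple, compat⟩
    (c := fun i : ι => coeff (V i) f) (fun i => mem_support_iff.1 i.2) (Or.inr hind) b
    (by rw [← hf]; exact truncB_of_isBernstein f b hb) Δ₀ hcardΔ k₀ hk₀ hΔ₀ k₁ hk₁ hk₁' (by
      rintro ⟨j, i, hi, hij, hrest⟩
      refine hB ⟨j, V i, (hmemΔ i).1 hi, hij, fun u hu hne => ?_⟩
      have h1 := hrest ⟨u, (hF u hu).1⟩ ((hmemΔ _).2 hu) (fun h => hne (congrArg V h))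
      exact h1)
  have h9 : (((∑ j, k₁ j : ℚ)) : ℂ) = ((∑ i, w i : ℕ) : ℂ) / N := by
    push_cast
    rw [Finset.sum_div]
    refine Finset.sum_congr rfl fun j _ => ?_
    simp only [hk₁def]
    push_cast
    rfl
  rw [h9] at hfin
  exact hfin

end Pool.Agent.helper14.NS
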