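import Mathlib
import Pool.Agent.helper14.NS.NonB1
import Pool.Agent.helper11.NS.Deg

/-! The root criterion in terms of the degree maps. -/

namespace Pool.Agent.helper14.NS

open MvPolynomial
open Pool.Agent.helper67.ND
open Pool.Agent.helper11.NSR (dt lamD)

section

variable {n : ℕ} {ι : Type} [Fintype ι] [DecidableEq ι] {V : ι → Fin n →₀ ℕ} {om : ι → ℤ} {ε : ℚ}

/-- The maximal simplices of the triangulation. -/
noncomputable def maxS (V : ι → Fin n →₀ ℕ) (om : ι → ℤ) (ε : ℚ) : Finset (Finset ι) := by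
  classical
  exact (Finset.univ : Finset (Finset ι)).filter (fun Δ => Δ.card = n ∧ ∃ k : Fin n → ℚ,
    (∀ i, 1 - ε * om i ≤ dt k (qv V i)) ∧ ∀ i, i ∈ Δ ↔ dt k (qv V i) = 1 - ε * om i)

lemma mem_maxS (Δ : Finset ι) : Δ ∈ maxS V om ε ↔ Δ.card = n ∧ ∃ k : Fin n → ℚ,
    (∀ i, 1 - ε * om i ≤ dt k (qv V i)) ∧ ∀ i, i ∈ Δ ↔ dt k (qv V i) = 1 - ε * om i := by
  classical
  unfold maxS
  rw [Finset.mem_filter]
  simp

lemma maxS_card : ∀ Δ ∈ maxS V om ε, Δ.card = n := fun Δ hΔ => ((mem_maxS Δ).1 hΔ).1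

lemma maxS_li (hT : Tri V om ε) :
    ∀ Δ ∈ maxS V om ε, LinearIndependent ℚ (fun i : {i // i ∈ Δ} => qv V i) := by
  intro Δ hΔ
  obtain ⟨-, k, h1, h2⟩ := (mem_maxS Δ).1 hΔ
  exact (hT.simple k h1).comp (fun i : {i // i ∈ Δ} =>
    (⟨i.1, (h2 i.1).1 i.2⟩ : {i // dt k (qv V i) = 1 - ε * om i}))
    (fun a b hab => Subtype.ext (Subtype.mk.inj hab))

lemma pos_of_conv (hT : Tri V om ε) (k : Fin n → ℚ) (hk : ∀ i, 1 ≤ dt k (qv V i)) (j : Fin n) :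
    0 < k j := by
  obtain ⟨i, hi, hi'⟩ := hT.conv j
  have h1 := hk i
  rw [dt_qv, Finset.sum_eq_single j] at h1
  · have h2 : (0 : ℚ) < V i j := by exact_mod_cast hi
    by_contra hcon
    push Not at hcon
    nlinarith
  · intro j' _ hj'; rw [hi' j' hj']; simp
  · intro h; exact absurd (Finset.mem_univ _) h

lemma maxS_wall (hT : Tri V om ε) (ρ : Finset ι) (cover : ∀ j : Fin n, ∃ i ∈ ρ, V i j ≠ 0) :
    ∀ Δ ∈ maxS V om ε, ρ ⊆ Δ → ∀ j ∈ Δ, j ∉ ρ → ∃ j' ∉ Δ, insert j' (Δ.erase j) ∈ maxS V om ε ∧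
      (∀ Δ'' ∈ maxS V om ε, Δ.erase j ⊆ Δ'' → Δ'' = Δ ∨ Δ'' = insert j' (Δ.erase j)) ∧
      ∃ d : Fin n → ℚ, (∀ i ∈ Δ.erase j, ∑ a, d a * qv V i a = 0) ∧ 0 < ∑ a, d a * qv V j a ∧
        ∑ a, d a * qv V j' a < 0 := by
  intro Δ hΔ hρΔ j hj hjρ
  have bdd : ∀ d : Fin n → ℚ, (∀ i, 0 ≤ dt d (qv V i)) → (∀ i ∈ ρ, dt d (qv V i) = 0) →
      d = 0 := by
    intro d hd hd'
    have hd0 : ∀ j, 0 ≤ d j := by
      intro j
      obtain ⟨i, hi, hi'⟩ := hT.conv j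
      have h1 := hd i
      rw [dt_qv, Finset.sum_eq_single j] at h1
      · have h2 : (0 : ℚ) < V i j := by exact_mod_cast hi
        by_contra hcon
        push Not at hcon
        nlinarith
      · intro j' _ hj'; rw [hi' j' hj']; simp
      · intro h; exact absurd (Finset.mem_univ _) h
    funext j
    obtain ⟨i, hi, hij⟩ := cover j
    have h1 := hd' i hi
    rw [dt_qv, Finset.sum_eq_zero_iff_of_nonneg (fun j' _ =>
      mul_nonneg (hd0 j') (by positivity))] at h1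
    have h2 := h1 j (Finset.mem_univ _)
    rcases mul_eq_zero.1 h2 with h | h
    · exact h
    · exact absurd (by exact_mod_cast h) hij
  obtain ⟨h2, k, hk1, hk2⟩ := (mem_maxS Δ).1 hΔ
  obtain ⟨j', k', d, hj', hk', hk'', hd1, hd2, hd3, huniq⟩ := Pool.Agent.helper11.NSR.fan
    (qv V) (fun i => 1 - ε * om i) hT.simple ρ bdd Δ hρΔ h2 k hk1 hk2 j hj hjρ
  refine ⟨j', hj', ?_, ?_, d, hd1, hd2, hd3⟩
  · rw [mem_maxS]
    refine ⟨?_, k', hk', hk''⟩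
    rw [Finset.card_insert_of_notMem (fun h => hj' (Finset.mem_of_mem_erase h)),
      Finset.card_erase_of_mem hj, h2]
    have : 0 < Δ.card := Finset.card_pos.2 ⟨j, hj⟩
    omega
  · intro Δ'' hΔ'' hsub
    obtain ⟨h4, k'', h5, h6⟩ := (mem_maxS Δ'').1 hΔ''
    exact huniq Δ'' k'' h4 hsub h5 h6

/-- Root criterion in terms of the degree map of the star of `ρ`. -/
theorem root_crit (hT : Tri V om ε) {c : ι → ℂ}
    (hc : ∀ i, c i ≠ 0) (hyp : (∀ i, om i = 0) ∨ AlgebraicIndependent ℚ c)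
    (b : Polynomial ℂ) (hb : TruncB (∑ i, monomial (V i) (c i)) b)
    (t : Finset ι → ι → ℂ) (ξ : Fin n → ℂ)
    (ht0 : ∀ Δ ∈ maxS V om ε, ∀ v ∉ Δ, t Δ v = 0) (hξ : ∀ Δ ∈ maxS V om ε, ∀ v ∈ Δ, t Δ v ≠ 0)
    (ht : ∀ Δ ∈ maxS V om ε, ∀ a, ∑ v, t Δ v * (qv V v a : ℂ) = ξ a)
    (β : ι → ℚ) (hβ : ∀ j, ∑ i, β i * (V i j : ℚ) = 1) (ha : 0 < ∑ i, β i)
    (ρ : Finset ι) (hβρ : ∀ i, i ∉ ρ → ∃ k : ℕ, β i = k)
    (cover : ∀ j : Fin n, ∃ i ∈ ρ, V i j ≠ 0)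
    (T : Finset ι) (hTm : ∀ i, i ∈ T ↔ ∃ k : ℕ, β i = k + 1) (Q : MvPolynomial ι ℂ)
    (hQ : lamD (qv V) t (maxS V om ε) ρ ((∏ i ∈ T, X i) * Q) ≠ 0) :
    b.eval (-((∑ i, β i : ℚ) : ℂ)) = 0 := by
  classical
  obtain ⟨H, iH, aH, z, hz1, hz2, hz3, hz4⟩ := Pool.Agent.helper11.NSR.exists_ring_deg
    (qv V) t ρ maxS_card ht0 hξ (maxS_li hT) ξ ht (maxS_wall hT ρ cover)
  set Vt : Finset (Finset ι) := (maxS V om ε).filter (fun Δ => ρ ⊆ Δ) with hVt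
  have hmem : ∀ Δ, Δ ∈ Vt ↔ Δ ∈ maxS V om ε ∧ ρ ⊆ Δ := by
    intro Δ; rw [hVt, Finset.mem_filter]
  have hl : ∀ Δ : Finset ι, ∃ k : Fin n → ℚ, Δ ∈ Vt → (∀ i, 1 - ε * om i ≤ dt k (qv V i)) ∧
      ∀ i, i ∈ Δ ↔ dt k (qv V i) = 1 - ε * om i := by
    intro Δ
    by_cases h : Δ ∈ Vt
    · obtain ⟨k, hk⟩ := ((mem_maxS Δ).1 ((hmem Δ).1 h).1).2
      exact ⟨k, fun _ => hk⟩
    · exact ⟨0, fun h' => absurd h' h⟩
  choose l hl using hl
  have hl' : ∀ Δ : Finset ι, ∃ k : Fin n → ℚ, Δ ∈ Vt → (∀ i, 1 ≤ dt k (qv V i)) ∧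
      ∀ i ∈ Δ, dt k (qv V i) = 1 := by
    intro Δ
    by_cases h : Δ ∈ Vt
    · obtain ⟨k, hk⟩ := hT.compat (l Δ) Δ (maxS_card Δ ((hmem Δ).1 h).1) (hl Δ h).1 (hl Δ h).2
      exact ⟨k, fun _ => hk⟩
    · exact ⟨0, fun h' => absurd h' h⟩
  choose l' hl' using hl'
  have hC : Comb V om β ρ Vt ε l l' := {
      eps_pos := hT.eps_pos
      beta_sum := hβ
      beta_nat := hβρ
      a_pos := ha
      sub := fun Δ hΔ => ((hmem Δ).1 hΔ).2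
      li := fun Δ hΔ => maxS_li hT Δ ((hmem Δ).1 hΔ).1
      l_eq := fun Δ hΔ i hi => ((hl Δ hΔ).2 i).1 hi
      l_lt := fun Δ hΔ i hi => lt_of_le_of_ne ((hl Δ hΔ).1 i)
        (fun h => hi (((hl Δ hΔ).2 i).2 h.symm))
      l'_eq := fun Δ hΔ i hi => (hl' Δ hΔ).2 i hi
      l'_le := fun Δ hΔ i => (hl' Δ hΔ).1 i
      l'_pos := fun Δ hΔ => pos_of_conv hT _ (hl' Δ hΔ).1 }
  have hR : CRing V β ρ Vt z := {
      lin := by
        intro j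
        have h1 := hz1 j
        rw [← h1]
        refine Finset.sum_congr rfl fun i _ => ?_
        simp [qv]
      sr := by
        intro S _ hS
        refine hz2 S fun Δ hΔ hρΔ => hS Δ ((hmem Δ).2 ⟨hΔ, hρΔ⟩)
      nil := hz3
      top := by
        intro T' hT'
        have h1 : T' = T := by
          ext i; rw [hT', hTm]
        rw [h1]
        intro h0
        have h2 : aeval z (∏ i ∈ T, X i : MvPolynomial ι ℂ) = 0 := by
          rw [map_prod]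
          simpa using h0
        exact hQ ((hz4 _).1 h2 Q) }
  exact root_main hc hyp b hb hC hR

end

end Pool.Agent.helper14.NS
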