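import Pool.Agent.helper4.NS.Prog
import Pool.Agent.helper63.NF.Cert

/-!
# The certificates of a piece, S form

Boxes: `be` for ε, `bb` for `b` (or its parameter `t`), `bA` for `s ∈ [0, S]`, `bB` for
`g ∈ [0, 1/S]`, `bC` for `[0, 1]`, `bD` for `[0, π/2]`, `bv` for `v ∈ [v1, ve]`.
-/

namespace Pool.Agent.helper4.NS

open Pool.Agent.helper31.IA (Z)
open Pool.Agent.helper31.IX (Op Cov CovD)
open Pool.Agent.helper63.NF

/-- the program of the near node `n` -/
def PSn (t : TD) (N0 n : ℕ) : List St := bif Nat.blt (n + 1) N0 then PSm t n else PSl t n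

/-- the outer arc, second half: E if `Y ≥ 0`, F if `Y < 0` -/
def cEF (t : TD) (n : ℕ) : List St := bif decide (nth 0 t.y (n - 1) < 0) then cF t n else cE t n

def oEF (t : TD) (n : ℕ) : List St := bif decide (nth 0 t.y (n - 1) < 0) then oF t n else oE t n

def alA (t : TD) (n : ℕ) : List (List Op) :=
  altP (cA t n) (oCut t n) :: bif t.strip then [altP (cA t n) (oIn t)] else []
def alB (t : TD) (n : ℕ) : List (List Op) := [altP (cB t n) (oCut t n)]
def alC (t : TD) (n : ℕ) : List (List Op) := [comp (oC t n) ρ4 4]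
def alD (t : TD) (n : ℕ) : List (List Op) := [comp (oD t n) ρ4 4]
def alE (t : TD) (n : ℕ) : List (List Op) := [comp (oEF t n) ρ4 4]

/-- `t_n > 0`, the radius before node `n + 1` is less than one, `K² + Y_n ε² > 0` -/
def smallQ (t : TD) : ℕ → List St
  | 0 => []
  | n + 1 => smallQ t n ++ [.pos (q2E t.Lt 0 (nth [] t.t n)),
      .pos (.add (.r 20) (.c (zi (nth 0 t.y n))))] ++ geS t (n + 1) ++ [.pos (.r 24)]

/-- the entry condition `exp (-2 N0 κ) (1 + K s) < exp (-2 κ x0)`, `x2 = 2 (x0 + 1)`; in a strip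
`2 (N0 - x0) exp w (1 + w²/6) > s (1 + c κ²)`, `w = (N0 - x0) κ` -/
def entQ (t : TD) (N0 : ℕ) : List St :=
  bif t.strip then
    [.set 30 (.sc (zi ((2 * N0 + 2 : ℕ) * 1099511627776 - t.x2)) (.r 6)),
     .pos (.sub
       (.sc (zi ((2 * N0 + 2 : ℕ) * 1099511627776 - t.x2)) (.mul (.exp (.r 30))
         (.add (.sc (zi 183251937962) (.mul (.r 30) (.r 30))) (.r 22))))
       (.mul (.r 19) (.add (.sc (zi 737405800448) (.r 15)) (.r 22))))]
  else
    [.lt (.mul (.add (.mul (.mul (.r 0) (.r 18)) (.r 19)) (.r 22))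
       (.exp (.neg (.sc (zi (2 * ((2 * N0 + 2 : ℕ) * 1099511627776 - t.x2))) (.r 6))))) THA]

/-- small conditions, inputs `ε`, `b` -/
def PSS (t : TD) (N0 : ℕ) : List Op :=
  comp (basS t ++
    ([.set (mreg 1 0) (.sub (.r 0) (.c (zi t.ec))),
      .set (mreg 0 1) (bif t.bc == 0 then .r 4 else .sub (.r 4) (.c (zi t.bc)))] ++
      (monos [] t.Lt ++ (smallQ t N0 ++ entQ t N0)))) ρ2 2

/-- the certificates of the circles and of the cut; `ve` the end of the start segment -/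
structure CertsS (t : TD) (N0 : ℕ) (ve : ℤ) (be bb bA bB bC bD bv : ℕ × ℕ) : Prop where
  A : ∀ n, 1 ≤ n → n < N0 → CovD 1 (circ (cA t n) (PSn t N0 n) :: alA t n) [be, bb, bA]
  B : ∀ n, 1 ≤ n → n < N0 → CovD 1 (circ (cB t n) (PSn t N0 n) :: alB t n) [be, bb, bB]
  C : t.strip = true → ∀ n, 1 ≤ n → n < N0 →
    CovD 1 (circ (cC t) (PSn t N0 n) :: alC t n) [be, bb, bC]
  D : ∀ n, 1 ≤ n → n < N0 → CovD 1 (circ (cD t n) (PSn t N0 n) :: alD t n) [be, bb, bD]
  E : ∀ n, 1 ≤ n → n < N0 → CovD 1 (circ (cEF t n) (PSn t N0 n) :: alE t n) [be, bb, bD]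
  Z : CovD 1 [comp (PS0 t) ρ4 4] [be, bb, bv]
  T : CovD 1 [comp (PST t ve) ρ3 3] [be, bb]
  S : CovD 0 [PSS t N0] [be, bb]

end Pool.Agent.helper4.NS
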