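import Pool.Agent.helper14.NS.Q20a.Pc
import Pool.Agent.helper14.NS.Q20b.Pc
import Pool.Agent.helper14.NS.Q20c.Pc
import Pool.Agent.helper14.NS.Q20d.Pc
import Pool.Agent.helper14.NS.Q20e.Pc

/-!
# The near field for `20 ≤ e ≤ 30`: the cover
-/

namespace Pool.Agent.helper14.NS

open Pool.Agent.helper31.EQ.R
open Pool.Agent.helper12.RS
open Pool.Agent.helper63.NF hiding TD
open Pool.Agent.helper4.NS
open Pool.Agent.helper71.FG (Ag)

variable {e κ : ℝ}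

theorem near_20 (h1 : (20 : ℝ) ≤ e) (h2 : e ≤ 30) (hκ : 0 < κ)
    (hd : 2 * (Real.cosh κ - 1) / Real.cosh (e * κ / 2) ^ (2 / e) < 4 ^ (1 / e) - 1)
    (c0 : e * κ / 2 ≤ 1 / 4 → SF Q20a.tab 6 e κ (39 / 10) →
      Corner Q20a.tab 6 e κ (1 / 8) (1 / 20))
    (far : FarX e κ (Ag e κ)) : Nonempty (RDataF e κ) := by
  rcases le_total (e * κ / 2) (1 / 4) with b0 | b0
  · exact Q20a.piece h1 h2 hκ b0 (c0 b0) far
  rcases le_total (e * κ / 2) (1 / 2) with b1 | b1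
  · exact Q20b.piece h1 h2 hκ b0 b1 far
  rcases le_total (e * κ / 2) (1) with b2 | b2
  · exact Q20c.piece h1 h2 hκ b1 b2 far
  rcases le_total (e * κ / 2) (2) with b3 | b3
  · exact Q20d.piece h1 h2 hκ b2 b3 far
  · exact Q20e.piece h1 h2 hκ b3 hd far

end Pool.Agent.helper14.NS
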