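import Mathlib
import Pool.Agent.helper14.NS.Crit

/-! The root criterion in terms of the Moebius inversion of the normalised volumes. -/

namespace Pool.Agent.helper14.NS

open MvPolynomial
open Pool.Agent.helper67.ND
open Pool.Agent.helper11.NSR (dt lamD)

section Moebius

variable {ι : Type} [Fintype ι] [DecidableEq ι] {R : Type} [CommRing R]

/-- Moebius inversion on the lattice of finite subsets. -/
def moeb (g : Finset ι → R) (S : Finset ι) : R :=
  ∑ F ∈ S.powerset, (-1) ^ (S.card + F.card) * g F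

omit [Fintype ι] in
lemma moeb_sum (g : Finset ι → R) (F : Finset ι) : ∑ S ∈ F.powerset, moeb g S = g F := by
  classical
  unfold moeb
  -- swap the sums
  have h1 : ∑ S ∈ F.powerset, ∑ E ∈ S.powerset, (-1) ^ (S.card + E.card) * g E =
      ∑ E ∈ F.powerset, ∑ S ∈ F.powerset.filter (fun S => E ⊆ S),
        (-1) ^ (S.card + E.card) * g E := by
    rw [Finset.sum_comm']
    intro S E
    simp only [Finset.mem_powerset, Finset.mem_filter]
    constructor
    · rintro ⟨h1, h2⟩; exact ⟨⟨h1, h2⟩, h2.trans h1⟩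
    · rintro ⟨⟨h1, h2⟩, -⟩; exact ⟨h1, h2⟩
  rw [h1, Finset.sum_eq_single F]
  · have h2 : F.powerset.filter (fun S => F ⊆ S) = {F} := by
      ext S
      simp only [Finset.mem_filter, Finset.mem_powerset, Finset.mem_singleton]
      constructor
      · rintro ⟨h, h'⟩; exact Finset.Subset.antisymm h h'
      · rintro rfl; exact ⟨Finset.Subset.refl _, Finset.Subset.refl _⟩
    rw [h2, Finset.sum_singleton, ← two_mul, pow_mul]
    simp
  · intro E hE hne
    rw [Finset.mem_powerset] at hE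
    have hss : E ⊂ F := lt_of_le_of_ne hE hne
    have h3 : ∑ S ∈ F.powerset.filter (fun S => E ⊆ S), (-1 : R) ^ (S.card + E.card) * g E =
        ∑ D ∈ (F \ E).powerset, (-1) ^ D.card * g E := by
      symm
      refine Finset.sum_bij (fun D _ => E ∪ D) ?_ ?_ ?_ ?_
      · intro D hD
        rw [Finset.mem_powerset] at hD
        rw [Finset.mem_filter, Finset.mem_powerset]
        exact ⟨Finset.union_subset hE (hD.trans Finset.sdiff_subset), Finset.subset_union_left⟩
      · intro D hD D' hD' h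
        rw [Finset.mem_powerset] at hD hD'
        have hd : Disjoint E D := Finset.disjoint_of_subset_right hD Finset.disjoint_sdiff
        have hd' : Disjoint E D' := Finset.disjoint_of_subset_right hD' Finset.disjoint_sdiff
        have e1 : (E ∪ D) \ E = D := Finset.union_sdiff_cancel_left hd
        have e2 : (E ∪ D') \ E = D' := Finset.union_sdiff_cancel_left hd'
        rw [← e1, ← e2, h]
      · intro S hS
        rw [Finset.mem_filter, Finset.mem_powerset] at hS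
        refine ⟨S \ E, Finset.mem_powerset.2 (Finset.sdiff_subset_sdiff hS.1 (Finset.Subset.refl _)),
          Finset.union_sdiff_of_subset hS.2⟩
      · intro D hD
        rw [Finset.mem_powerset] at hD
        have hd : Disjoint E D := Finset.disjoint_of_subset_right hD Finset.disjoint_sdiff
        rw [Finset.card_union_of_disjoint hd]
        have : (-1 : R) ^ (E.card + D.card + E.card) = (-1) ^ D.card := by
          have h4 : E.card + D.card + E.card = 2 * E.card + D.card := by ring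
          rw [h4, pow_add, pow_mul]; simp
        rw [this]
    rw [h3, ← Finset.sum_mul]
    have h4 : ∑ D ∈ (F \ E).powerset, (-1 : R) ^ D.card = 0 := by
      have h5 := Finset.prod_add (fun _ : ι => (-1 : R)) (fun _ => 1) (F \ E)
      simp only [Finset.prod_const, one_pow, mul_one] at h5
      rw [← h5, neg_add_cancel, zero_pow]
      intro h0
      have h6 : F \ E = ∅ := Finset.card_eq_zero.1 h0
      exact hss.not_subset (Finset.sdiff_eq_empty_iff_subset.1 h6)
    rw [h4, zero_mul]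
  · intro h; exact absurd (Finset.mem_powerset_self F) h

/-- rewriting of an alternating sum over subsets -/
lemma moeb_expand (g : Finset ι → R) (y : ι → R) :
    ∑ F : Finset ι, (-1) ^ F.card * g F * ∏ i ∈ F, y i =
      ∑ S : Finset ι, (-1) ^ S.card * moeb g S * ((∏ i ∈ S, y i) * ∏ i ∈ Sᶜ, (1 - y i)) := by
  classical
  have h1 : ∀ S : Finset ι, (-1 : R) ^ S.card * moeb g S * ((∏ i ∈ S, y i) *
      ∏ i ∈ Sᶜ, (1 - y i)) = ∑ D ∈ Sᶜ.powerset, (-1) ^ (S ∪ D).card * moeb g S *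
        ∏ i ∈ S ∪ D, y i := by
    intro S
    have h2 : ∏ i ∈ Sᶜ, (1 - y i) = ∑ D ∈ Sᶜ.powerset, (-1) ^ D.card * ∏ i ∈ D, y i := by
      have h3 := Finset.prod_add (fun i => -y i) (fun _ : ι => (1 : R)) Sᶜ
      have h4 : ∏ i ∈ Sᶜ, (1 - y i) = ∏ i ∈ Sᶜ, (-y i + 1) :=
        Finset.prod_congr rfl fun i _ => by ring
      rw [h4, h3]
      refine Finset.sum_congr rfl fun D _ => ?_
      rw [Finset.prod_const_one, mul_one, Finset.prod_neg]
    rw [h2, Finset.mul_sum, Finset.mul_sum]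
    refine Finset.sum_congr rfl fun D hD => ?_
    rw [Finset.mem_powerset] at hD
    have hd : Disjoint S D := Finset.disjoint_of_subset_right hD disjoint_compl_right
    rw [Finset.card_union_of_disjoint hd, Finset.prod_union hd, pow_add]
    ring
  rw [Finset.sum_congr rfl fun S _ => h1 S]
  have h2 : ∀ F : Finset ι, (-1 : R) ^ F.card * g F * ∏ i ∈ F, y i =
      ∑ S ∈ F.powerset, (-1) ^ F.card * moeb g S * ∏ i ∈ F, y i := by
    intro F
    rw [← Finset.sum_mul, ← Finset.mul_sum, moeb_sum]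
  rw [Finset.sum_congr rfl fun F _ => h2 F]
  rw [Finset.sum_sigma', Finset.sum_sigma']
  refine Finset.sum_bij' (fun x _ => ⟨x.2, x.1 \ x.2⟩) (fun x _ => ⟨x.1 ∪ x.2, x.1⟩) ?_ ?_ ?_ ?_ ?_
  · rintro ⟨F, S⟩ h
    simp only [Finset.mem_sigma, Finset.mem_univ, true_and, Finset.mem_powerset] at h ⊢
    intro i hi
    rw [Finset.mem_compl]
    exact (Finset.mem_sdiff.1 hi).2
  · rintro ⟨S, D⟩ h
    simp only [Finset.mem_sigma, Finset.mem_univ, true_and, Finset.mem_powerset] at h ⊢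
    exact Finset.subset_union_left
  · rintro ⟨F, S⟩ h
    simp only [Finset.mem_sigma, Finset.mem_univ, true_and, Finset.mem_powerset] at h
    simp only [Finset.union_sdiff_of_subset h]
  · rintro ⟨S, D⟩ h
    simp only [Finset.mem_sigma, Finset.mem_univ, true_and, Finset.mem_powerset] at h
    have hd : Disjoint S D := Finset.disjoint_of_subset_right h disjoint_compl_right
    simp only [Finset.union_sdiff_cancel_left hd]
  · rintro ⟨F, S⟩ h
    simp only [Finset.mem_sigma, Finset.mem_univ, true_and, Finset.mem_powerset] at h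
    simp only [Finset.union_sdiff_of_subset h]

omit [Fintype ι] in
/-- the Moebius inversion vanishes on sets with a cone point -/
lemma moeb_eq_zero (g : Finset ι → R) (S : Finset ι) (v : ι) (hv : v ∈ S)
    (h : ∀ F ⊆ S.erase v, g (insert v F) = g F) : moeb g S = 0 := by
  classical
  unfold moeb
  obtain ⟨A, hA, hvA⟩ : ∃ A, S = insert v A ∧ v ∉ A :=
    ⟨S.erase v, (Finset.insert_erase hv).symm, Finset.notMem_erase _ _⟩
  have hSA : S.erase v = A := by rw [hA, Finset.erase_insert hvA]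
  rw [hA, Finset.sum_powerset_insert hvA, ← Finset.sum_add_distrib]
  refine Finset.sum_eq_zero fun F hF => ?_
  rw [Finset.mem_powerset] at hF
  have hvF : v ∉ F := fun h' => hvA (hF h')
  rw [Finset.card_insert_of_notMem hvF, h F (by rw [hSA]; exact hF)]
  have : (-1 : R) ^ ((insert v A).card + (F.card + 1)) = -(-1) ^ ((insert v A).card + F.card) := by
    rw [← add_assoc, pow_succ]; ring
  rw [this]; ring

end Moebius

section

variable {n : ℕ} {ι : Type} [Fintype ι] [DecidableEq ι] {V : ι → Fin n →₀ ℕ} {om : ι → ℤ} {ε : ℚ}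

theorem root_S (hT : Tri V om ε) {c : ι → ℂ}
    (hc : ∀ i, c i ≠ 0) (hyp : (∀ i, om i = 0) ∨ AlgebraicIndependent ℚ c)
    (b : Polynomial ℂ) (hb : TruncB (∑ i, monomial (V i) (c i)) b)
    (t : Finset ι → ι → ℂ) (ξ : Fin n → ℂ)
    (ht0 : ∀ Δ ∈ maxS V om ε, ∀ v ∉ Δ, t Δ v = 0) (hξ : ∀ Δ ∈ maxS V om ε, ∀ v ∈ Δ, t Δ v ≠ 0)
    (ht : ∀ Δ ∈ maxS V om ε, ∀ a, ∑ v, t Δ v * (qv V v a : ℂ) = ξ a)
    (β : ι → ℚ) (hβ : ∀ j, ∑ i, β i * (V i j : ℚ) = 1) (ha : 0 < ∑ i, β i)
    (σ : Finset ι) (hσ : ∀ i, i ∈ σ ↔ β i ≠ 0) (S : Finset ι)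
    (hS : ¬ ∃ j : Fin n, ∃ i ∈ S, V i j = 1 ∧ ∀ i' ∈ S, i' ≠ i → V i' j = 0)
    (Q : MvPolynomial ι ℂ)
    (hQ : lamD (qv V) t (maxS V om ε) σ ((∏ i ∈ S \ σ, X i) *
      ((∏ i ∈ (σ \ S).filter (fun i => β i = 1), X i) * Q)) ≠ 0) :
    b.eval (-((∑ i, β i : ℚ) : ℂ)) = 0 := by
  classical
  set U : Finset ι := (σ \ S).filter (fun i => β i = 1) with hU
  set ρ₂ : Finset ι := σ ∪ (S \ σ) with hρ₂
  set T' : Finset ι := ρ₂.filter (fun i => (∃ k : ℕ, β i = k + 1) ∧ (i ∈ S ∨ β i ≠ 1)) with hT'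
  set ρ : Finset ι := ρ₂ \ T' with hρ
  set T : Finset ι := Finset.univ.filter (fun i => ∃ k : ℕ, β i = k + 1) with hTdef
  have hTm : ∀ i, i ∈ T ↔ ∃ k : ℕ, β i = k + 1 := by intro i; simp [hTdef]
  have hpos1 : ∀ k : ℕ, ((k : ℚ) + 1) ≠ 0 := fun k => by positivity
  have hTσ : ∀ i, (∃ k : ℕ, β i = k + 1) → i ∈ σ := by
    rintro i ⟨k, hk⟩
    rw [hσ, hk]; exact hpos1 k
  have hTU : T = T' ∪ U := by
    ext i
    rw [hTm, Finset.mem_union, hT', hU, Finset.mem_filter, Finset.mem_filter, Finset.mem_sdiff]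
    constructor
    · intro h
      have hi := hTσ i h
      by_cases h1 : i ∈ S ∨ β i ≠ 1
      · exact Or.inl ⟨Finset.mem_union_left _ hi, h, h1⟩
      · push Not at h1
        exact Or.inr ⟨⟨hi, h1.1⟩, h1.2⟩
    · rintro (h | h)
      · exact h.2.1
      · exact ⟨0, by rw [h.2]; norm_num⟩
  have hdisj : Disjoint U T' := by
    rw [Finset.disjoint_left]
    intro i hi hi'
    rw [hU, Finset.mem_filter, Finset.mem_sdiff] at hi
    rw [hT', Finset.mem_filter] at hi'
    rcases hi'.2.2 with h | h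
    · exact hi.1.2 h
    · exact h hi.2
  -- the degree maps
  have e1 := Pool.Agent.helper11.NSR.lamD_mul_prod (qv V) t σ maxS_card ht0 hξ (S \ σ)
    Finset.sdiff_disjoint ((∏ i ∈ U, X i) * Q)
  have e2 := Pool.Agent.helper11.NSR.lamD_mul_prod (qv V) t ρ maxS_card ht0 hξ T'
    Finset.disjoint_sdiff ((∏ i ∈ U, X i) * Q)
  have hT'sub : T' ⊆ ρ₂ := Finset.filter_subset _ _
  rw [hρ, Finset.sdiff_union_of_subset hT'sub] at e2
  rw [← hρ₂] at e1
  rw [mul_comm (∏ i ∈ S \ σ, X i), e1, ← e2] at hQ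
  have e3 : ((∏ i ∈ U, X i) * Q) * ∏ i ∈ T', (X i : MvPolynomial ι ℂ) =
      (∏ i ∈ T, X i) * Q := by
    rw [hTU, Finset.union_comm, Finset.prod_union hdisj]; ring
  rw [e3, ← hρ] at hQ
  refine root_crit hT hc hyp b hb t ξ ht0 hξ ht β hβ ha ρ ?_ ?_ T hTm Q hQ
  · intro i hi
    by_cases h : i ∈ σ
    · have h1 : i ∈ T' := by
        by_contra h2
        exact hi (Finset.mem_sdiff.2 ⟨Finset.mem_union_left _ h, h2⟩)
      obtain ⟨k, hk⟩ := (Finset.mem_filter.1 h1).2.1
      exact ⟨k + 1, by rw [hk]; push_cast; ring⟩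
    · refine ⟨0, ?_⟩
      by_contra h1
      exact h ((hσ i).2 (by simpa using h1))
  · -- covering
    intro j
    by_contra hcon
    push Not at hcon
    have hcase : ∀ i, β i ≠ 0 → V i j ≠ 0 → i ∈ T' := by
      intro i hi hVi
      by_contra h2
      exact hVi (hcon i (Finset.mem_sdiff.2 ⟨Finset.mem_union_left _ ((hσ i).2 hi), h2⟩))
    have hterm : ∀ i, 0 ≤ β i * (V i j : ℚ) := by
      intro i
      by_cases h1 : β i ≠ 0 ∧ V i j ≠ 0
      · obtain ⟨k, hk⟩ := (Finset.mem_filter.1 (hcase i h1.1 h1.2)).2.1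
        rw [hk]; positivity
      · rw [not_and_or, not_not, not_not] at h1
        rcases h1 with h1 | h1
        · rw [h1, zero_mul]
        · rw [h1]; simp
    obtain ⟨i₀, hi₀⟩ : ∃ i, β i * (V i j : ℚ) ≠ 0 := by
      by_contra hall
      push Not at hall
      have h1 := hβ j
      rw [Finset.sum_eq_zero fun i _ => hall i] at h1
      exact zero_ne_one h1
    have hV0 : V i₀ j ≠ 0 := by
      intro h; rw [h] at hi₀; simp at hi₀
    have hβ00 : β i₀ ≠ 0 := by intro h; rw [h] at hi₀; simp at hi₀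
    have hi₀T := hcase i₀ hβ00 hV0
    obtain ⟨k, hk⟩ := (Finset.mem_filter.1 hi₀T).2.1
    have hge : (1 : ℚ) ≤ V i₀ j := by exact_mod_cast Nat.one_le_iff_ne_zero.2 hV0
    have hk0 : (0 : ℚ) ≤ k := by positivity
    have hsplit : β i₀ * (V i₀ j : ℚ) + ∑ i ∈ Finset.univ.erase i₀, β i * (V i j : ℚ) = 1 := by
      rw [Finset.add_sum_erase Finset.univ (fun i => β i * (V i j : ℚ)) (Finset.mem_univ i₀)]
      exact hβ j
    have hrest : 0 ≤ ∑ i ∈ Finset.univ.erase i₀, β i * (V i j : ℚ) :=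
      Finset.sum_nonneg fun i _ => hterm i
    have hle : β i₀ * (V i₀ j : ℚ) ≤ 1 := by linarith
    rw [hk] at hle
    have hk00 : (k : ℚ) = 0 := by nlinarith
    have hβ1 : β i₀ = 1 := by rw [hk, hk00]; norm_num
    have hone : (V i₀ j : ℚ) = 1 := by
      rw [hk00] at hle; linarith
    have hrest0 : ∑ i ∈ Finset.univ.erase i₀, β i * (V i j : ℚ) = 0 := by
      rw [hβ1, hone] at hsplit; linarith
    have hi₀S : i₀ ∈ S := by
      rcases (Finset.mem_filter.1 hi₀T).2.2 with h | h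
      · exact h
      · exact absurd hβ1 h
    refine hS ⟨j, i₀, hi₀S, by exact_mod_cast hone, fun u hu hne => ?_⟩
    by_contra hu0
    have huρ : u ∈ ρ₂ := by
      rw [hρ₂, Finset.mem_union, Finset.mem_sdiff]
      by_cases h : u ∈ σ
      · exact Or.inl h
      · exact Or.inr ⟨hu, h⟩
    have huT : u ∈ T' := by
      by_contra h2
      exact hu0 (hcon u (Finset.mem_sdiff.2 ⟨huρ, h2⟩))
    obtain ⟨k', hk'⟩ := (Finset.mem_filter.1 huT).2.1
    have hz := (Finset.sum_eq_zero_iff_of_nonneg (fun i _ => hterm i)).1 hrest0 u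
      (Finset.mem_erase.2 ⟨hne, Finset.mem_univ _⟩)
    rw [hk'] at hz
    have h3 : (V u j : ℚ) ≠ 0 := by exact_mod_cast hu0
    exact (mul_ne_zero (hpos1 k') h3) hz

/-- The criterion in terms of the alternating sum of squares of normalised volumes. -/
theorem root_c (hT : Tri V om ε) {c : ι → ℂ}
    (hc : ∀ i, c i ≠ 0) (hyp : (∀ i, om i = 0) ∨ AlgebraicIndependent ℚ c)
    (b : Polynomial ℂ) (hb : TruncB (∑ i, monomial (V i) (c i)) b)
    (t : Finset ι → ι → ℂ) (ξ : Fin n → ℂ)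
    (ht0 : ∀ Δ ∈ maxS V om ε, ∀ v ∉ Δ, t Δ v = 0) (hξ : ∀ Δ ∈ maxS V om ε, ∀ v ∈ Δ, t Δ v ≠ 0)
    (ht : ∀ Δ ∈ maxS V om ε, ∀ a, ∑ v, t Δ v * (qv V v a : ℂ) = ξ a)
    (β : ι → ℚ) (hβ : ∀ j, ∑ i, β i * (V i j : ℚ) = 1) (ha : 0 < ∑ i, β i)
    (σ : Finset ι) (hσ : ∀ i, i ∈ σ ↔ β i ≠ 0) (g : Finset ι → ℂ)
    (hg : ∀ (j : Fin n) (F : Finset ι) (v : ι), v ∉ F → V v j = 1 → (∀ u ∈ F, V u j = 0) →
      g (insert v F) = g F)
    (Q : MvPolynomial ι ℂ)
    (hQ : lamD (qv V) t (maxS V om ε) σ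
      ((∑ F : Finset ι, (-1) ^ F.card * C (g F) * ∏ i ∈ F, (C (β i : ℂ) + X i)) * Q) ≠ 0) :
    b.eval (-((∑ i, β i : ℚ) : ℂ)) = 0 := by
  classical
  have cover : ∀ j : Fin n, ∃ i ∈ σ, V i j ≠ 0 := by
    intro j
    by_contra hcon
    push Not at hcon
    have h1 := hβ j
    rw [Finset.sum_eq_zero] at h1
    · exact zero_ne_one h1
    · intro i _
      by_cases hi : i ∈ σ
      · rw [hcon i hi]; simp
      · have : β i = 0 := by
          by_contra h; exact hi ((hσ i).2 h)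
        rw [this, zero_mul]
  obtain ⟨H, iH, aH, z, hz1, hz2, hz3, hz4⟩ := Pool.Agent.helper11.NSR.exists_ring_deg
    (qv V) t σ maxS_card ht0 hξ (maxS_li hT) ξ ht (maxS_wall hT σ cover)
  rw [moeb_expand (fun F => C (g F)) (fun i => C (β i : ℂ) + X i), Finset.sum_mul, map_sum] at hQ
  obtain ⟨S, -, hS⟩ := Finset.exists_ne_zero_of_sum_ne_zero hQ
  -- `S` has no apex
  have hSa : ¬ ∃ j : Fin n, ∃ i ∈ S, V i j = 1 ∧ ∀ i' ∈ S, i' ≠ i → V i' j = 0 := by
    rintro ⟨j, i, hi, hij, hrest⟩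
    have h0 : moeb (fun F => (C (g F) : MvPolynomial ι ℂ)) S = 0 := by
      refine moeb_eq_zero _ S i hi fun F hF => ?_
      have hiF : i ∉ F := fun h => Finset.notMem_erase i S (hF h)
      rw [hg j F i hiF hij fun u hu => ?_]
      have := hF hu
      exact hrest u (Finset.mem_of_mem_erase this) (Finset.ne_of_mem_erase this)
    rw [h0] at hS
    simp at hS
  set U : Finset ι := (σ \ S).filter (fun i => β i = 1) with hU
  -- the product is a unit times a monomial
  set y : ι → MvPolynomial ι ℂ := fun i => C (β i : ℂ) + X i with hy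
  have hyz : ∀ i, aeval z (y i) = algebraMap ℂ H (β i : ℂ) + z i := by
    intro i; simp [hy]
  have hunit : ∀ (r : ℂ) (x : H), r ≠ 0 → IsNilpotent x → IsUnit (algebraMap ℂ H r + x) := by
    intro r x hr hx
    exact hx.isUnit_add_left_of_commute ((IsUnit.mk0 r hr).map _) (Commute.all _ _)
  have hfac1 : ∀ i, ∃ u : H, IsUnit u ∧
      aeval z (y i) = u * (if i ∈ σ then 1 else z i) := by
    intro i
    by_cases hi : i ∈ σ
    · refine ⟨aeval z (y i), ?_, by rw [if_pos hi, mul_one]⟩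
      rw [hyz]
      exact hunit _ _ (by exact_mod_cast (hσ i).1 hi) (hz3 i)
    · refine ⟨1, isUnit_one, ?_⟩
      have h0 : β i = 0 := by by_contra h; exact hi ((hσ i).2 h)
      rw [if_neg hi, hyz, h0]; simp
  have hfac2 : ∀ i, ∃ u : H, IsUnit u ∧
      aeval z (1 - y i) = u * (if β i = 1 then z i else 1) := by
    intro i
    have h1 : aeval z (1 - y i) = algebraMap ℂ H (1 - (β i : ℂ)) + -z i := by
      rw [map_sub, hyz, map_one, map_sub, map_one]; ring
    by_cases hi : β i = 1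
    · refine ⟨-1, isUnit_one.neg, ?_⟩
      rw [h1, hi, if_pos rfl]; simp
    · refine ⟨aeval z (1 - y i), ?_, by rw [if_neg hi, mul_one]⟩
      rw [h1]
      refine hunit _ _ ?_ (hz3 i).neg
      rw [sub_ne_zero]
      exact fun h => hi (by exact_mod_cast h.symm)
  choose u1 hu1 hu1' using hfac1
  choose u2 hu2 hu2' using hfac2
  have hprod : aeval z ((∏ i ∈ S, y i) * ∏ i ∈ Sᶜ, (1 - y i)) =
      ((∏ i ∈ S, u1 i) * ∏ i ∈ Sᶜ, u2 i) *
        ((∏ i ∈ S \ σ, z i) * ∏ i ∈ U, z i) := by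
    rw [map_mul, map_prod, map_prod, Finset.prod_congr rfl fun i _ => hu1' i,
      Finset.prod_congr rfl fun i _ => hu2' i, Finset.prod_mul_distrib, Finset.prod_mul_distrib]
    have e1 : ∏ i ∈ S, (if i ∈ σ then (1 : H) else z i) = ∏ i ∈ S \ σ, z i := by
      rw [Finset.sdiff_eq_filter, Finset.prod_filter]
      exact Finset.prod_congr rfl fun i _ => by by_cases h : i ∈ σ <;> simp [h]
    have e2 : ∏ i ∈ Sᶜ, (if β i = 1 then z i else (1 : H)) = ∏ i ∈ U, z i := by
      rw [← Finset.prod_filter]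
      refine Finset.prod_congr ?_ fun _ _ => rfl
      ext i
      rw [hU, Finset.mem_filter, Finset.mem_filter, Finset.mem_compl, Finset.mem_sdiff]
      constructor
      · rintro ⟨h1, h2⟩
        exact ⟨⟨(hσ i).2 (by rw [h2]; exact one_ne_zero), h1⟩, h2⟩
      · rintro ⟨⟨-, h1⟩, h2⟩
        exact ⟨h1, h2⟩
    rw [e1, e2]; ring
  have hne : aeval z ((∏ i ∈ S \ σ, X i) * ∏ i ∈ U, (X i : MvPolynomial ι ℂ)) ≠ 0 := by
    intro h0
    have h1 : aeval z ((-1) ^ S.card * moeb (fun F => C (g F)) S *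
        ((∏ i ∈ S, y i) * ∏ i ∈ Sᶜ, (1 - y i)) : MvPolynomial ι ℂ) = 0 := by
      rw [map_mul, hprod]
      have h2 : (∏ i ∈ S \ σ, z i) * ∏ i ∈ U, z i = 0 := by
        rw [map_mul, map_prod, map_prod] at h0
        simpa using h0
      rw [h2, mul_zero, mul_zero]
    exact hS ((hz4 _).1 h1 Q)
  rw [Ne, hz4] at hne
  push Not at hne
  obtain ⟨Q', hQ'⟩ := hne
  refine root_S hT hc hyp b hb t ξ ht0 hξ ht β hβ ha σ hσ S hSa Q' ?_
  rw [← mul_assoc]
  exact hQ'

end

end Pool.Agent.helper14.NS
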