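import Pool.Agent.helper14.NS.Cov20
import Pool.Agent.helper14.NS.Cov30
import Pool.Agent.helper12.K20.All
import Pool.Agent.helper12.K30.All
import Pool.Agent.helper14.NS.FarS50

/-!
# The record for `20 ≤ e ≤ 45`
-/

namespace Pool.Agent.helper14.NS

open Pool.Agent.helper31.EQ Pool.Agent.helper31.EQ.R
open Pool.Agent.helper12.RS
open Pool.Agent.helper63.NF hiding TD
open Pool.Agent.helper4.NS
open Pool.Agent.helper71.FG (Ag)

variable {e κ : ℝ}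

theorem rd_20 (h1 : (20 : ℝ) ≤ e) (h2 : e ≤ 30) (hκ : 0 < κ)
    (hd : 2 * (Real.cosh κ - 1) / Real.cosh (e * κ / 2) ^ (2 / e) < 4 ^ (1 / e) - 1) :
    Nonempty (RDataF e κ) :=
  near_20 h1 h2 hκ hd
    (fun hb hS => Pool.Agent.helper12.K20.corner h1 h2 hκ hb hS)
    (farX50 (by linarith) (by linarith) hκ hd)

theorem rd_30 (h1 : (30 : ℝ) ≤ e) (h2 : e ≤ 45) (hκ : 0 < κ)
    (hd : 2 * (Real.cosh κ - 1) / Real.cosh (e * κ / 2) ^ (2 / e) < 4 ^ (1 / e) - 1) :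
    Nonempty (RDataF e κ) :=
  near_30 h1 h2 hκ hd
    (fun hb hS => Pool.Agent.helper12.K30.corner h1 h2 hκ hb hS)
    (farX50 (by linarith) (by linarith) hκ hd)

/-- **The record, `20 ≤ e ≤ 45`.** -/
theorem rdataS (h1 : 20 ≤ e) (h2 : e ≤ 45) (hκ : 0 < κ)
    (hd : 2 * (Real.cosh κ - 1) / Real.cosh (e * κ / 2) ^ (2 / e) < 4 ^ (1 / e) - 1) :
    Nonempty (RDataF e κ) := by
  rcases le_total e 30 with a0 | a0
  · exact rd_20 h1 a0 hκ hd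
  · exact rd_30 a0 h2 hκ hd

/-- **Traps, `20 ≤ e ≤ 45`.** -/
theorem trapS (h1 : 20 ≤ e) (h2 : e ≤ 45) (hκ : 0 < κ)
    (hd : 2 * (Real.cosh κ - 1) / Real.cosh (e * κ / 2) ^ (2 / e) < 4 ^ (1 / e) - 1) :
    Nonempty (SeqTrap e (Real.exp κ)) := by
  obtain ⟨W⟩ := rdataS h1 h2 hκ hd
  exact W.nonempty_seqTrap (by linarith) hκ

end Pool.Agent.helper14.NS
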