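import Pool.Agent.helper31.EQB.Fin
import Pool.Agent.helper71.FJ.FarQ

/-!
# Traps for `500 ≤ e`, and for `200 ≤ e`, `5 ≤ e sinh κ`
-/

namespace Pool.Agent.helper14.NS

open Pool.Agent.helper31.EQ Pool.Agent.helper31.EQ.R
open Pool.Agent.helper71.FJ

theorem trapL {e κ : ℝ} (he : 200 ≤ e) (hreg : e * Real.sinh κ ≤ 5 → 500 ≤ e) (hκ : 0 < κ)
    (hd : 2 * (Real.cosh κ - 1) / Real.cosh (e * κ / 2) ^ (2 / e) < 4 ^ (1 / e) - 1) :
    Nonempty (SeqTrap e (Real.exp κ)) :=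
  Pool.Agent.helper31.EQB.trap_reg he hκ hreg hd (farQ (by linarith) hκ hd)
    (farQ_Ω (by linarith) hκ hd) (farQ_X (by linarith) hκ hd)

end Pool.Agent.helper14.NS
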