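import Pool.Agent.helper14.NR.Full20
import Pool.Agent.helper14.NS.FullS
import Pool.Agent.helper14.NS.TrapL
import Pool.Agent.helper63.NF.AsmAll

/-!
# No body has two `i`-equichordal points, `1 < i ≤ 200` or `500 ≤ i`
-/

namespace Pool.Agent.helper14.NS

open Set Metric Pool.Agent.helper31.EQ Pool.Agent.helper31.EQ.R

theorem most_of
    (HW : ∀ e κ : ℝ, 1 < e → e ≤ 4 → 0 < κ →
      2 * (Real.cosh κ - 1) / Real.cosh (e * κ / 2) ^ (2 / e) < 4 ^ (1 / e) - 1 →
      Nonempty (WTrap e (Real.exp κ)))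
    {n : ℕ} (hn : 2 ≤ n) {i : ℝ} (hi : 1 < i) (hR : i ≤ 200 ∨ 500 ≤ i) :
    ¬ ∃ L : Set (EuclideanSpace ℝ (Fin n)), IsBody L ∧ ∃ p q, p ≠ q ∧
      IsEquichordalPoint i L p ∧ IsEquichordalPoint i L q := by
  rcases le_total i 20 with h20 | h20
  · exact Pool.Agent.helper63.NF.part20_of HW
      (fun e κ h4 h5 hκ hd => Pool.Agent.helper14.NR.rdata20 h4 h5 hκ hd) hn hi h20
  rintro ⟨L, _, p, q, hpq, hp, hq⟩
  obtain ⟨w, hw, hvw⟩ := exists_orthogonal hn (q - p)
  obtain ⟨m, hm, g, h, hc⟩ := exists_chordPair hi hpq hp hq hw hvw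
  have hm0 : 0 < m := by linarith
  have hlog : Real.exp (Real.log m) = m := Real.exp_log hm0
  have hκ : 0 < Real.log m := Real.log_pos hm
  have h1 := hc.trivial_exclusion hi hm
  rw [← hlog] at h1
  have h2 := kappa_bound hi hκ h1
  have h3 : Nonempty (SeqTrap i (Real.exp (Real.log m))) := by
    rcases hR with h4 | h4
    · exact trapS h20 h4 hκ h2
    · exact trapL (by linarith) (fun _ => h4) hκ h2
  obtain ⟨D⟩ := h3
  rw [hlog] at D
  exact D.false hi hm hc

end Pool.Agent.helper14.NS
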