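import Mathlib
import Pool.Agent.helper14.NS.Core
import Pool.Agent.helper14.NS.Bridge
import Pool.Agent.helper14.NS.Star

/-! Strong monodromy for simplicial Newton boundaries. -/

namespace Pool.Agent.helper14.NS

open MvPolynomial
open Pool.Agent.helper67.ND
open Pool.Agent.helper11.NSR (dt)

/-- The exponents of `f` of smallest weight (the support of the face polynomial of weight `w`). -/
noncomputable def face {n : ℕ} (f : MvPolynomial (Fin n) ℂ) (w : Fin n → ℕ) :
    Finset (Fin n →₀ ℕ) := by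
  classical
  exact f.support.filter fun v => ∀ u ∈ f.support, ∑ i, w i * v i ≤ ∑ i, w i * u i

lemma mem_face {n : ℕ} (f : MvPolynomial (Fin n) ℂ) (w : Fin n → ℕ) (v : Fin n →₀ ℕ) :
    v ∈ face f w ↔ v ∈ f.support ∧ ∀ u ∈ f.support, ∑ i, w i * v i ≤ ∑ i, w i * u i := by
  classical
  unfold face
  rw [Finset.mem_filter]

/-- A set of exponents is `B1` if there is a coordinate which vanishes on all of them but one,
and is equal to `1` on that one. -/
def IsB1 {n : ℕ} (F : Finset (Fin n →₀ ℕ)) : Prop :=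
  ∃ i : Fin n, ∃ v ∈ F, v i = 1 ∧ ∀ u ∈ F, u ≠ v → u i = 0

/-- positive rational weights are multiples of positive integral weights -/
lemma exists_int_weight {n : ℕ} (k : Fin n → ℚ) (hk : ∀ j, 0 < k j) :
    ∃ (w : Fin n → ℕ) (d : ℕ), 0 < d ∧ (∀ j, 0 < w j) ∧ ∀ j, (w j : ℚ) = d * k j := by
  classical
  set d : ℕ := ∏ j, (k j).den with hd
  have hd0 : 0 < d := Finset.prod_pos fun j _ => (k j).den_pos
  have h1 : ∀ j, ∃ m : ℕ, (m : ℚ) = d * k j := by
    intro j
    obtain ⟨e, he⟩ : (k j).den ∣ d := Finset.dvd_prod_of_mem _ (Finset.mem_univ j)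
    have hnum : 0 < (k j).num := Rat.num_pos.2 (hk j)
    refine ⟨e * (k j).num.toNat, ?_⟩
    have h2 : (((k j).num.toNat : ℕ) : ℚ) = (k j).num := by
      have : (((k j).num.toNat : ℕ) : ℤ) = (k j).num := Int.toNat_of_nonneg hnum.le
      exact_mod_cast this
    have h3 : (k j) * (k j).den = (k j).num := Rat.mul_den_eq_num _
    push_cast
    rw [h2, he]
    push_cast
    rw [← h3]; ring
  choose w hw using h1
  refine ⟨w, d, hd0, fun j => ?_, hw⟩
  have h2 : (0 : ℚ) < w j := by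
    rw [hw]
    exact mul_pos (by exact_mod_cast hd0) (hk j)
  exact_mod_cast h2

/-- the general principle, for arbitrary coefficients -/
theorem root_simplicial {n : ℕ} (hn : 0 < n) (f : MvPolynomial (Fin n) ℂ)
    (hconv : ∀ i : Fin n, ∃ m : ℕ, Finsupp.single i m ∈ f.support)
    (hsimp : ∀ w : Fin n → ℕ, (∀ i, 0 < w i) →
      LinearIndependent ℚ (fun (v : face f w) (i : Fin n) => (((v : Fin n →₀ ℕ) i : ℕ) : ℚ)))
    (w : Fin n → ℕ) (hw : ∀ i, 0 < w i) (hcard : (face f w).card = n) (hB : ¬ IsB1 (face f w))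
    (N : ℕ) (hN : ∀ v ∈ face f w, ∑ i, w i * v i = N)
    (b : Polynomial ℂ) (hb : IsBernstein (fun z => eval z f) b) :
    b.eval (-((∑ i, w i : ℕ) / (N : ℂ))) = 0 := by
  classical
  -- `0` is not in the support
  have h0 : (0 : Fin n →₀ ℕ) ∉ f.support := by
    intro h
    have h1 : (0 : Fin n →₀ ℕ) ∈ face f (fun _ => 1) := by
      rw [mem_face]
      exact ⟨h, fun u _ => by simp⟩
    have h2 := (hsimp (fun _ => 1) (fun _ => one_pos)).ne_zero ⟨0, h1⟩
    exact h2 (by funext i; simp)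
  set ι := {v : Fin n →₀ ℕ // v ∈ f.support} with hι
  set V : ι → Fin n →₀ ℕ := fun v => v.1 with hV
  have hVinj : Function.Injective V := Subtype.val_injective
  have conv : ∀ j : Fin n, ∃ i : ι, 0 < V i j ∧ ∀ j', j' ≠ j → V i j' = 0 := by
    intro j
    obtain ⟨m, hm⟩ := hconv j
    refine ⟨⟨_, hm⟩, ?_, fun j' hj' => ?_⟩
    · simp only [hV, Finsupp.single_eq_same]
      rcases Nat.eq_zero_or_pos m with rfl | h
      · rw [Finsupp.single_zero] at hm; exact absurd hm h0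
      · exact h
    · simp only [hV]
      exact Finsupp.single_eq_of_ne (by tauto)
  have hpos : ∀ k : Fin n → ℚ, (∀ i, 1 ≤ dt k (qv V i)) → ∀ j, 0 < k j := by
    intro k hk j
    obtain ⟨i, hi, hi'⟩ := conv j
    have h1 := hk i
    rw [dt_qv, Finset.sum_eq_single j] at h1
    · have h2 : (0 : ℚ) < V i j := by exact_mod_cast hi
      by_contra hcon
      push Not at hcon
      nlinarith
    · intro j' _ hj'; rw [hi' j' hj']; simp
    · intro h; exact absurd (Finset.mem_univ _) h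
  -- simplicity
  have simple1 : ∀ k : Fin n → ℚ, (∀ i, 1 ≤ dt k (qv V i)) →
      LinearIndependent ℚ (fun i : {i // dt k (qv V i) = 1} => qv V i) := by
    intro k hk
    by_cases hne : ∃ i₀, dt k (qv V i₀) = 1
    · obtain ⟨i₀, hi₀⟩ := hne
      obtain ⟨w', d, hd, hw', hwk⟩ := exists_int_weight k (hpos k hk)
      have hwt : ∀ i : ι, ((∑ j, w' j * V i j : ℕ) : ℚ) = d * dt k (qv V i) := by
        intro i
        rw [dt_qv, Finset.mul_sum]
        push_cast
        exact Finset.sum_congr rfl fun j _ => by rw [hwk]; ring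
      have hdq : (0 : ℚ) < d := by exact_mod_cast hd
      have hmf : ∀ i : ι, dt k (qv V i) = 1 → V i ∈ face f w' := by
        intro i hi
        rw [mem_face]
        refine ⟨i.2, fun u hu => ?_⟩
        have h1 := hwt i
        have h2 := hwt ⟨u, hu⟩
        rw [hi] at h1
        have h3 : ((∑ j, w' j * V i j : ℕ) : ℚ) ≤ ((∑ j, w' j * u j : ℕ) : ℚ) := by
          have h4 : ((∑ j, w' j * u j : ℕ) : ℚ) = d * dt k (qv V ⟨u, hu⟩) := h2
          rw [h1, h4]
          exact mul_le_mul_of_nonneg_left (hk _) hdq.le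
        exact_mod_cast h3
      have h5 := hsimp w' hw'
      exact h5.comp (fun i : {i // dt k (qv V i) = 1} => (⟨V i.1, hmf i.1 i.2⟩ : face f w'))
        (fun a b hab => Subtype.ext (hVinj (Subtype.mk.inj hab)))
    · have : IsEmpty {i // dt k (qv V i) = 1} := ⟨fun i => hne ⟨i.1, i.2⟩⟩
      exact linearIndependent_empty_type
  have hN0 : 0 < N := by
    obtain ⟨v, hv⟩ : (face f w).Nonempty := Finset.card_pos.1 (by omega)
    have h1 := hN v hv
    rw [← h1]
    have h2 : v ≠ 0 := by rintro rfl; exact h0 ((mem_face _ _ _).1 hv).1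
    obtain ⟨j, hj⟩ : ∃ j, v j ≠ 0 := by
      by_contra hcon
      push Not at hcon
      exact h2 (Finsupp.ext hcon)
    refine Finset.sum_pos' (fun i _ => Nat.zero_le _) ⟨j, Finset.mem_univ _, ?_⟩
    exact Nat.mul_pos (hw j) (Nat.pos_of_ne_zero hj)
  have hNq : (0 : ℚ) < N := by exact_mod_cast hN0
  -- the facet
  set k₀ : Fin n → ℚ := fun j => (w j : ℚ) / N with hk₀def
  have hk₀dt : ∀ i : ι, dt k₀ (qv V i) = ((∑ j, w j * V i j : ℕ) : ℚ) / N := by
    intro i
    rw [dt_qv]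
    push_cast
    rw [Finset.sum_div]
    exact Finset.sum_congr rfl fun j _ => by rw [hk₀def]; ring
  obtain ⟨v₀, hv₀⟩ : (face f w).Nonempty := Finset.card_pos.1 (by omega)
  have hNle : ∀ i : ι, N ≤ ∑ j, w j * V i j := by
    intro i
    rw [← hN v₀ hv₀]
    exact ((mem_face _ _ _).1 hv₀).2 _ i.2
  have hk₀ : ∀ i, 1 ≤ dt k₀ (qv V i) := by
    intro i
    rw [hk₀dt, le_div_iff₀ hNq, one_mul]
    exact_mod_cast hNle i
  set Δ₀ : Finset ι := Finset.univ.filter (fun i => V i ∈ face f w) with hΔ₀def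
  have hmemΔ : ∀ i, i ∈ Δ₀ ↔ V i ∈ face f w := by intro i; simp [hΔ₀def]
  have hΔ₀ : ∀ i, i ∈ Δ₀ ↔ dt k₀ (qv V i) = 1 := by
    intro i
    rw [hmemΔ, hk₀dt, div_eq_iff hNq.ne', one_mul]
    constructor
    · intro h; rw [hN _ h]
    · intro h
      rw [mem_face]
      refine ⟨i.2, fun u hu => ?_⟩
      have h1 : ∑ j, w j * V i j = N := by exact_mod_cast h
      have h2 := hNle ⟨u, hu⟩
      simp only [hV] at h1 h2
      simp only [hV, h1]
      exact h2
  have hcardΔ : Δ₀.card = n := by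
    rw [← hcard]
    refine Finset.card_bij (fun i _ => V i) (fun i hi => (hmemΔ i).1 hi)
      (fun i _ j _ h => hVinj h) ?_
    intro v hv
    exact ⟨⟨v, ((mem_face _ _ _).1 hv).1⟩, (hmemΔ _).2 hv, rfl⟩
  have hliΔ : LinearIndependent ℚ (fun i : {i // i ∈ Δ₀} => qv V i) :=
    (simple1 k₀ hk₀).comp (fun i : {i // i ∈ Δ₀} =>
      (⟨i.1, (hΔ₀ i.1).1 i.2⟩ : {i // dt k₀ (qv V i) = 1}))
      (fun a b hab => Subtype.ext (Subtype.mk.inj hab))
  -- coordinates of `(1, ..., 1)`
  obtain ⟨cf, hcf1, -, hcf3⟩ := Pool.Agent.helper11.NSR.exists_coord (qv V) Δ₀ hcardΔ hliΔ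
  set β : ι → ℚ := fun i => cf i (fun _ => 1) with hβdef
  have hβ : ∀ j, ∑ i, β i * (V i j : ℚ) = 1 := by
    intro j
    have h1 := congrFun (hcf3 (fun _ => 1)) j
    rw [Finset.sum_apply] at h1
    rw [h1]
    exact Finset.sum_congr rfl fun i _ => rfl
  have hβ0 : ∀ i, i ∉ Δ₀ → β i = 0 := by
    intro i hi
    simp only [hβdef, hcf1 i hi]
    rfl
  have hsum : ∑ i, β i = ∑ j, k₀ j := by
    have h1 : ∑ i, β i = ∑ i, β i * dt k₀ (qv V i) := by
      refine Finset.sum_congr rfl fun i _ => ?_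
      by_cases hi : i ∈ Δ₀
      · rw [(hΔ₀ i).1 hi, mul_one]
      · rw [hβ0 i hi, zero_mul]
    rw [h1]
    calc ∑ i, β i * dt k₀ (qv V i) = ∑ i, ∑ j, k₀ j * (β i * (V i j : ℚ)) := by
          refine Finset.sum_congr rfl fun i _ => ?_
          rw [dt_qv, Finset.mul_sum]
          exact Finset.sum_congr rfl fun j _ => by ring
      _ = ∑ j, k₀ j := by
          rw [Finset.sum_comm]
          refine Finset.sum_congr rfl fun j _ => ?_
          rw [← Finset.mul_sum, hβ, mul_one]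
  have ha : 0 < ∑ i, β i := by
    rw [hsum]
    have : Nonempty (Fin n) := ⟨⟨0, hn⟩⟩
    refine Finset.sum_pos (fun j _ => ?_) Finset.univ_nonempty
    have : (0 : ℚ) < w j := by exact_mod_cast hw j
    exact div_pos this hNq
  set ρ : Finset ι := Δ₀.filter (fun i => ¬ ∃ k : ℕ, β i = k + 1) with hρ
  have hmρ : ∀ i, i ∈ ρ ↔ i ∈ Δ₀ ∧ ¬ ∃ k : ℕ, β i = k + 1 := by
    intro i; rw [hρ, Finset.mem_filter]
  -- `ρ` covers all coordinates
  have cover : ∀ j : Fin n, ∃ i ∈ ρ, V i j ≠ 0 := by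
    intro j
    by_contra hcon
    push Not at hcon
    -- the terms of `∑ β i V i j = 1`
    have hterm : ∀ i, 0 ≤ β i * (V i j : ℚ) ∧ (V i j ≠ 0 → β i ≠ 0 → (V i j : ℚ) ≤ β i * V i j)
        := by
      intro i
      by_cases hi : i ∈ Δ₀
      · by_cases hk : ∃ k : ℕ, β i = k + 1
        · obtain ⟨k, hk⟩ := hk
          refine ⟨by rw [hk]; positivity, fun _ _ => ?_⟩
          rw [hk]
          have : (0 : ℚ) ≤ (V i j : ℚ) := by positivity
          have h2 : (0 : ℚ) ≤ k := by positivity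
          nlinarith
        · have h1 := hcon i ((hmρ i).2 ⟨hi, hk⟩)
          rw [h1]; simp
      · rw [hβ0 i hi]; simp
    obtain ⟨i₀, hi₀⟩ : ∃ i, β i * (V i j : ℚ) ≠ 0 := by
      by_contra hall
      push Not at hall
      have h1 := hβ j
      rw [Finset.sum_eq_zero fun i _ => hall i] at h1
      exact zero_ne_one h1
    have hV0 : V i₀ j ≠ 0 := by
      intro h; rw [h] at hi₀; simp at hi₀
    have hβ00 : β i₀ ≠ 0 := by intro h; rw [h] at hi₀; simp at hi₀
    have hi₀Δ : i₀ ∈ Δ₀ := by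
      by_contra h
      exact hβ00 (hβ0 _ h)
    have hge : (1 : ℚ) ≤ V i₀ j := by exact_mod_cast Nat.one_le_iff_ne_zero.2 hV0
    have h1 := (hterm i₀).2 hV0 hβ00
    have hsplit : β i₀ * (V i₀ j : ℚ) + ∑ i ∈ Finset.univ.erase i₀, β i * (V i j : ℚ) = 1 := by
      rw [Finset.add_sum_erase Finset.univ (fun i => β i * (V i j : ℚ)) (Finset.mem_univ i₀)]
      exact hβ j
    have hrest : 0 ≤ ∑ i ∈ Finset.univ.erase i₀, β i * (V i j : ℚ) :=
      Finset.sum_nonneg fun i _ => (hterm i).1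
    have hrest0 : ∑ i ∈ Finset.univ.erase i₀, β i * (V i j : ℚ) = 0 := by linarith
    have hone : (V i₀ j : ℚ) = 1 := by linarith
    refine hB ⟨j, V i₀, (hmemΔ i₀).1 hi₀Δ, by exact_mod_cast hone, ?_⟩
    intro u hu hne
    set i' : ι := ⟨u, ((mem_face _ _ _).1 hu).1⟩ with hi'
    have hi'Δ : i' ∈ Δ₀ := (hmemΔ i').2 hu
    have hi'ne : i' ≠ i₀ := by
      intro h
      exact hne (congrArg V h)
    have hz := (Finset.sum_eq_zero_iff_of_nonneg (fun i _ => (hterm i).1)).1 hrest0 i'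
      (Finset.mem_erase.2 ⟨hi'ne, Finset.mem_univ _⟩)
    by_contra hu0
    by_cases hk : ∃ k : ℕ, β i' = k + 1
    · obtain ⟨k, hk⟩ := hk
      rw [hk] at hz
      have h3 : (V i' j : ℚ) ≠ 0 := by exact_mod_cast hu0
      have h4 : ((k : ℚ) + 1) ≠ 0 := by positivity
      exact (mul_ne_zero h4 h3) hz
    · exact hu0 (hcon i' ((hmρ i').2 ⟨hi'Δ, hk⟩))
  -- the star
  obtain ⟨Vt, l, l', H, iH, aH, z, hC, hR⟩ := exists_star V (fun _ => 0) 1 one_pos conv
    (by
      intro k hk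
      have hk' : ∀ i, 1 ≤ dt k (qv V i) := fun i => by simpa using hk i
      exact (simple1 k hk').comp
        (fun i : {i // dt k (qv V i) = 1 - 1 * ((0 : ℤ) : ℚ)} =>
          (⟨i.1, by simpa using i.2⟩ : {i // dt k (qv V i) = 1}))
        (fun a b hab => Subtype.ext (Subtype.mk.inj hab)))
    (by
      intro k Δ _ hk hΔ
      simp only [Int.cast_zero, mul_zero, sub_zero] at hk hΔ
      exact ⟨k, hk, fun i hi => (hΔ i).1 hi⟩)
    Δ₀ hcardΔ k₀ (by simpa using hk₀) (by simpa using hΔ₀) β hβ hβ0 ha ρ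
    (Finset.filter_subset _ _) (by
      intro i hi hiρ
      by_contra h
      exact hiρ ((hmρ i).2 ⟨hi, h⟩)) (fun i hi => ((hmρ i).1 hi).2) cover ℂ
  let _ : Algebra ℚ H := Algebra.compHom H (algebraMap ℚ ℂ)
  have hf : MvPolynomial.map ((HahnSeries.C : H →+* HahnSeries ℤ H).comp (algebraMap ℂ H)) f =
      ∑ i : ι, monomial (V i) (HahnSeries.single (0 : ℤ) (algebraMap ℂ H (coeff (V i) f))) := by
    conv_lhs => rw [f.as_sum, map_sum]
    rw [← Finset.sum_coe_sort f.support]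
    refine Finset.sum_congr rfl fun i _ => ?_
    rw [map_monomial]
    rfl
  have hfin := root_of_comb (c := fun i : ι => coeff (V i) f) hC hR
    (fun i => mem_support_iff.1 i.2) _ f b (truncB_of_isBernstein f b hb) hf
  have h9 : (((∑ i, β i : ℚ)) : ℂ) = ((∑ i, w i : ℕ) : ℂ) / N := by
    rw [hsum]
    push_cast
    rw [Finset.sum_div]
    refine Finset.sum_congr rfl fun j _ => ?_
    simp only [hk₀def]
    push_cast
    rfl
  rw [h9] at hfin
  exact hfin

end Pool.Agent.helper14.NS
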