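import Pool.Agent.helper14.NR.Top
import Pool.Agent.helper4.NS.PolyEv

/-!
# The top of the range of `b = e κ / 2`, large constants
-/

namespace Pool.Agent.helper14.NS

open Pool.Agent.helper31.IA (Z get InBox)
open Pool.Agent.helper31.IX (Op Asserts Cov)
open Pool.Agent.helper63.NF
open Pool.Agent.helper12.RS (kfun kmax_lt kfun_eq Hh)
open Pool.Agent.helper4.NS (scE scE_ev)
open Pool.Agent.helper14.NR

/-- the program -/
def topPS (c0 c1 c2 : ℤ) : List St :=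
  .set 1 (.add (.mul (.add (scE c2 (.r 0)) (.c (zi c1))) (.r 0)) (.c (zi c0))) ::
    (topP c0 c1 c2).tail

theorem topPS_sem {c0 c1 c2 : ℤ} {σ : ℕ → ℂ} {Q : (ℕ → ℂ) → Prop}
    (h : Sem (topPS c0 c1 c2) σ Q) : Sem (topP c0 c1 c2) σ Q := by
  refine ⟨by simp [E.Ok], fun v hv => h.2 v (hv.trans ?_)⟩
  simp only [E.ev, scE_ev, zi_val]

/-- **The top of the range.** -/
theorem top_ofS {c0 c1 c2 : ℤ} {c h : ℕ} (hc : Cov 0 (comp (topPS c0 c1 c2) ρ1 1) [(c, h)])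
    {e κ : ℝ} (he : 0 < e) (h1 : |1 / e - (c : ℝ) / 2 ^ 40| ≤ (h : ℝ) / 2 ^ 40)
    (hd : 2 * (Real.cosh κ - 1) / Real.cosh (e * κ / 2) ^ (2 / e) < 4 ^ (1 / e) - 1) :
    e * κ / 2 < topB c0 c1 c2 (1 / e) := by
  have hu : InBox [(c, h)] [1 / e] := List.Forall₂.cons h1 List.Forall₂.nil
  have ha := hc [1 / e] [] hu rfl (by simp)
  have hs := topP_sound (ε := 1 / e) (topPS_sem (comp1 ha))
  obtain ⟨hB, hlt⟩ := hs
  obtain ⟨B, hB'⟩ : ∃ B, B = topB c0 c1 c2 (1 / e) := ⟨_, rfl⟩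
  rw [← hB'] at hB hlt ⊢
  have hκ1 : 0 < 2 * (1 / e * B) := by positivity
  have h2 : κ < 2 * (1 / e * B) := by
    apply kmax_lt he hκ1 hd
    rw [kfun_top he, four_rpow]
    exact hlt.le
  have h3 := mul_lt_mul_of_pos_left h2 he
  have h4 : e * (2 * (1 / e * B)) = 2 * B := by
    field_simp
  rw [h4] at h3
  linarith

end Pool.Agent.helper14.NS
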